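import Pool.Agent.Lib.MP_bf776f_nt.SU.BFin

/-! Three independent points: two algebraically independent numbers. -/

namespace Pool.Agent.CSU

open Polynomial Finset

variable {k F : Type} [Field k] [NormedField F] [Algebra k F]

lemma al_of_adj {θ y b : F}
    (h : IsAlgebraic (Algebra.adjoin (IntermediateField.adjoin k {θ}) (Set.range ![y])) b) :
    Al k θ y b := by
  let A := Subalgebra.algebraicClosure (Algebra.adjoin k (Set.range ![θ, y])) F
  have h1 : (Algebra.adjoin (IntermediateField.adjoin k {θ}) (Set.range ![y])).toSubring ≤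
      A.toSubring := by
    rw [Algebra.adjoin_eq_ring_closure, Subring.closure_le]
    rintro _ (⟨⟨a, ha⟩, rfl⟩ | ⟨i, rfl⟩)
    · obtain ⟨r, s, rfl⟩ := (IntermediateField.mem_adjoin_simple_iff k a).1 ha
      show Al k θ y (_ / _)
      rw [div_eq_mul_inv]
      exact (al_pol θ y r).mul (al_pol θ y s).inv
    · fin_cases i
      exact isAlgebraic_algebraMap
        (⟨y, Algebra.subset_adjoin ⟨1, rfl⟩⟩ : Algebra.adjoin k (Set.range ![θ, y]))
  have h2 : IsAlgebraic A b :=
    h.ringHom_of_comp_eq (Subring.inclusion h1) (RingHom.id F) (Subring.inclusion_injective h1) rfl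
  exact h2.restrictScalars _

/-- Either a set lies in transcendence degree one over `k(θ)`, or it contains two algebraically
independent elements. -/
lemma pair_of (θ : F) (s : Set F) (h : ∀ y : F, ¬ ∀ b ∈ s, Al k θ y b) :
    ∃ a ∈ s, ∃ b ∈ s, AlgebraicIndependent (IntermediateField.adjoin k {θ}) ![a, b] := by
  have h0 := h 0
  push Not at h0
  obtain ⟨a, ha, ta⟩ := h0
  have h1 := h a
  push Not at h1
  obtain ⟨b, hb, tb⟩ := h1
  refine ⟨a, ha, b, hb, ?_⟩
  have := (AlgebraicIndependent.option_iff.2 ⟨algebraicIndependent_iff_transcendental.2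
    fun h => ta (al_of_adj (h.extendScalars (FaithfulSMul.algebraMap_injective _ _))),
    fun h => tb (al_of_adj h)⟩).comp ![some 0, none] (by decide)
  convert this using 1
  ext i
  fin_cases i <;> rfl

/-- Three points, linearly independent over `k(θ)`: the final form. -/
def BT : Prop :=
  ∀ (k F : Type) [Field k] [Fintype k] [NormedField F] [IsUltrametricDist F] [CompleteSpace F]
    [Algebra k F] (θ : F) (u : Fin 3 → F), 1 < ‖θ‖ → (∀ i, IsAlgebraic (Kinf k θ) (u i)) →
    LinearIndependent (IntermediateField.adjoin k {θ}) u →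
    ∃ a ∈ Set.range u ∪ Set.range fun i => cE (Fintype.card k) θ (u i),
      ∃ b ∈ Set.range u ∪ Set.range fun i => cE (Fintype.card k) θ (u i),
        AlgebraicIndependent (IntermediateField.adjoin k {θ}) ![a, b]

theorem thmB : AS → B0S → BT := by
  intro hA hB k F _ _ _ _ _ _ θ u hθ hal hi
  refine pair_of θ _ fun y h => bfin hA hB k F θ u hθ hal (fun β hβ h0 => hβ (funext fun i => ?_))
    y fun i => ⟨h _ (Or.inl ⟨i, rfl⟩), h _ (Or.inr ⟨i, rfl⟩)⟩
  have h1 := congrArg Subtype.val (Fintype.linearIndependent_iff.1 hi (fun i => ⟨aeval θ (β i),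
    (IntermediateField.mem_adjoin_simple_iff k _).2 ⟨β i, 1, by simp⟩⟩) h0 i)
  by_contra hb
  have := norm_aeval norm_fin hθ hb
  rw [show aeval θ (β i) = 0 from h1, norm_zero] at this
  exact absurd this (by positivity)

end Pool.Agent.CSU
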