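import Pool.Agent.Lib.MP_bf776f_nt.SU.St

/-! The derivation `d/dθ` over the `p`-th powers of a finite separable extension of `K_∞`. -/

namespace Pool.Agent.CSU

open Finset Polynomial Filter Topology

variable {k F : Type} [Field k] [NormedField F] [IsUltrametricDist F] [Algebra k F]

/-- A continuous derivation `D` on the closed subfield `W`, zero on `E`, with `D θ = 1`. -/
structure Dr (k : Type) [Field k] [Algebra k F] (q : ℕ) (θ : F) (E W : Subfield F)
    (D : F →+ F) : Prop where
  le : E ≤ W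
  th : θ ∈ W
  clE : IsClosed (E : Set F)
  cl : IsClosed (W : Set F)
  cont : ContinuousOn D W
  d1 : D θ = 1
  d0 : ∀ a ∈ E, D a = 0
  mul : ∀ a ∈ W, ∀ b ∈ W, D (a * b) = a * D b + b * D a
  hk : ∀ c, algebraMap k F c ∈ E
  thq : θ ^ q ∈ E

omit [IsUltrametricDist F] in
lemma norm_fin [Fintype k] (c : k) : ‖algebraMap k F c‖ ≤ 1 := by
  by_cases hc : c = 0
  · simp [hc]
  have h := congrArg (fun c => ‖algebraMap k F c‖) (FiniteField.pow_card_sub_one_eq_one c hc)
  simp only [map_pow, norm_pow, map_one, norm_one] at h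
  have := Fintype.one_lt_card (α := k)
  exact ((pow_eq_one_iff_of_nonneg (norm_nonneg _) (by omega)).1 h).le

lemma norm_aeval (hk : ∀ c : k, ‖algebraMap k F c‖ ≤ 1) {θ : F} (hθ : 1 < ‖θ‖) {a : k[X]}
    (ha : a ≠ 0) : ‖aeval θ a‖ = ‖θ‖ ^ a.natDegree := by
  have hl : ‖aeval θ (C a.leadingCoeff * X ^ a.natDegree)‖ = ‖θ‖ ^ a.natDegree := by
    simp [norm_k hk (leadingCoeff_ne_zero.2 ha)]
  have h1 : ‖aeval θ a.eraseLead‖ < ‖θ‖ ^ a.natDegree := by
    rcases eraseLead_natDegree_lt_or_eraseLead_eq_zero a with h | h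
    · refine lt_of_le_of_lt ?_ (pow_lt_pow_right₀ hθ h)
      rw [aeval_eq_sum_range]
      refine IsUltrametricDist.norm_sum_le_of_forall_le_of_nonneg (by positivity) fun i hi => ?_
      rw [Algebra.smul_def, norm_mul, norm_pow]
      exact (mul_le_of_le_one_left (by positivity) (hk _)).trans
        (pow_le_pow_right₀ hθ.le (Nat.lt_succ_iff.1 (mem_range.1 hi)))
    · rw [h]; simpa using by positivity
  conv_lhs => rw [← eraseLead_add_C_mul_X_pow a, map_add]
  rw [IsUltrametricDist.norm_add_eq_max_of_norm_ne_norm (by rw [hl]; exact h1.ne), hl,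
    max_eq_right h1.le]

lemma kinf_norm (hk : ∀ c : k, ‖algebraMap k F c‖ ≤ 1) {θ : F} (hθ : 1 < ‖θ‖) {w : F}
    (hw : w ∈ Kinf k θ) (h0 : w ≠ 0) : ∃ n : ℤ, ‖w‖ = ‖θ‖ ^ n := by
  obtain ⟨r, hr, hd⟩ := Metric.mem_closure_iff.1 hw ‖w‖ (norm_pos_iff.2 h0)
  rw [dist_eq_norm] at hd
  have h1 : ‖r‖ = ‖w‖ := by
    have := IsUltrametricDist.norm_add_eq_max_of_norm_ne_norm (x := w) (y := -(w - r))
      (by rw [norm_neg]; exact hd.ne')
    rwa [norm_neg, max_eq_left hd.le, show w + -(w - r) = r by ring] at this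
  obtain ⟨a, b, rfl⟩ := (IntermediateField.mem_adjoin_simple_iff k r).1 hr
  have h2 : aeval θ a / aeval θ b ≠ 0 := by rw [← norm_ne_zero_iff, h1]; simpa
  have ha : a ≠ 0 := by rintro rfl; simp at h2
  have hb : b ≠ 0 := by rintro rfl; simp at h2
  refine ⟨(a.natDegree : ℤ) - b.natDegree, ?_⟩
  rw [← h1, norm_div, norm_aeval hk hθ ha, norm_aeval hk hθ hb, zpow_sub₀ (by positivity)]
  simp

omit [IsUltrametricDist F] in
lemma fd_closed [CompleteSpace F] (K : Subfield F) (hc : IsClosed (K : Set F)) {t : F}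
    (ht : t ∈ K) (h1 : 1 < ‖t‖) (M : Submodule K F) [FiniteDimensional K M] :
    IsClosed (M : Set F) ∧ ∀ D : F →ₗ[K] F, ContinuousOn D M := by
  let : NontriviallyNormedField K := ⟨⟨t, ht⟩, h1⟩
  have : CompleteSpace K := hc.completeSpace_coe
  have : ContinuousSMul K F := ⟨(continuous_subtype_val.comp continuous_fst).mul continuous_snd⟩
  exact ⟨M.closed_of_finiteDimensional, fun D =>
    continuousOn_iff_continuous_domRestrict.2 (D.domRestrict M).continuous_of_finiteDimensional⟩

omit [IsUltrametricDist F] in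
lemma frob_closed [CompleteSpace F] (p : ℕ) [Fact p.Prime] [CharP F p] (K : Subfield F)
    (hc : IsClosed (K : Set F)) : IsClosed (K.map (frobenius F p) : Set F) := by
  have hp : p ≠ 0 := (Fact.out : p.Prime).ne_zero
  refine IsSeqClosed.isClosed fun x w hx hw => ?_
  choose a ha hax using hx
  have hca : CauchySeq a := Metric.cauchySeq_iff.2 fun ε hε => by
    obtain ⟨N, hN⟩ := Metric.cauchySeq_iff.1 hw.cauchySeq (ε ^ p) (by positivity)
    refine ⟨N, fun m hm n hn => ?_⟩
    have := hN m hm n hn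
    rw [← hax, ← hax, dist_eq_norm, ← map_sub, frobenius_def, norm_pow] at this
    rw [dist_eq_norm]
    exact lt_of_pow_lt_pow_left₀ p hε.le this
  obtain ⟨b, hb⟩ := cauchySeq_tendsto_of_complete hca
  refine ⟨b, hc.mem_of_tendsto hb (Eventually.of_forall ha), tendsto_nhds_unique ?_ hw⟩
  exact (hb.pow p).congr hax

theorem der [Fintype k] [CompleteSpace F] {θ : F} (hθ : 1 < ‖θ‖) (S : Finset F)
    (hS : ∀ s ∈ S, IsAlgebraic (Kinf k θ) s) :
    ∃ (e : ℕ) (E W : Subfield F) (D : F →+ F), Dr k (Fintype.card k) θ E W D ∧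
      ∀ s ∈ S, s ^ Fintype.card k ^ e ∈ E := by
  classical
  obtain ⟨p, hpk, f, hp, hq⟩ := FiniteField.card' k
  have := Fact.mk hp
  have : CharP F p := charP_of_injective_algebraMap (algebraMap k F).injective p
  set K := Kinf k θ with hK
  have hKc : IsClosed (K : Set F) := Subfield.isClosed_topologicalClosure _
  have hθK : θ ∈ K := Subfield.le_topologicalClosure _ (IntermediateField.mem_adjoin_simple_self k θ)
  have hkK : ∀ c, algebraMap k F c ∈ K := fun c =>
    Subfield.le_topologicalClosure _ ((IntermediateField.adjoin k {θ}).algebraMap_mem c)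
  have hsep : ∀ s ∈ S, ∃ n, s ^ p ^ n ∈ separableClosure K F := fun s hs => by
    obtain ⟨n, g, hg, hgs⟩ := exists_separable_of_irreducible p
      (minpoly.irreducible (hS s hs).isIntegral) hp.ne_zero
    refine ⟨n, hg.of_dvd (minpoly.dvd _ _ ?_)⟩
    rw [← expand_aeval, hgs, minpoly.aeval]
  choose! n hn using hsep
  set e := S.sup n with he
  have hf : 1 ≤ (f : ℕ) := f.2
  have hsep' : ∀ s ∈ S, s ^ Fintype.card k ^ e ∈ separableClosure K F := fun s hs => by
    have h1 : n s ≤ f * e := (le_sup (f := n) hs).trans (Nat.le_mul_of_pos_left _ hf)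
    rw [hq, ← pow_mul, ← Nat.add_sub_cancel' h1, pow_add, pow_mul]
    exact pow_mem (hn s hs) _
  set F' := IntermediateField.adjoin K ((fun s => s ^ Fintype.card k ^ e) '' (S : Set F)) with hF'
  have : Finite ((fun s => s ^ Fintype.card k ^ e) '' (S : Set F)) :=
    (S.finite_toSet.image _).to_subtype
  have : FiniteDimensional K F' := IntermediateField.finiteDimensional_adjoin (by
    rintro _ ⟨s, hs, rfl⟩; exact (hS s hs).isIntegral.pow _)
  have hF'c : IsClosed (F'.toSubfield : Set F) :=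
    (fd_closed K hKc hθK hθ (Subalgebra.toSubmodule F'.toSubalgebra)).1
  have hKF : ∀ a ∈ K, a ∈ F' := fun a ha => F'.algebraMap_mem ⟨a, ha⟩
  set E := F'.toSubfield.map (frobenius F p) with hE
  have hEm : ∀ a ∈ F', a ^ p ∈ E := fun a ha => ⟨a, ha, rfl⟩
  have hEq : ∀ a ∈ F', a ^ Fintype.card k ∈ E := fun a ha => by
    rw [hq, ← Nat.sub_add_cancel hf, pow_succ, pow_mul]
    exact hEm _ (pow_mem ha _)
  have hθE : θ ∉ E := by
    rintro ⟨w, hw, hwθ⟩
    rw [frobenius_def] at hwθ
    have h1 : IsSeparable K w :=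
      (IntermediateField.adjoin_le_iff.2 (by rintro _ ⟨s, hs, rfl⟩; exact hsep' s hs) :
        F' ≤ separableClosure K F) hw
    have h2 := IntermediateField.adjoin_simple_eq_adjoin_pow_expChar_of_isSeparable K F h1 p
    rw [hwθ, IntermediateField.adjoin_simple_eq_bot_iff.2 (show θ ∈ (⊥ : IntermediateField K F)
      from ⟨⟨θ, hθK⟩, rfl⟩), IntermediateField.adjoin_simple_eq_bot_iff] at h2
    obtain ⟨w, rfl⟩ := h2
    obtain ⟨m, hm⟩ := kinf_norm norm_fin hθ w.2 (by
      rintro h0
      have : θ = 0 := by rw [← hwθ]; exact (congrArg (· ^ p) h0).trans (zero_pow hp.ne_zero)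
      rw [this, norm_zero] at hθ; linarith)
    have h3 : ‖θ‖ ^ (m * p) = ‖θ‖ ^ (1 : ℤ) := by
      rw [zpow_mul, ← hm, zpow_natCast, ← norm_pow, zpow_one]; exact congrArg norm hwθ
    have h4 := zpow_right_injective₀ (by positivity) hθ.ne' h3
    have := Int.eq_one_of_mul_eq_one_left (by positivity) h4
    exact hp.one_lt.ne' (by exact_mod_cast this)
  let τ : E := ⟨θ ^ p, hEm θ (hKF θ hθK)⟩
  have hirr : Irreducible (X ^ p - C τ) := X_pow_sub_C_irreducible_of_prime hp fun b hb => by
    have : (b : F) = θ := frobenius_inj F p (congrArg Subtype.val hb)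
    exact hθE (this ▸ b.2)
  have hroot : aeval θ (X ^ p - C τ) = 0 := by simp [τ]; exact sub_self _
  have hmon := monic_X_pow_sub_C τ hp.ne_zero
  have hint : IsIntegral E θ := ⟨_, hmon, hroot⟩
  let W := IntermediateField.adjoin E {θ}
  obtain ⟨pb, hdim, hgen⟩ : ∃ pb : PowerBasis E W, pb.dim = p ∧ (pb.gen : F) = θ :=
    ⟨IntermediateField.adjoin.powerBasis hint, by
      rw [IntermediateField.adjoin.powerBasis_dim,
        ← minpoly.eq_of_irreducible_of_monic hirr hroot hmon, natDegree_X_pow_sub_C], rfl⟩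
  have : FiniteDimensional E W := IntermediateField.adjoin.finiteDimensional hint
  obtain ⟨D, hD⟩ := LinearMap.exists_extend (p := Subalgebra.toSubmodule W.toSubalgebra)
    (pb.basis.constr E fun i => ((i : ℕ) : F) * θ ^ ((i : ℕ) - 1))
  have hpow : ∀ m : ℕ, D (θ ^ m) = m * θ ^ (m - 1) := by
    intro m
    induction m using Nat.strong_induction_on with
    | _ m ih =>
      rcases lt_or_ge m p with h | h
      · have := congrArg (· (pb.basis ⟨m, h.trans_eq hdim.symm⟩)) hD
        simp only [LinearMap.comp_apply] at this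
        erw [Module.Basis.constr_basis] at this
        rw [← this, pb.basis_eq_pow, ← hgen]
        rfl
      · obtain ⟨r, rfl⟩ := Nat.exists_eq_add_of_le h
        rw [pow_add, show θ ^ p * θ ^ r = τ • θ ^ r from rfl, map_smul,
          ih r (by have := hp.pos; omega), Nat.cast_add, CharP.cast_eq_zero F p, zero_add]
        rcases r with _ | r
        · simp
        · show θ ^ p * _ = _
          rw [Nat.add_sub_cancel, ← add_assoc, Nat.add_sub_cancel, pow_add]; ring
  have haev : ∀ g : E[X], D (aeval θ g) = aeval θ (derivative g) := fun g => by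
    induction g using Polynomial.induction_on' with
    | add a b ha hb => simp [ha, hb]
    | monomial m a =>
      rw [aeval_monomial, ← Algebra.smul_def, map_smul, hpow, derivative_monomial, aeval_monomial,
        Algebra.smul_def, map_mul, map_natCast, mul_assoc]
  have hWa : ∀ a ∈ W, ∃ g : E[X], a = aeval θ g := fun a ha => by
    obtain ⟨g, hg⟩ := pb.exists_eq_aeval' ⟨a, ha⟩
    refine ⟨g, (congrArg Subtype.val hg).trans ?_⟩
    rw [← hgen]
    exact (aeval_algHom_apply W.val pb.gen g).symm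
  have hEc := frob_closed p _ hF'c
  have hcl := fd_closed E hEc τ.2 (by
    show 1 < ‖θ ^ p‖
    rw [norm_pow]; exact one_lt_pow₀ hθ hp.ne_zero) (Subalgebra.toSubmodule W.toSubalgebra)
  refine ⟨e + 1, E, W.toSubfield, D.toAddMonoidHom, ⟨fun a ha => W.algebraMap_mem ⟨a, ha⟩,
    IntermediateField.mem_adjoin_simple_self E θ, hEc, hcl.1, hcl.2 D, by simpa using hpow 1,
    fun a ha => by
      have := haev (C ⟨a, ha⟩)
      rwa [derivative_C, map_zero, aeval_C] at this, fun a ha b hb => ?_, fun c => ?_,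
    hEq θ (hKF θ hθK)⟩, fun s hs => ?_⟩
  · obtain ⟨g, rfl⟩ := hWa a ha
    obtain ⟨h, rfl⟩ := hWa b hb
    simp only [LinearMap.toAddMonoidHom_coe]
    rw [← map_mul, haev, haev, haev, derivative_mul, map_add, map_mul, map_mul]
    ring
  · have := hEq _ (hKF _ (hkK c))
    rwa [← map_pow, FiniteField.pow_card] at this
  · rw [pow_succ, pow_mul]
    exact hEq _ (IntermediateField.subset_adjoin _ _ ⟨s, hs, rfl⟩)

namespace Dr

omit [IsUltrametricDist F]

variable {q : ℕ} {θ : F} {E W : Subfield F} {D : F →+ F} (h : Dr k q θ E W D)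
include h

lemma chain {ι : Type} [Fintype ι] (x : ι → F) (hx : ∀ i, x i ∈ W) (P : MvPolynomial ι k) :
    MvPolynomial.aeval x P ∈ W ∧ D (MvPolynomial.aeval x P) =
      ∑ i, MvPolynomial.aeval x (MvPolynomial.pderiv i P) * D (x i) := by
  classical
  induction P using MvPolynomial.induction_on with
  | C c => simp [h.le (h.hk c), h.d0 _ (h.hk c)]
  | add P Q hP hQ =>
    exact ⟨by rw [map_add]; exact add_mem hP.1 hQ.1, by
      simp [hP.2, hQ.2, add_mul, sum_add_distrib]⟩
  | mul_X P j hP =>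
    rw [map_mul, MvPolynomial.aeval_X]
    refine ⟨mul_mem hP.1 (hx j), ?_⟩
    rw [h.mul _ hP.1 _ (hx j), hP.2]
    simp [MvPolynomial.pderiv_X, Pi.single_apply, add_mul, sum_add_distrib, mul_sum, mul_assoc,
      apply_ite]

omit h in
lemma minrel [Fintype k] {ι : Type} (x : ι → F) (hx : ¬ AlgebraicIndependent k x) :
    ∃ P : MvPolynomial ι k, MvPolynomial.aeval x P = 0 ∧
      ∃ i, MvPolynomial.aeval x (MvPolynomial.pderiv i P) ≠ 0 := by
  classical
  obtain ⟨p, hpk, f, hp, -⟩ := FiniteField.card' k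
  have := Fact.mk hp
  have : CharP F p := charP_of_injective_algebraMap (algebraMap k F).injective p
  rw [algebraicIndependent_iff] at hx
  push Not at hx
  obtain ⟨P, ⟨hP, hP0⟩, hmin⟩ := exists_minimalFor_of_wellFoundedLT
    (fun P : MvPolynomial ι k => MvPolynomial.aeval x P = 0 ∧ P ≠ 0) MvPolynomial.totalDegree hx
  have hmin' : ∀ Q : MvPolynomial ι k, Q ≠ 0 → MvPolynomial.aeval x Q = 0 →
      P.totalDegree ≤ Q.totalDegree := fun Q h1 h2 => by
    by_contra hc
    have := hmin (j := Q) ⟨h2, h1⟩ (by omega)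
    omega
  obtain ⟨i, σ, hσ, hi⟩ := MvPolynomial.exists_mem_support_not_dvd_of_forall_totalDegree_le p hp
    (fun s hs => by
      apply hs.map_of_injective_injective (frobeniusEquiv k p).symm
        (frobenius F p).toAddMonoidHom <;>
      simp [frobenius, Algebra.smul_def, mul_pow, ← map_pow, frobeniusEquiv_symm_pow])
    hmin' hP0 hP
  refine ⟨P, hP, i, fun h0 => ?_⟩
  have hne : MvPolynomial.pderiv i P ≠ 0 := fun e => by
    have h1 : σ i ≠ 0 := fun e => hi (e ▸ dvd_zero p)
    have h2 := MvPolynomial.coeff_pderiv (i := i) P (σ - Finsupp.single i 1)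
    rw [e, tsub_add_cancel_of_le (Finsupp.single_le_iff.2 (by omega))] at h2
    rcases mul_eq_zero.1 h2.symm with h3 | h3
    · exact MvPolynomial.mem_support_iff.1 hσ h3
    · apply hi
      rw [← CharP.cast_eq_zero_iff k p, ← h3, ← Nat.cast_add_one]
      congr 1
      simp; omega
  obtain ⟨m, hm, hd⟩ := exists_mem_eq_sup _ (MvPolynomial.support_nonempty.2 hne)
    fun s : ι →₀ ℕ => s.sum fun _ e => e
  have h1 := hmin' _ hne h0
  have h2 : m + Finsupp.single i 1 ∈ P.support := by
    rw [MvPolynomial.mem_support_iff] at hm ⊢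
    rw [MvPolynomial.coeff_pderiv] at hm
    exact left_ne_zero_of_mul hm
  have h3 := MvPolynomial.le_totalDegree h2
  rw [Finsupp.sum_add_index' (by simp) (by simp), Finsupp.sum_single_index rfl] at h3
  rw [MvPolynomial.totalDegree.eq_1 (MvPolynomial.pderiv i P), hd] at h1
  omega

omit h in
lemma dep3 (s : Set F) (hs : s.encard ≤ 2) (x : Fin 3 → F)
    (hx : ∀ i, IsAlgebraic (Algebra.adjoin k s) (x i)) : ¬ AlgebraicIndependent k x := fun hi => by
  have h1 : (AlgebraicIndependent.matroid k F).Indep (Set.range x) := hi.to_subtype_range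
  have h2 := h1.encard_le_eRk_of_subset (X := (AlgebraicIndependent.matroid k F).closure s) (by
    rintro _ ⟨i, rfl⟩
    rw [AlgebraicIndependent.matroid_closure_eq]
    exact hx i)
  rw [Matroid.eRk_closure_eq] at h2
  have := hi.injective.encard_range.trans (h2.trans ((Matroid.eRk_le_encard _ _).trans hs))
  simp at this
  exact absurd this (by decide)

/-- In transcendence degree one over `k(θ)` the derivatives lie on an affine line. -/
theorem rel [Fintype k] (z : F) {ι : Type} (y : ι → F) (hy : ∀ i, y i ∈ W)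
    (ha : ∀ i, IsAlgebraic (Algebra.adjoin k (Set.range ![θ, z])) (y i)) :
    ∃ (w z' : ι → F) (η : F), (∀ i, IsAlgebraic (Algebra.adjoin k (Set.range ![θ, z])) (w i)) ∧
      (∀ i, IsAlgebraic (Algebra.adjoin k (Set.range ![θ, z])) (z' i)) ∧
      ∀ i, D (y i) = w i + η * z' i := by
  classical
  set R := Algebra.adjoin k (Set.range ![θ, z]) with hR
  by_cases hall : ∀ i, IsAlgebraic R (D (y i))
  · exact ⟨_, 0, 0, hall, fun _ => isAlgebraic_zero, by simp⟩
  push Not at hall
  obtain ⟨i0, hi0⟩ := hall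
  have hθ : IsAlgebraic R θ := isAlgebraic_algebraMap (⟨θ, Algebra.subset_adjoin ⟨0, rfl⟩⟩ : R)
  have key : ∀ j, ∃ w z', IsAlgebraic R w ∧ IsAlgebraic R z' ∧ D (y j) = w + D (y i0) * z' := by
    intro j
    have hx : ∀ i, IsAlgebraic R (![θ, y i0, y j] i) := fun i => by fin_cases i <;> simp [*]
    obtain ⟨P, hP, i, hi⟩ := minrel _ (dep3 (Set.range ![θ, z]) (by
      simpa using Set.encard_image_le ![θ, z] Set.univ) _ hx)
    have hal : ∀ Q : MvPolynomial (Fin 3) k,
        IsAlgebraic R (MvPolynomial.aeval ![θ, y i0, y j] Q) := fun Q => by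
      induction Q using MvPolynomial.induction_on with
      | C c => simpa using isAlgebraic_algebraMap (A := F) (algebraMap k R c)
      | add P Q hP hQ => rw [map_add]; exact hP.add hQ
      | mul_X P j hP => rw [map_mul, MvPolynomial.aeval_X]; exact hP.mul (hx j)
    have hc := (h.chain ![θ, y i0, y j] (fun i => by fin_cases i <;> simp [h.th, hy]) P).2
    rw [hP, map_zero, Fin.sum_univ_three] at hc
    simp only [Matrix.cons_val_zero, Matrix.cons_val_one, Matrix.cons_val, h.d1, mul_one] at hc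
    set a := MvPolynomial.aeval ![θ, y i0, y j] (MvPolynomial.pderiv 0 P) with ha'
    set b := MvPolynomial.aeval ![θ, y i0, y j] (MvPolynomial.pderiv 1 P) with hb'
    set c := MvPolynomial.aeval ![θ, y i0, y j] (MvPolynomial.pderiv 2 P) with hc'
    have hc0 : c ≠ 0 := fun c0 => by
      have hb0 : b ≠ 0 := fun b0 => by
        have a0 : a = 0 := by simpa [b0, c0] using hc.symm
        fin_cases i
        exacts [hi a0, hi b0, hi c0]
      apply hi0
      rw [show D (y i0) = -a * b⁻¹ by field_simp; linear_combination -hc - D (y j) * c0]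
      exact (hal _).neg.mul (hal _).inv
    exact ⟨-a * c⁻¹, -b * c⁻¹, (hal _).neg.mul (hal _).inv, (hal _).neg.mul (hal _).inv, by
      field_simp; linear_combination -hc⟩
  choose w z' h1 h2 h3 using key
  exact ⟨w, z', _, h1, h2, h3⟩

end Dr

end Pool.Agent.CSU
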