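import Pool.Agent.Lib.MP_bf776f_nt.SU.St

/-! An ultrametric Hermite interpolation bound and a count of zeros. -/

namespace Pool.Agent.CSU

open Finset Polynomial

variable {F : Type} [NormedField F] [IsUltrametricDist F]

lemma nsub_le {a b : F} {ε : ℝ} (ha : ‖a‖ ≤ ε) (hb : ‖b‖ ≤ ε) : ‖a - b‖ ≤ ε := by
  rw [sub_eq_add_neg]
  exact (IsUltrametricDist.norm_add_le_max _ _).trans (max_le ha (by rwa [norm_neg]))

lemma nadd_le {a b : F} {ε : ℝ} (ha : ‖a‖ ≤ ε) (hb : ‖b‖ ≤ ε) : ‖a + b‖ ≤ ε :=
  (IsUltrametricDist.norm_add_le_max _ _).trans (max_le ha hb)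

/-- A polynomial of degree less than the number of nodes (those of `t ⊆ s` counted twice) which is
small at the nodes is small at `x`. -/
theorem herm {ι : Type} [DecidableEq ι] (c : ι → F) (x : F) (B : ι → ℝ) {ε : ℝ} (hε : 0 ≤ ε)
    (n : ℕ) : ∀ (s t : Finset ι) (G : F[X]), s.card + t.card = n → t ⊆ s → G.degree < n →
      (∀ i ∈ s, ∀ j ∈ s, i ≠ j → 1 ≤ ‖c i - c j‖) → (∀ i ∈ s, 1 ≤ B i ∧ ‖x - c i‖ ≤ B i) →
      (∀ i ∈ s, ‖G.eval (c i)‖ ≤ ε) → (∀ i ∈ t, ‖(derivative G).eval (c i)‖ ≤ ε) →
      ‖G.eval x‖ ≤ ε * (∏ i ∈ s, B i) * ∏ i ∈ t, B i := by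
  induction n with
  | zero =>
    intro s t G hn _ hG _ _ _ _
    have : G = 0 := by simpa using hG
    rw [card_eq_zero.1 (show s.card = 0 by omega), card_eq_zero.1 (show t.card = 0 by omega), this]
    simpa
  | succ n ih =>
    intro s t G hn hts hG hc hB h0 h1
    have key : ∀ i ∈ s, ∀ s' t' : Finset ι, s'.card + t'.card = n → t' ⊆ s' → s' ⊆ s → t' ⊆ t →
        i ∉ t' → (i ∈ s' → i ∈ t) →
        ‖G.eval x‖ ≤ ε * (∏ i ∈ s', B i) * (∏ i ∈ t', B i) * B i := by
      intro i hi s' t' hn' hts' hs' ht' hit his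
      obtain ⟨H, hH⟩ : X - C (c i) ∣ G - C (G.eval (c i)) := X_sub_C_dvd_sub_C_eval
      have e0 : ∀ y, G.eval y = G.eval (c i) + (y - c i) * H.eval y := fun y => by
        have := congrArg (eval y) hH
        simp only [eval_sub, eval_C, eval_mul, eval_X] at this
        linear_combination this
      have e1 : ∀ y, (derivative G).eval y = H.eval y + (y - c i) * (derivative H).eval y :=
        fun y => by simpa using congrArg (fun P => eval y (derivative P)) hH
      have dv : ∀ j ∈ s, j ≠ i → ∀ a : F, ‖(c j - c i) * a‖ ≤ ε → ‖a‖ ≤ ε := fun j hj hne a h =>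
        le_trans (by rw [norm_mul]; exact le_mul_of_one_le_left (norm_nonneg _) (hc j hj i hi hne))
          h
      have v0 : ∀ j ∈ s', ‖H.eval (c j)‖ ≤ ε := fun j hj => by
        by_cases e : j = i
        · subst e; simpa [e1] using h1 j (his hj)
        · refine dv j (hs' hj) e _ ?_
          rw [show (c j - c i) * H.eval (c j) = G.eval (c j) - G.eval (c i) by rw [e0 (c j)]; ring]
          exact nsub_le (h0 j (hs' hj)) (h0 i hi)
      have hdeg : H.degree < n := by
        by_cases hH0 : H = 0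
        · simp [hH0]
        have h2 : (G - C (G.eval (c i))).degree < (n + 1 : ℕ) :=
          (degree_sub_le _ _).trans_lt (max_lt hG (degree_C_le.trans_lt (by norm_cast; omega)))
        rw [hH, degree_mul, degree_X_sub_C, degree_eq_natDegree hH0] at h2
        rw [degree_eq_natDegree hH0]
        norm_cast at h2 ⊢
        omega
      have := ih s' t' H hn' hts' hdeg (fun a ha b hb => hc a (hs' ha) b (hs' hb))
        (fun a ha => hB a (hs' ha)) v0 fun j hj => by
          have e : j ≠ i := fun e => hit (e ▸ hj)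
          refine dv j (hs' (hts' hj)) e _ ?_
          rw [show (c j - c i) * (derivative H).eval (c j) =
            (derivative G).eval (c j) - H.eval (c j) by rw [e1 (c j)]; ring]
          exact nsub_le (h1 j (ht' hj)) (v0 j (hts' hj))
      have p1 : 1 ≤ ∏ i ∈ s', B i := one_le_prod fun j hj => (hB j (hs' hj)).1
      have p2 : 1 ≤ ∏ i ∈ t', B i := one_le_prod fun j hj => (hB j (hs' (hts' hj))).1
      have p3 := (hB i hi).1
      rw [e0 x]
      refine nadd_le ((h0 i hi).trans ?_) ?_
      · rw [mul_assoc, mul_assoc]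
        exact le_mul_of_one_le_right hε
          (one_le_mul_of_one_le_of_one_le p1 (one_le_mul_of_one_le_of_one_le p2 p3))
      · rw [norm_mul, mul_comm]
        exact mul_le_mul this (hB i hi).2 (norm_nonneg _) (by positivity)
    rcases t.eq_empty_or_nonempty with rfl | ⟨i, hi⟩
    · obtain ⟨i, hi⟩ : s.Nonempty := card_pos.1 (by simp at hn; omega)
      have := key i hi (s.erase i) ∅ (by rw [card_erase_of_mem hi]; simp at hn ⊢; omega)
        (empty_subset _) (erase_subset _ _) Subset.rfl (notMem_empty _) (by simp)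
      rw [← prod_erase_mul s B hi]
      simpa [mul_assoc] using this
    · have := key i (hts hi) s (t.erase i)
        (by rw [card_erase_of_mem hi]; have := card_pos.2 ⟨i, hi⟩; omega)
        ((erase_subset _ _).trans hts) Subset.rfl (erase_subset _ _) (by simp) fun _ => hi
      rwa [← prod_erase_mul t B hi, ← mul_assoc]

theorem int : IntS := by
  intro F _ _ c s t G y ε hts hε hc hG h0 h1 r hr
  refine (herm c y r hε _ s t G rfl hts hG hc hr h0 h1).trans ?_
  rw [prod_pow, sq, ← mul_assoc]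
  exact mul_le_mul_of_nonneg_left (prod_le_prod_of_subset_of_one_le hts
    (fun i hi => zero_le_one.trans (hr i (hts hi)).1) fun i hi _ => (hr i hi).1)
    (mul_nonneg hε (prod_nonneg fun i hi => zero_le_one.trans (hr i hi).1))

/-- Counting zeros with multiplicities. -/
theorem zeros_le {K ι : Type} [Field K] (s : Finset ι) (c : ι → K) (m : ι → ℕ)
    (hc : ∀ i ∈ s, ∀ j ∈ s, i ≠ j → c i ≠ c j) {P : K[X]} (hP : P ≠ 0)
    (h : ∀ i ∈ s, (X - C (c i)) ^ m i ∣ P) : ∑ i ∈ s, m i ≤ P.natDegree := by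
  have hd : ∏ i ∈ s, (X - C (c i)) ^ m i ∣ P := Finset.prod_dvd_of_coprime
    (fun i hi j hj hne => (isCoprime_X_sub_C_of_isUnit_sub
      (sub_ne_zero.2 (hc i hi j hj hne)).isUnit).pow) h
  have := natDegree_le_of_dvd hd hP
  rw [natDegree_prod_of_monic _ _ fun i _ => (monic_X_sub_C _).pow _] at this
  simpa [natDegree_pow] using this

end Pool.Agent.CSU
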