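import Pool.Agent.Lib.MP_bf776f_nt.SU.ZE1
import Pool.Agent.Lib.MP_bf776f_nt.SU.Der
import Pool.Agent.Lib.MP_bf776f_nt.SU.Int

/-! The zero estimates for three and for two points. -/

namespace Pool.Agent.CSU

open Polynomial Finset Matrix

lemma rows {F : Type} [Field F] {n q e : ℕ} {θ : F} {σ : F →+* F} {x : Fin n → F}
    {V V' w z : ℕ → ℕ → Fin n → F} {η : ℕ → F} (hJ : Jet q θ x e V V' w z η) (hq : q ≠ 0)
    (hσ : ∀ y, σ y = y ^ q) {B : Option (Fin n) → F[X]} (hB : B ≠ 0) {D P μ : ℕ} (hn : n ≤ P)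
    (hD : ∀ o, (B o).degree < D)
    (hc : ∀ j < P, Cond B (θ ^ q ^ j) (V (e + P) j) (w (e + P) j) (z (e + P) j))
    (hz : ∀ a, 1 ≤ a → a ≤ μ → rv ((tw σ)^[a] B) θ 1 (V (e + P + a) 0) = 0) :
    ∃ (ρ : ℕ → Option (Fin n) → F[X]) (T : ℕ), μ + P + e ≤ T ∧ ρ 0 ≠ 0 ∧
      (∀ a < n, tw σ (ρ a) = trA q θ x T (ρ (a + 1))) ∧
      (∀ a ≤ n, ∀ o, (ρ a o).natDegree ≤ D + n) ∧
      (∀ j, μ + n ≤ j → j < μ + P → ∀ a ≤ n, Cond (ρ a) (θ ^ q ^ j) (V T j) (w T j) (z T j)) ∧
      ∀ j, n ≤ j → j < μ + n → ∀ a ≤ n, rv (ρ a) (θ ^ q ^ j) 1 (V T j) = 0 := by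
  have hC : ∀ a j, μ + a ≤ j → j < μ + a + P → Cond ((tw σ)^[μ + a] B) (θ ^ q ^ j)
      (V (e + P + (μ + a)) j) (w (e + P + (μ + a)) j) (z (e + P + (μ + a)) j) := fun a j h1 h2 => by
    have := hJ.cond_twN hσ (m := e + P) (j := j - (μ + a)) (by omega) (hc _ (by omega)) (μ + a)
    rwa [Nat.sub_add_cancel h1] at this
  refine ⟨fun a => trN q θ x (e + P + (μ + a)) ((tw σ)^[μ + a] B) (n - a), e + P + μ + n,
    by omega, trN_ne (twN_ne hB _) _ _, fun a ha => ?_, fun a ha o => ?_,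
    fun j h1 h2 a ha => ?_, fun j h1 h2 a ha => ?_⟩
  · simp only []
    rw [tw_trN hσ, show n - a = n - (a + 1) + 1 by omega, trN, ← add_assoc μ,
      Function.iterate_succ_apply', ← add_assoc _ (μ + a)]
    congr 1
    omega
  · refine natDegree_le_of_degree_le ?_
    cases o with
    | none =>
      refine (trN_deg hq _ _ D (by rw [twN_deg]; exact hD _)
        (fun i _ => by rw [twN_deg]; exact hD _) _).le.trans ?_
      exact_mod_cast (by omega : D + (n - a) ≤ D + n)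
    | some i =>
      simp only [trN_some, twN_deg]
      exact (hD _).le.trans (by exact_mod_cast Nat.le_add_right D n)
  · have := hJ.cond_trN (by omega) (hC a j (by omega) (by omega)) (n - a)
    rwa [show e + P + (μ + a) + (n - a) = e + P + μ + n by omega] at this
  · have := hJ.val_trN (m := e + P + (μ + a)) (j := j) (by omega) ((tw σ)^[μ + a] B) (n - a)
    rw [show e + P + (μ + a) + (n - a) = e + P + μ + n by omega] at this
    refine this.trans (mul_eq_zero_of_right _ ?_)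
    by_cases h : μ + a ≤ j
    · exact (hC a j h (by omega)).1
    · have := hJ.val_twN hσ (m := e + P + (μ + a - j)) (j := 0) (R := (tw σ)^[μ + a - j] B)
        (by omega) (by rw [pow_zero, pow_one]; exact hz _ (by omega) (by omega)) j
      rwa [← Function.iterate_add_apply, zero_add, show j + (μ + a - j) = μ + a by omega,
        show e + P + (μ + a - j) + j = e + P + (μ + a) by omega] at this

variable {k F : Type} [Field k] [Fintype k] [NormedField F] [IsUltrametricDist F] [Algebra k F]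
  {θ : F}

lemma count (hθ : 1 < ‖θ‖) {q : ℕ} (hq : 2 ≤ q) {p : F[X]} (hp : p ≠ 0) {n μ P κ ε : ℕ}
    (hn : n ≤ P) (h1 : ∀ j, n ≤ j → j < μ + n → (X - C (θ ^ q ^ j)) ^ ε ∣ p)
    (h2 : ∀ j, μ + n ≤ j → j < μ + P → (X - C (θ ^ q ^ j)) ^ κ ∣ p) :
    μ * ε + (P - n) * κ ≤ p.natDegree := by
  have := zeros_le (Ico n (μ + P)) (fun j => θ ^ q ^ j) (fun j => if j < μ + n then ε else κ)
    (fun i _ j _ hij h => by
      have := one_le_c_sub hθ hq hij
      rw [show θ ^ q ^ i = θ ^ q ^ j from h, sub_self, norm_zero] at this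
      linarith) hp
    (fun j hj => by
      rw [mem_Ico] at hj
      split_ifs with h
      · exact h1 j hj.1 h
      · exact h2 j (by omega) hj.2)
  rw [← sum_Ico_consecutive _ (show n ≤ μ + n by omega) (show μ + n ≤ μ + P by omega),
    sum_congr rfl fun j hj => if_pos (mem_Ico.1 hj).2,
    sum_congr rfl fun j hj => if_neg (not_lt.2 (mem_Ico.1 hj).1)] at this
  simpa [Nat.add_sub_add_left] using this

theorem zev : ZEVS := by
  intro k F _ _ _ _ _ θ σ x e V V' w z η hθ hσ hJ hNT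
  have hq : 2 ≤ Fintype.card k := Fintype.one_lt_card
  refine ⟨10, fun L hL B hB hD hc μ hz => ?_⟩
  obtain ⟨ρ, T, -, h0, hρ, hd, h2, h1⟩ := rows hJ (by omega) hσ hB (by omega) hD hc hz
  have key : ∀ p : F[X], p ≠ 0 → Pr1 ρ p → μ * 1 + (51 * L - 2) * 2 ≤ p.natDegree :=
    fun p hp h => count hθ hq hp (by omega)
      (fun j a b => h _ _ (w T j) _ fun i hi => dvd_Y1 _ (h1 j a b i hi))
      fun j a b => h _ _ _ _ fun i hi => (h2 j a b i hi).dvd_Y1
  rcases exP hσ hNT ρ h0 hρ hd with ⟨p, hp, a, b, -⟩ | ⟨r, hr, ⟨p, hp, a, b⟩, -⟩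
  · have := key p hp b
    omega
  · have := (key p hp b).trans (a.trans (Nat.mul_le_mul_right _ hr))
    omega

theorem zeh : ZEHS := by
  intro k F _ _ _ _ _ θ σ x e V V' w z η hθ hσ hJ hNT hγ
  have hq : 2 ≤ Fintype.card k := Fintype.one_lt_card
  refine ⟨21, fun L hL B hB hD hc μ hz => ?_⟩
  obtain ⟨ρ, T, hT, h0, hρ, hd, h2, h1⟩ := rows hJ (by omega) hσ hB (by omega) hD hc hz
  have hnp := jet_ind (e := e) (fun m j => ∀ γ : Fin 3 → k[X], γ ≠ 0 → ∃ a b,
      aeval (θ ^ Fintype.card k ^ j) (γ a) * z m j b ≠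
        aeval (θ ^ Fintype.card k ^ j) (γ b) * z m j a)
    (by simpa using hγ)
    (fun m hm ih γ h => by
      obtain ⟨a, b, hab⟩ := ih γ h
      refine ⟨a, b, fun h' => hab (mul_left_cancel₀ (a := θ ^ Fintype.card k ^ 0 -
        θ ^ Fintype.card k ^ m) (fun h0 => ?_) ?_)⟩
      · have := one_le_c_sub hθ hq (a := 0) (b := m) (by have := hJ.e1; omega)
        rw [h0, norm_zero] at this
        linarith
      · rw [hJ.zrec m 0 _ (by omega), hJ.zrec m 0 _ (by omega)] at h'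
        linear_combination h')
    (fun m j hj ih γ h => by
      obtain ⟨a, b, hab⟩ := ih γ h
      have hs : ∀ g : k[X], aeval (θ ^ Fintype.card k ^ (j + 1)) g =
          σ (aeval (θ ^ Fintype.card k ^ j) g) := fun g => by
        rw [← sig_c hσ, ← eval_map_algebraMap, ← eval_map_algebraMap, ← map_fix hσ g,
          eval_map_apply, map_fix hσ]
      refine ⟨a, b, fun h' => hab (σ.injective ?_)⟩
      rwa [hJ.ztw m j _ hj, hJ.ztw m j _ hj, hs, hs, ← hσ, ← hσ, ← map_mul, ← map_mul] at h')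
  have k1 : ∀ p : F[X], Pr1 ρ p → ∀ j, 3 ≤ j → j < μ + 3 →
      (X - C (θ ^ Fintype.card k ^ j)) ^ 1 ∣ p :=
    fun p h j a b => h _ _ (w T j) _ fun i hi => dvd_Y1 _ (h1 j a b i hi)
  have k3 : ∀ p : F[X], Pr3 k ρ p → ∀ j, μ + 3 ≤ j → j < μ + 68 * L →
      (X - C (θ ^ Fintype.card k ^ j)) ^ 3 ∣ p := fun p h j a b => by
    refine h _ (V T j) (w T j) (z T j) (fun g hg h0 => ?_) (fun h0 => ?_) (hnp j T (by omega))
      (h2 j a b)
    · have h3 : 1 < ‖θ ^ Fintype.card k ^ j‖ := by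
        rw [norm_pow]; exact one_lt_pow₀ hθ (by positivity)
      have := norm_aeval (k := k) norm_fin h3 hg
      rw [h0, norm_zero] at this
      exact absurd this (by positivity)
    · obtain ⟨a, b, hab⟩ := hnp j T (by omega) 1 one_ne_zero
      simp [h0] at hab
  rcases exP hσ hNT ρ h0 hρ hd with ⟨p, hp, a, b, c⟩ | ⟨r, hr, ⟨p, hp, a, b⟩, h3⟩
  · have := count hθ hq hp (by omega) (k1 p b) (k3 p c)
    omega
  · rcases hr.lt_or_eq with h | h
    · have := (count (κ := 2) hθ hq hp (P := 68 * L) (by omega) (k1 p b)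
        fun j a' b' => b _ _ _ _ fun i hi => (h2 j a' b' i hi).dvd_Y1).trans
        (a.trans (Nat.mul_le_mul_right _ (Nat.le_of_lt_succ h)))
      omega
    · obtain ⟨p, hp, a, c⟩ := h3 h
      have := count (ε := 0) hθ hq hp (by omega) (fun _ _ _ => by simp) (k3 p c)
      omega

end Pool.Agent.CSU
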