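import Pool.Agent.Lib.MP_bf776f_nt.SU.St

/-! Analysis of the Carlitz exponential and of its generating functions. -/

namespace Pool.Agent.CSU

open Finset Filter

/-- `z ↦ z ^ q` is a ring endomorphism and `q > 1`. -/
structure Fr (q : ℕ) (F : Type) [Field F] : Prop where
  lt : 1 < q
  ex : ∃ σ : F →+* F, ∀ z, σ z = z ^ q

theorem fr (k F : Type) [Field k] [Fintype k] [Field F] [Algebra k F] : Fr (Fintype.card k) F :=
  ⟨Fintype.one_lt_card, (FiniteField.frobeniusAlgHom k F).toRingHom, fun _ => rfl⟩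

theorem fix_k {k F : Type} [Field k] [Fintype k] [Field F] [Algebra k F] (c : k) :
    algebraMap k F c ^ Fintype.card k = algebraMap k F c := by
  rw [← map_pow, FiniteField.pow_card]

namespace Fr

variable {F : Type} {q : ℕ}

theorem exm [Field F] (h : Fr q F) (m : ℕ) : ∃ σ : F →+* F, ∀ z, σ z = z ^ q ^ m := by
  obtain ⟨σ, hσ⟩ := h.ex
  induction m with
  | zero => exact ⟨RingHom.id F, fun z => by simp⟩
  | succ m ih =>
    obtain ⟨τ, hτ⟩ := ih
    exact ⟨σ.comp τ, fun z => by rw [RingHom.comp_apply, hτ, hσ, ← pow_mul, pow_succ]⟩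

theorem add_pow [Field F] (h : Fr q F) (m : ℕ) (a b : F) :
    (a + b) ^ q ^ m = a ^ q ^ m + b ^ q ^ m := by
  obtain ⟨σ, hσ⟩ := h.exm m
  rw [← hσ, ← hσ, ← hσ, map_add]

theorem sub_pow [Field F] (h : Fr q F) (m : ℕ) (a b : F) :
    (a - b) ^ q ^ m = a ^ q ^ m - b ^ q ^ m := by
  obtain ⟨σ, hσ⟩ := h.exm m
  rw [← hσ, ← hσ, ← hσ, map_sub]

theorem fix_pow [Field F] {c : F} (hc : c ^ q = c) (m : ℕ) : c ^ q ^ m = c := by
  induction m with
  | zero => simp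
  | succ m ih => rw [pow_succ, pow_mul, ih, hc]

variable [NormedField F]

theorem hasSum_pow (h : Fr q F) (m : ℕ) {f : ℕ → F} {s : F} (hs : HasSum f s) :
    HasSum (fun i => f i ^ q ^ m) (s ^ q ^ m) := by
  obtain ⟨σ, hσ⟩ := h.exm m
  have hc : Continuous σ := by
    rw [show (σ : F → F) = fun z => z ^ q ^ m from funext hσ]
    exact continuous_pow _
  simpa only [Function.comp_def, hσ] using hs.map σ hc

theorem cD_succ (h : Fr q F) (θ : F) (i m : ℕ) :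
    cD q θ (i + 1) ^ q ^ m = (θ ^ q ^ (i + 1 + m) - θ ^ q ^ m) * cD q θ i ^ q ^ (m + 1) := by
  unfold cD
  rw [prod_range_succ', mul_pow, mul_comm, h.sub_pow, ← prod_pow, ← prod_pow]
  congr 1
  · simp only [← pow_mul, ← pow_add, zero_add]
  · refine prod_congr rfl fun l _ => ?_
    simp only [h.sub_pow, ← pow_mul, ← pow_add]
    rw [show i + 1 + m = i + (m + 1) by ring, show l + 1 + m = l + (m + 1) by ring]

variable [IsUltrametricDist F] {θ : F}

theorem norm_sub (h : Fr q F) (hθ : 1 < ‖θ‖) {a b : ℕ} (hab : b < a) :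
    ‖θ ^ q ^ a - θ ^ q ^ b‖ = ‖θ‖ ^ q ^ a := by
  have h1 : ‖θ‖ ^ q ^ b < ‖θ‖ ^ q ^ a := pow_lt_pow_right₀ hθ (Nat.pow_lt_pow_right h.lt hab)
  rw [sub_eq_add_neg, IsUltrametricDist.norm_add_eq_max_of_norm_ne_norm, norm_neg, norm_pow,
    norm_pow, max_eq_left h1.le]
  rw [norm_neg, norm_pow, norm_pow]
  exact h1.ne'

theorem one_le_sub (h : Fr q F) (hθ : 1 < ‖θ‖) {a b : ℕ} (hab : b < a) :
    1 ≤ ‖θ ^ q ^ a - θ ^ q ^ b‖ := by
  rw [h.norm_sub hθ hab]; exact one_le_pow₀ hθ.le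

theorem sub_ne (h : Fr q F) (hθ : 1 < ‖θ‖) {a b : ℕ} (hab : b < a) :
    θ ^ q ^ a - θ ^ q ^ b ≠ 0 :=
  norm_pos_iff.1 (one_pos.trans_le (h.one_le_sub hθ hab))

theorem norm_cD (h : Fr q F) (hθ : 1 < ‖θ‖) (i : ℕ) : ‖cD q θ i‖ = ‖θ‖ ^ (i * q ^ i) := by
  unfold cD
  rw [norm_prod, prod_congr rfl fun l hl => h.norm_sub hθ (mem_range.1 hl), prod_const,
    card_range, ← pow_mul, mul_comm]

theorem cD_ne (h : Fr q F) (hθ : 1 < ‖θ‖) (i : ℕ) : cD q θ i ≠ 0 :=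
  norm_pos_iff.1 (by rw [h.norm_cD hθ]; positivity)

end Fr

variable {F : Type} {q : ℕ} [NormedField F]

/-- The twisted terms of the exponential series. -/
noncomputable def cT (q : ℕ) (θ u : F) (m i : ℕ) : F := u ^ q ^ (i + m) / cD q θ i ^ q ^ m

theorem cT_eq (θ u : F) (m i : ℕ) : cT q θ u m i = (u ^ q ^ i / cD q θ i) ^ q ^ m := by
  rw [cT, div_pow, ← pow_mul, ← pow_add]

theorem cT_mul (θ c u : F) (m i : ℕ) : cT q θ (c * u) m i = c ^ q ^ (i + m) * cT q θ u m i := by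
  rw [cT, cT, mul_pow, mul_div_assoc]

theorem cE_eq (θ u : F) : cE q θ u = ∑' i, cT q θ u 0 i := by
  simp only [cE, cT_eq, pow_zero, pow_one]

theorem phi_eq (θ u : F) (m j : ℕ) :
    phi q θ u m j = ∑' i, cT q θ u m i / (θ ^ q ^ (i + m) - θ ^ q ^ j) := by
  simp only [phi, cT, div_div]

theorem phi'_eq (θ u : F) (m j : ℕ) :
    phi' q θ u m j = ∑' i, cT q θ u m i / (θ ^ q ^ (i + m) - θ ^ q ^ j) ^ 2 := by
  simp only [phi', cT, div_div]

namespace Fr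

theorem cT_add (h : Fr q F) (θ u v : F) (m i : ℕ) :
    cT q θ (u + v) m i = cT q θ u m i + cT q θ v m i := by
  rw [cT, cT, cT, h.add_pow, add_div]

theorem cT_pow (θ u : F) (m i : ℕ) : cT q θ u (m + 1) i = cT q θ u m i ^ q := by
  rw [cT_eq, cT_eq, ← pow_mul, pow_succ]

variable [IsUltrametricDist F] {θ : F}

theorem cT_succ (h : Fr q F) (hθ : 1 < ‖θ‖) (u : F) (m i : ℕ) :
    cT q θ u m (i + 1) * (θ ^ q ^ (i + 1 + m) - θ ^ q ^ m) = cT q θ u (m + 1) i := by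
  have h1 := h.sub_ne hθ (show m < i + 1 + m by omega)
  rw [cT, cT, h.cD_succ, show i + (m + 1) = i + 1 + m by ring, div_mul_eq_mul_div, mul_comm,
    mul_div_mul_left _ _ h1]

theorem norm_cT (h : Fr q F) (hθ : 1 < ‖θ‖) (u : F) (m i : ℕ) :
    ‖cT q θ u m i‖ = (‖u‖ * ‖θ‖⁻¹ ^ i) ^ q ^ (i + m) := by
  rw [cT_eq, norm_pow, norm_div, norm_pow, h.norm_cD hθ, pow_mul, ← div_pow, ← pow_mul,
    ← pow_add, inv_pow, div_eq_mul_inv]

variable [CompleteSpace F]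

theorem summ (h : Fr q F) (hθ : 1 < ‖θ‖) (u : F) (m : ℕ) (b : ℕ → F) (hb : ∀ i, 1 ≤ ‖b i‖) :
    Summable fun i => cT q θ u m i / b i := by
  have h0 : Summable fun i : ℕ => ‖u‖ * ‖θ‖⁻¹ ^ i :=
    (summable_geometric_of_lt_one (by positivity) (inv_lt_one_of_one_lt₀ hθ)).mul_left _
  refine Summable.of_norm_bounded_eventually_nat h0 ?_
  filter_upwards [h0.tendsto_atTop_zero.eventually_le_const one_pos] with i hi
  rw [norm_div, h.norm_cT hθ]
  refine (div_le_self (by positivity) (hb i)).trans ?_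
  exact pow_le_of_le_one (by positivity) hi (pow_pos (by have := h.lt; omega) _).ne'

theorem hs_cE (h : Fr q F) (hθ : 1 < ‖θ‖) (u : F) (m : ℕ) :
    HasSum (cT q θ u m) (cE q θ u ^ q ^ m) := by
  have h1 : Summable (cT q θ u 0) := by simpa using h.summ hθ u 0 (fun _ => 1) (by simp)
  have h2 := h.hasSum_pow m h1.hasSum
  rw [← cE_eq] at h2
  convert h2 using 2 with i
  simp only [cT_eq, pow_zero, pow_one]

theorem hs_cE0 (h : Fr q F) (hθ : 1 < ‖θ‖) (u : F) : HasSum (cT q θ u 0) (cE q θ u) := by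
  simpa using h.hs_cE hθ u 0

theorem hs_phi (h : Fr q F) (hθ : 1 < ‖θ‖) (u : F) {m j : ℕ} (hj : j < m) :
    HasSum (fun i => cT q θ u m i / (θ ^ q ^ (i + m) - θ ^ q ^ j)) (phi q θ u m j) := by
  rw [phi_eq]
  exact (h.summ hθ u m _ fun i => h.one_le_sub hθ (by omega)).hasSum

theorem hs_phi' (h : Fr q F) (hθ : 1 < ‖θ‖) (u : F) {m j : ℕ} (hj : j < m) :
    HasSum (fun i => cT q θ u m i / (θ ^ q ^ (i + m) - θ ^ q ^ j) ^ 2) (phi' q θ u m j) := by
  rw [phi'_eq]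
  exact (h.summ hθ u m _ fun i => by
    rw [norm_pow]; exact one_le_pow₀ (h.one_le_sub hθ (by omega))).hasSum

/-- The series defining `cE` converges. -/
theorem hasSum_cE (h : Fr q F) (hθ : 1 < ‖θ‖) (u : F) :
    HasSum (fun i => u ^ q ^ i / cD q θ i) (cE q θ u) := by
  have := h.hs_cE0 hθ u
  rwa [show cT q θ u 0 = fun i => u ^ q ^ i / cD q θ i from
    funext fun i => by simp only [cT_eq, pow_zero, pow_one]] at this

/-- The series defining `phi` converges. -/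
theorem hasSum_phi (h : Fr q F) (hθ : 1 < ‖θ‖) (u : F) {m j : ℕ} (hj : j < m) :
    HasSum (fun i => u ^ q ^ (i + m) / (cD q θ i ^ q ^ m * (θ ^ q ^ (i + m) - θ ^ q ^ j)))
      (phi q θ u m j) := by
  simpa only [cT, div_div] using h.hs_phi hθ u hj

/-- The series defining `phi'` converges. -/
theorem hasSum_phi' (h : Fr q F) (hθ : 1 < ‖θ‖) (u : F) {m j : ℕ} (hj : j < m) :
    HasSum (fun i => u ^ q ^ (i + m) / (cD q θ i ^ q ^ m * (θ ^ q ^ (i + m) - θ ^ q ^ j) ^ 2))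
      (phi' q θ u m j) := by
  simpa only [cT, div_div] using h.hs_phi' hθ u hj

omit [IsUltrametricDist F] [CompleteSpace F] in
theorem shift {f g : ℕ → F} {s t : F} (hf : HasSum f s) (hg : HasSum g t)
    (h1 : ∀ i, g (i + 1) = f i) : s = t - g 0 := by
  have h2 := (hasSum_nat_add_iff' 1).2 hg
  rw [sum_range_one, funext h1] at h2
  exact hf.unique h2

omit [IsUltrametricDist F] [CompleteSpace F] in
theorem uniq {f g : ℕ → F} {s t : F} (hf : HasSum f s) (hg : HasSum g t)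
    (h1 : ∀ i, f i = g i) : s = t :=
  hf.unique (by rwa [funext h1])

theorem cE_add (h : Fr q F) (hθ : 1 < ‖θ‖) (u v : F) :
    cE q θ (u + v) = cE q θ u + cE q θ v := by
  refine uniq (h.hs_cE0 hθ _) ((h.hs_cE0 hθ u).add (h.hs_cE0 hθ v)) fun i => ?_
  exact h.cT_add ..

theorem cE_fix (h : Fr q F) (hθ : 1 < ‖θ‖) {c : F} (hc : c ^ q = c) (u : F) :
    cE q θ (c * u) = c * cE q θ u := by
  refine uniq (h.hs_cE0 hθ _) ((h.hs_cE0 hθ u).mul_left c) fun i => ?_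
  rw [cT_mul, fix_pow hc]

theorem cE_zero (h : Fr q F) (hθ : 1 < ‖θ‖) : cE q θ 0 = 0 := by
  simpa using h.cE_fix hθ (zero_pow (by have := h.lt; omega)) 0

theorem cE_th (h : Fr q F) (hθ : 1 < ‖θ‖) (u : F) :
    cE q θ (θ * u) = θ * cE q θ u + cE q θ u ^ q := by
  have h1 := shift (h.hs_cE hθ u 1) ((h.hs_cE0 hθ (θ * u)).sub ((h.hs_cE0 hθ u).mul_left θ))
    fun i => by
      rw [cT_mul, ← h.cT_succ hθ u 0 i, pow_zero, pow_one]; ring
  rw [cT_mul] at h1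
  simp only [add_zero, pow_zero, pow_one, sub_self, sub_zero] at h1
  rw [h1]; ring

theorem phi_add (h : Fr q F) (hθ : 1 < ‖θ‖) (u v : F) {m j : ℕ} (hj : j < m) :
    phi q θ (u + v) m j = phi q θ u m j + phi q θ v m j := by
  refine uniq (h.hs_phi hθ _ hj) ((h.hs_phi hθ u hj).add (h.hs_phi hθ v hj)) fun i => ?_
  rw [h.cT_add, add_div]

theorem phi'_add (h : Fr q F) (hθ : 1 < ‖θ‖) (u v : F) {m j : ℕ} (hj : j < m) :
    phi' q θ (u + v) m j = phi' q θ u m j + phi' q θ v m j := by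
  refine uniq (h.hs_phi' hθ _ hj) ((h.hs_phi' hθ u hj).add (h.hs_phi' hθ v hj)) fun i => ?_
  rw [h.cT_add, add_div]

theorem phi_fix (h : Fr q F) (hθ : 1 < ‖θ‖) {c : F} (hc : c ^ q = c) (u : F) {m j : ℕ}
    (hj : j < m) : phi q θ (c * u) m j = c * phi q θ u m j := by
  refine uniq (h.hs_phi hθ _ hj) ((h.hs_phi hθ u hj).mul_left c) fun i => ?_
  rw [cT_mul, fix_pow hc, mul_div_assoc]

theorem phi'_fix (h : Fr q F) (hθ : 1 < ‖θ‖) {c : F} (hc : c ^ q = c) (u : F) {m j : ℕ}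
    (hj : j < m) : phi' q θ (c * u) m j = c * phi' q θ u m j := by
  refine uniq (h.hs_phi' hθ _ hj) ((h.hs_phi' hθ u hj).mul_left c) fun i => ?_
  rw [cT_mul, fix_pow hc, mul_div_assoc]

theorem phi_th (h : Fr q F) (hθ : 1 < ‖θ‖) (u : F) {m j : ℕ} (hj : j < m) :
    phi q θ (θ * u) m j = cE q θ u ^ q ^ m + θ ^ q ^ j * phi q θ u m j := by
  refine uniq (h.hs_phi hθ _ hj)
    ((h.hs_cE hθ u m).add ((h.hs_phi hθ u hj).mul_left (θ ^ q ^ j))) fun i => ?_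
  have := h.sub_ne hθ (show j < i + m by omega)
  rw [cT_mul]; field_simp; ring

theorem phi'_th (h : Fr q F) (hθ : 1 < ‖θ‖) (u : F) {m j : ℕ} (hj : j < m) :
    phi' q θ (θ * u) m j = phi q θ u m j + θ ^ q ^ j * phi' q θ u m j := by
  refine uniq (h.hs_phi' hθ _ hj)
    ((h.hs_phi hθ u hj).add ((h.hs_phi' hθ u hj).mul_left (θ ^ q ^ j))) fun i => ?_
  have := h.sub_ne hθ (show j < i + m by omega)
  rw [cT_mul]; field_simp; ring

theorem phi_one (h : Fr q F) (hθ : 1 < ‖θ‖) (u : F) : phi q θ u 1 0 = cE q θ u - u := by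
  have h1 := shift (h.hs_phi hθ u one_pos) (h.hs_cE0 hθ u) fun i => by
    exact (eq_div_iff (h.sub_ne hθ i.succ_pos)).2 (h.cT_succ hθ u 0 i)
  simpa [cT, cD] using h1

theorem phi_succ (h : Fr q F) (hθ : 1 < ‖θ‖) (u : F) {m j : ℕ} (hj : j < m) :
    phi q θ u (m + 1) j = (θ ^ q ^ j - θ ^ q ^ m) * phi q θ u m j + cE q θ u ^ q ^ m := by
  have h1 := shift (h.hs_phi hθ u (hj.trans m.lt_succ_self))
    (((h.hs_phi hθ u hj).mul_left (θ ^ q ^ j - θ ^ q ^ m)).add (h.hs_cE hθ u m)) fun i => by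
      have := h.sub_ne hθ (show j < i + 1 + m by omega)
      rw [← h.cT_succ hθ u m i, show i + (m + 1) = i + 1 + m by ring]; field_simp; ring
  have := h.sub_ne hθ hj
  rw [h1, zero_add, sub_eq_self]; field_simp; ring

theorem phi'_succ (h : Fr q F) (hθ : 1 < ‖θ‖) (u : F) {m j : ℕ} (hj : j < m) :
    phi' q θ u (m + 1) j = phi q θ u m j + (θ ^ q ^ j - θ ^ q ^ m) * phi' q θ u m j := by
  have h1 := shift (h.hs_phi' hθ u (hj.trans m.lt_succ_self))
    ((h.hs_phi hθ u hj).add ((h.hs_phi' hθ u hj).mul_left (θ ^ q ^ j - θ ^ q ^ m))) fun i => by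
      have := h.sub_ne hθ (show j < i + 1 + m by omega)
      rw [← h.cT_succ hθ u m i, show i + (m + 1) = i + 1 + m by ring]; field_simp; ring
  have := h.sub_ne hθ hj
  rw [h1, zero_add, sub_eq_self]; field_simp; ring

omit [IsUltrametricDist F] [CompleteSpace F] in
theorem sub_tw (h : Fr q F) (θ : F) (a b : ℕ) :
    θ ^ q ^ (a + 1) - θ ^ q ^ (b + 1) = (θ ^ q ^ a - θ ^ q ^ b) ^ q := by
  have := h.sub_pow 1 (θ ^ q ^ a) (θ ^ q ^ b)
  rw [pow_one] at this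
  rw [this, ← pow_mul, ← pow_mul, pow_succ, pow_succ]

theorem phi_tw (h : Fr q F) (hθ : 1 < ‖θ‖) (u : F) {m j : ℕ} (hj : j < m) :
    phi q θ u (m + 1) (j + 1) = phi q θ u m j ^ q := by
  have h1 := h.hasSum_pow 1 (h.hs_phi hθ u hj)
  rw [pow_one] at h1
  refine uniq (h.hs_phi hθ _ (Nat.add_lt_add_right hj 1)) h1 fun i => ?_
  rw [div_pow, cT_pow, ← add_assoc, h.sub_tw]

theorem phi'_tw (h : Fr q F) (hθ : 1 < ‖θ‖) (u : F) {m j : ℕ} (hj : j < m) :
    phi' q θ u (m + 1) (j + 1) = phi' q θ u m j ^ q := by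
  have h1 := h.hasSum_pow 1 (h.hs_phi' hθ u hj)
  rw [pow_one] at h1
  refine uniq (h.hs_phi' hθ _ (Nat.add_lt_add_right hj 1)) h1 fun i => ?_
  rw [div_pow, cT_pow, ← add_assoc, h.sub_tw, pow_right_comm]

omit [CompleteSpace F] in
theorem tsum_small (h : Fr q F) (hθ : 1 < ‖θ‖) {u : F} (hu : ‖u‖ ≤ 1) (m : ℕ) (b : ℕ → F)
    (hb : ∀ i, ‖θ‖ ^ q ^ m ≤ ‖b i‖) : ‖∑' i, cT q θ u m i / b i‖ * ‖θ‖ ^ q ^ m ≤ 1 := by
  have h0 : 0 < ‖θ‖ ^ q ^ m := by positivity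
  rw [← le_div_iff₀ h0]
  refine IsUltrametricDist.norm_tsum_le_of_forall_le_of_nonneg (by positivity) fun i => ?_
  rw [norm_div, h.norm_cT hθ]
  refine div_le_div₀ zero_le_one (pow_le_one₀ (by positivity) ?_) h0 (hb i)
  exact mul_le_one₀ hu (by positivity) (pow_le_one₀ (by positivity) (inv_le_one_of_one_le₀ hθ.le))

omit [CompleteSpace F] in
theorem phi_small (h : Fr q F) (hθ : 1 < ‖θ‖) {u : F} (hu : ‖u‖ ≤ 1) {m j : ℕ} (hj : j < m) :
    ‖phi q θ u m j‖ * ‖θ‖ ^ q ^ m ≤ 1 ∧ ‖phi' q θ u m j‖ * ‖θ‖ ^ q ^ m ≤ 1 := by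
  have h1 : ∀ i, ‖θ‖ ^ q ^ m ≤ ‖θ ^ q ^ (i + m) - θ ^ q ^ j‖ := fun i => by
    rw [h.norm_sub hθ (by omega)]
    exact pow_le_pow_right₀ hθ.le (Nat.pow_le_pow_right (by have := h.lt; omega) (by omega))
  rw [phi_eq, phi'_eq]
  refine ⟨h.tsum_small hθ hu m _ h1, h.tsum_small hθ hu m _ fun i => (h1 i).trans ?_⟩
  rw [norm_pow]
  exact le_self_pow₀ (h.one_le_sub hθ (by omega)) two_ne_zero

end Fr

section K

variable {k : Type} [Field k] [Fintype k] [Algebra k F] [IsUltrametricDist F] [CompleteSpace F]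
  {θ : F}

theorem cE_smul (hθ : 1 < ‖θ‖) (c : k) (u : F) :
    cE (Fintype.card k) θ (c • u) = c • cE (Fintype.card k) θ u := by
  simpa only [Algebra.smul_def] using (fr k F).cE_fix hθ (fix_k c) u

theorem phi_smul (hθ : 1 < ‖θ‖) (c : k) (u : F) {m j : ℕ} (hj : j < m) :
    phi (Fintype.card k) θ (c • u) m j = c • phi (Fintype.card k) θ u m j := by
  simpa only [Algebra.smul_def] using (fr k F).phi_fix hθ (fix_k c) u hj

theorem phi'_smul (hθ : 1 < ‖θ‖) (c : k) (u : F) {m j : ℕ} (hj : j < m) :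
    phi' (Fintype.card k) θ (c • u) m j = c • phi' (Fintype.card k) θ u m j := by
  simpa only [Algebra.smul_def] using (fr k F).phi'_fix hθ (fix_k c) u hj

variable (k)

/-- `cE` as a `k`-linear map. -/
noncomputable def cEL (hθ : 1 < ‖θ‖) : F →ₗ[k] F where
  toFun := cE (Fintype.card k) θ
  map_add' := (fr k F).cE_add hθ
  map_smul' := cE_smul hθ

/-- `phi` as a `k`-linear map. -/
noncomputable def phiL (hθ : 1 < ‖θ‖) {m j : ℕ} (hj : j < m) : F →ₗ[k] F where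
  toFun u := phi (Fintype.card k) θ u m j
  map_add' u v := (fr k F).phi_add hθ u v hj
  map_smul' c u := phi_smul hθ c u hj

/-- `phi'` as a `k`-linear map. -/
noncomputable def phiL' (hθ : 1 < ‖θ‖) {m j : ℕ} (hj : j < m) : F →ₗ[k] F where
  toFun u := phi' (Fintype.card k) θ u m j
  map_add' u v := (fr k F).phi'_add hθ u v hj
  map_smul' c u := phi'_smul hθ c u hj

end K

theorem an : AnS := fun k F _ _ _ _ _ _ _ u hθ =>
  ⟨(fr k F).phi_one hθ u, fun _ _ hj => ⟨(fr k F).phi_succ hθ u hj, (fr k F).phi'_succ hθ u hj,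
    (fr k F).phi_tw hθ u hj, (fr k F).phi'_tw hθ u hj, fun hu => (fr k F).phi_small hθ hu hj⟩⟩

end Pool.Agent.CSU
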