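import Pool.Agent.Lib.MP_bf776f_nt.SU.Row

/-! Algebra for the zero estimates. -/

namespace Pool.Agent.CSU

open Polynomial Finset Matrix

section Fix

variable {k F : Type} [Field k] [Fintype k] [Field F] [Algebra k F] {σ : F →+* F}

lemma fix_mem {c : F} (h : c ^ Fintype.card k = c) : c ∈ (algebraMap k F).range := by
  have hs : (X ^ Fintype.card k - X : k[X]).Splits := by
    rw [splits_iff_card_roots, FiniteField.roots_X_pow_card_sub_X,
      FiniteField.X_pow_card_sub_X_natDegree_eq _ Fintype.one_lt_card]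
    rfl
  refine hs.mem_range_of_isRoot (FiniteField.X_pow_card_sub_X_ne_zero k Fintype.one_lt_card) ?_
  simp [h]

lemma fix_poly (hσ : ∀ y, σ y = y ^ Fintype.card k) {p : F[X]} (h : p.map σ = p) :
    ∃ b : k[X], b.map (algebraMap k F) = p := by
  refine (mem_lifts p).1 ((lifts_iff_coeff_lifts p).2 fun n => fix_mem ?_)
  rw [← hσ, ← coeff_map, h]

lemma map_fix (hσ : ∀ y, σ y = y ^ Fintype.card k) (b : k[X]) :
    (b.map (algebraMap k F)).map σ = b.map (algebraMap k F) := by
  ext n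
  rw [coeff_map, coeff_map, hσ, ← map_pow, FiniteField.pow_card]

/-- Artin's trick. -/
lemma artin {ι : Type} [Fintype ι] (hσ : ∀ y, σ y = y ^ Fintype.card k) (N : (ι → F[X]) → Prop)
    (h1 : ∀ (c : F) v, N v → N (c • v)) (h2 : ∀ v w, N v → N w → N (v - w))
    (h3 : ∀ v, N v → N fun i => (v i).map σ) (h4 : ∃ v, N v ∧ v ≠ 0) :
    ∃ β : ι → k[X], β ≠ 0 ∧ N fun i => (β i).map (algebraMap k F) := by
  classical
  have hex : ∃ m, ∃ v, N v ∧ v ≠ 0 ∧ ∑ i, (v i).support.card = m :=
    let ⟨v, a, b⟩ := h4; ⟨_, v, a, b, rfl⟩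
  obtain ⟨v, hv, hv0, hm⟩ := Nat.find_spec hex
  obtain ⟨i, hi⟩ := Function.ne_iff.1 hv0
  have hl : (v i).leadingCoeff ≠ 0 := leadingCoeff_ne_zero.2 hi
  set u := (v i).leadingCoeff⁻¹ • v with hu
  have hs : ∀ j, (u j).support ⊆ (v j).support := fun j => support_smul _ _
  have h5 : (u i).coeff (v i).natDegree = 1 := by
    rw [hu, Pi.smul_apply, coeff_smul, smul_eq_mul]; exact inv_mul_cancel₀ hl
  have h6 : (fun j => (u j).map σ) - u = 0 := by
    by_contra hne
    refine Nat.find_min hex ?_ ⟨_, h2 _ _ (h3 _ (h1 _ _ hv)) (h1 _ _ hv), hne, rfl⟩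
    have hsub : ∀ j, ((u j).map σ - u j).support ⊆ (v j).support := fun j n hn => by
      by_contra h
      have : (u j).coeff n = 0 := notMem_support_iff.1 fun h' => h (hs j h')
      rw [mem_support_iff, coeff_sub, coeff_map, this, map_zero, sub_zero] at hn
      exact hn rfl
    rw [← hm]
    refine sum_lt_sum (fun j _ => card_le_card (hsub j)) ⟨i, mem_univ _, card_lt_card
      ((ssubset_iff_of_subset (hsub i)).2 ⟨(v i).natDegree, mem_support_iff.2 hl, ?_⟩)⟩
    rw [notMem_support_iff, coeff_sub, coeff_map, h5, map_one, sub_self]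
  choose β hβ using fun j => fix_poly hσ (sub_eq_zero.1 (congrFun h6 j))
  refine ⟨β, fun h => ?_, by simpa only [hβ] using h1 _ _ hv⟩
  rw [← hβ i, h] at h5
  simp at h5

/-- Clearing denominators in the twist equation. -/
lemma clear (hσ : ∀ y, σ y = y ^ Fintype.card k) {a g y : F[X]} {c : F} (ha : a ≠ 0)
    (h : a * g.map σ = (X - C c) * (a.map σ * g) - a * a.map σ * y) :
    ∃ (b : k[X]) (g' : F[X]), b ≠ 0 ∧ g'.map σ = (X - C c) * g' - b.map (algebraMap k F) * y := by
  classical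
  obtain ⟨a', g', e1, e2, hu⟩ := extract_gcd a g
  have hd : gcd a g ≠ 0 := fun h0 => ha (by rw [e1, h0, zero_mul])
  generalize gcd a g = d at *
  have ha' : a' ≠ 0 := fun h0 => ha (by rw [e1, h0, mul_zero])
  have hc : IsCoprime a' g' := (gcd_isUnit_iff _ _).1 hu
  have h' : a' * g'.map σ = (X - C c) * (a'.map σ * g') - a' * a'.map σ * y := by
    refine mul_left_cancel₀ (mul_ne_zero hd (Polynomial.map_ne_zero (f := σ) hd)) ?_
    rw [e1, e2, Polynomial.map_mul, Polynomial.map_mul] at h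
    linear_combination h
  have hdv : a'.map σ ∣ a' := by
    refine (hc.map (mapRingHom σ)).dvd_of_dvd_mul_right ?_
    exact ⟨(X - C c) * g' - a' * y, by simp only [coe_mapRingHom]; linear_combination h'⟩
  have hl : a'.leadingCoeff ≠ 0 := leadingCoeff_ne_zero.2 ha'
  have hm : (a' * C a'.leadingCoeff⁻¹).Monic := monic_mul_leadingCoeff_inv ha'
  have hf : (a' * C a'.leadingCoeff⁻¹).map σ = a' * C a'.leadingCoeff⁻¹ := by
    refine (eq_of_monic_of_dvd_of_natDegree_le (hm.map σ) hm ?_ (natDegree_map σ).ge).symm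
    rw [Polynomial.map_mul, map_C]
    exact (isUnit_C.2 (Ne.isUnit (by simpa using ha'))).mul_right_dvd.2 (hdv.mul_right _)
  obtain ⟨b, hb⟩ := fix_poly hσ hf
  refine ⟨b, g' * C a'.leadingCoeff⁻¹, fun h0 => hm.ne_zero (by rw [← hb, h0, Polynomial.map_zero]),
    mul_left_cancel₀ hm.ne_zero ?_⟩
  rw [hb]
  rw [Polynomial.map_mul] at hf ⊢
  linear_combination (C a'.leadingCoeff⁻¹ * (C a'.leadingCoeff⁻¹).map σ) * h' +
    ((X - C c) * g' * C a'.leadingCoeff⁻¹ - a' * C a'.leadingCoeff⁻¹ * y) * hf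

end Fix

section Lin

variable {R O : Type} [CommRing R] [IsDomain R]

lemma minor {r : ℕ} (v : Fin r → O → R) (hv : LinearIndependent R v) :
    ∃ f : Fin r → O, (Matrix.of fun a b => v a (f b)).det ≠ 0 := by
  induction r with
  | zero => exact ⟨Fin.elim0, by simp⟩
  | succ r ih =>
    obtain ⟨f, hf⟩ := ih _ (hv.comp _ (Fin.succ_injective r))
    by_contra hn
    push Not at hn
    have := Fintype.linearIndependent_iff.1 hv (fun i => (-1) ^ (i : ℕ) *
      (Matrix.of fun a b => v (i.succAbove a) (f b)).det) (funext fun o => by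
        have := hn (Fin.cons o f)
        rw [det_succ_column_zero] at this
        rw [Finset.sum_apply, Pi.zero_apply, ← this]
        refine sum_congr rfl fun i _ => ?_
        rw [Pi.smul_apply, smul_eq_mul, mul_right_comm]
        rfl) 0
    exact hf (by simpa using this)

lemma indep_of_det {r : ℕ} (v : Fin r → O → R) (f : Fin r → O)
    (h : (Matrix.of fun a b => v a (f b)).det ≠ 0) : LinearIndependent R v := by
  refine Fintype.linearIndependent_iff.2 fun s hs => congrFun (by_contra fun h0 => h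
    (exists_vecMul_eq_zero_iff.1 ⟨s, h0, funext fun b => ?_⟩))
  simpa [vecMul, dotProduct] using congrFun hs (f b)

lemma cramer' {r : ℕ} (v : Fin r → O → R) (f : Fin r → O) {y : O → R} {a : R} (ha : a ≠ 0)
    {s : Fin r → R} (h : a • y = ∑ b, s b • v b) :
    ∃ t : Fin r → R, (Matrix.of fun a b => v a (f b)).det • y = ∑ b, t b • v b := by
  set M := Matrix.of fun a b => v a (f b) with hM
  have h1 : a • (fun b => y (f b)) = s ᵥ* M := funext fun b => by
    simpa [vecMul, dotProduct, hM] using congrFun h (f b)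
  have h2 : a • ((fun b => y (f b)) ᵥ* adjugate M) = M.det • s := by
    rw [← smul_vecMul, h1, vecMul_vecMul, mul_adjugate, vecMul_smul, vecMul_one]
  refine ⟨(fun b => y (f b)) ᵥ* adjugate M, smul_right_injective _ ha ?_⟩
  simp only [smul_comm a M.det, h, smul_sum, smul_smul]
  exact sum_congr rfl fun b _ => congrArg (· • v b) (congrFun h2 b).symm

lemma dep {M : Type} [AddCommGroup M] [Module R M] {r : ℕ} (v : Fin (r + 1) → M) (i : Fin (r + 1))
    (h1 : LinearIndependent R fun b => v (i.succAbove b)) (h2 : ¬ LinearIndependent R v) :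
    ∃ a : R, a ≠ 0 ∧ ∃ s : Fin r → R, a • v i = ∑ b, s b • v (i.succAbove b) := by
  obtain ⟨s, hs, j, hj⟩ := Fintype.not_linearIndependent_iff.1 h2
  rw [Fin.sum_univ_succAbove _ i] at hs
  refine ⟨s i, fun h0 => hj ?_, fun b => -s (i.succAbove b), ?_⟩
  · rw [h0, zero_smul, zero_add] at hs
    rcases Fin.eq_self_or_eq_succAbove i j with rfl | ⟨b, rfl⟩
    · exact h0
    · exact Fintype.linearIndependent_iff.1 h1 _ hs b
  · simpa [eq_neg_iff_add_eq_zero] using hs

variable [Fintype O] [DecidableEq O]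

omit [IsDomain R] in
lemma dvd_det (M : Matrix O O R) (o : O) {G : R} (h : ∀ a, G ∣ M a o) : G ∣ M.det := by
  rw [det_apply]
  refine dvd_sum fun τ _ => ?_
  rw [Units.smul_def, zsmul_eq_mul]
  exact ((h _).trans (dvd_prod_of_mem (fun i => M (τ i) i) (mem_univ o))).mul_left _

omit [IsDomain R] in
lemma det_col (M : Matrix O O R) (o : O) (A : O → R) :
    (M.updateCol o fun a => M a ⬝ᵥ A).det = A o * M.det := by
  rw [← smul_eq_mul, ← det_updateCol_sum]
  simp only [dotProduct, smul_eq_mul, mul_comm]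

omit [IsDomain R] in
lemma dvd_det1 (M : Matrix O O R) (o : O) (A : O → R) {G : R} (h : ∀ a, G ∣ M a ⬝ᵥ A) :
    G ∣ A o * M.det := by
  rw [← det_col]
  exact dvd_det _ o fun a => by simpa using h a

omit [IsDomain R] in
lemma dvd_det2 (M : Matrix O O R) {o l : O} (hol : o ≠ l) (A B : O → R) (hB : B o = 0) {G H : R}
    (h : ∀ a, G ∣ M a ⬝ᵥ A) (h' : ∀ a, H ∣ M a ⬝ᵥ B) : G * H ∣ B l * (A o * M.det) := by
  choose u hu using h
  rw [← det_col, ← det_col, funext hu, updateCol_comm _ hol,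
    show (fun a => G * u a) = G • u from rfl, det_updateCol_smul]
  refine mul_dvd_mul_left _ (dvd_det _ l fun a => ?_)
  rw [updateCol_ne hol.symm, updateCol_self]
  convert h' a using 1
  refine sum_congr rfl fun j _ => ?_
  by_cases hj : j = o
  · rw [hj, hB, mul_zero, mul_zero]
  · rw [updateCol_ne hj]

lemma deg_det (M : Matrix O O R[X]) (D : O → ℕ) (h : ∀ a b, (M a b).natDegree ≤ D a) :
    M.det.natDegree ≤ ∑ a, D a := by
  rw [det_apply]
  refine natDegree_sum_le_of_forall_le _ _ fun τ _ => (natDegree_smul_le _ _).trans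
    ((natDegree_prod_le _ _).trans ?_)
  rw [← Equiv.sum_comp τ D]
  exact sum_le_sum fun i _ => h _ _

end Lin

variable {F ι : Type} [Field F] [Fintype ι]

/-- The first order jet vector. -/
noncomputable def Y1 (c : F) (v w : ι → F) : Option ι → F[X] :=
  fun o => o.elim 1 fun i => C (v i) + (X - C c) * C (w i)

/-- The extra direction. -/
noncomputable def Z1 (z : ι → F) : Option ι → F[X] := fun o => o.elim 0 fun i => C (z i)

lemma dvd_Y1 {R : Option ι → F[X]} {c : F} {v : ι → F} (w : ι → F) (h : rv R c 1 v = 0) :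
    (X - C c) ^ 1 ∣ R ⬝ᵥ Y1 c v w := by
  rw [pow_one, dvd_iff_isRoot, IsRoot, ← h]
  simp [dotProduct, rv, Y1, eval_finsetSum]

lemma Cond.dvd_Y1 {R : Option ι → F[X]} {c : F} {v w z : ι → F} (h : Cond R c v w z) :
    (X - C c) ^ 2 ∣ R ⬝ᵥ Y1 c v w := by
  obtain ⟨H, hH⟩ := CSU.dvd_Y1 w h.1
  have h2 : (derivative (R ⬝ᵥ Y1 c v w)).eval c = 0 := by
    rw [← h.2.1]
    simp [dotProduct, rv, Y1, eval_finsetSum, sum_add_distrib, add_assoc]
  rw [hH, pow_one] at h2 ⊢
  rw [pow_two]
  refine mul_dvd_mul_left _ (dvd_iff_isRoot.2 ?_)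
  simpa using h2

lemma Cond.dvd_Z1 {R : Option ι → F[X]} {c : F} {v w z : ι → F} (h : Cond R c v w z) :
    X - C c ∣ R ⬝ᵥ Z1 z := by
  rw [dvd_iff_isRoot, IsRoot, ← h.2.2]
  simp [dotProduct, rv, Z1, eval_finsetSum]

lemma dvd_cancel {c : F} {m : ℕ} {a p : F[X]} (ha : a.eval c ≠ 0) (h : (X - C c) ^ m ∣ a * p) :
    (X - C c) ^ m ∣ p :=
  ((prime_X_sub_C c).pow_dvd_of_dvd_mul_left m (fun h' => ha (dvd_iff_isRoot.1 h')) h)

end Pool.Agent.CSU
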