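import Pool.Agent.Lib.MP_bf776f_nt.SU.St

/-! Block statements for a period and one more point. -/

namespace Pool.Agent.CSU

open Polynomial Finset

/-- The core with a normalising factor `kap` (one column may be close to a constant). -/
def Core2S : Prop :=
  ∀ (k F ι : Type) [Field k] [Fintype k] [NormedField F] [IsUltrametricDist F] [Algebra k F]
    [Fintype ι] (θ : F) (σ : F →+* F) (x : ι → F) (e : ℕ) (V V' w z : ℕ → ℕ → ι → F) (η : ℕ → F)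
    (U : Submodule k F) (d : Option ι → ℕ) (p lam ds κ : ℕ) (kap : ℕ → F) (a : ι → F),
    1 < ‖θ‖ → (∀ y, σ y = y ^ Fintype.card k) → Jet (Fintype.card k) θ x e V V' w z η →
    Ht θ U → θ ∈ U → (∀ i, x i ∈ U ∧ V e 0 i ∈ U ∧ w e 0 i ∈ U ∧ z e 0 i ∈ U) →
    (∀ m j i, j + e ≤ m →
      ‖kap m * V m j i - a i‖ * ‖θ‖ ^ Fintype.card k ^ m ≤ ‖θ‖ ^ Fintype.card k ^ j ∧
      ‖kap m * V' m j i‖ * ‖θ‖ ^ Fintype.card k ^ m ≤ 1) →
    kap e ≠ 0 → (∀ m, e ≤ m → ‖kap m‖ ≤ ‖kap (m + 1)‖ * ‖θ‖ ^ Fintype.card k ^ m) →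
    (∀ i, a i ≠ 0 → d (some i) ≤ 2 * p) →
    (κ = 3 ∨ (κ = 2 ∧ ∀ i, d (some i) = 0 ∨ z e 0 i = 0)) → κ * p < ∑ o, d o →
    d none ≤ ds → (∀ i, x i ≠ 0 → d (some i) ≤ ds) → ds + 2 * lam + 4 ≤ p →
    ZE (Fintype.card k) θ σ e V w z d p lam → False

/-- The kernel of the exponential has one generator, algebraic over `K_∞`, and its generating
function is close to a constant. -/
def KerS : Prop :=
  ∀ (k F : Type) [Field k] [Fintype k] [NormedField F] [IsUltrametricDist F] [CompleteSpace F]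
    [Algebra k F] (θ lam : F), 1 < ‖θ‖ → lam ≠ 0 → cE (Fintype.card k) θ lam = 0 →
    ∃ l : F, l ≠ 0 ∧ cE (Fintype.card k) θ l = 0 ∧ IsAlgebraic (Kinf k θ) l ∧
      (∀ v, cE (Fintype.card k) θ v = 0 → ∃ a : k[X], v = aeval θ a * l) ∧
      ∀ m j, j < m → ‖(phi (Fintype.card k) θ l m 0)⁻¹‖ ≤ 1 ∧
        ‖(phi (Fintype.card k) θ l m 0)⁻¹ * phi (Fintype.card k) θ l m j - 1‖ *
          ‖θ‖ ^ Fintype.card k ^ m ≤ ‖θ‖ ^ Fintype.card k ^ j ∧
        ‖(phi (Fintype.card k) θ l m 0)⁻¹ * phi' (Fintype.card k) θ l m j‖ *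
          ‖θ‖ ^ Fintype.card k ^ m ≤ 1

/-- Zero estimate for a period (column `0`) and a non-torsion point (column `1`). -/
def ZAHS : Prop :=
  ∀ (k F : Type) [Field k] [Fintype k] [NormedField F] [IsUltrametricDist F] [Algebra k F]
    (θ : F) (σ : F →+* F) (x : Fin 2 → F) (e : ℕ) (V V' w z : ℕ → ℕ → Fin 2 → F) (η : ℕ → F),
    1 < ‖θ‖ → (∀ y, σ y = y ^ Fintype.card k) → Jet (Fintype.card k) θ x e V V' w z η →
    x 0 = 0 → V e 0 0 ≠ 0 → z e 0 0 ≠ 0 → NT k (Fintype.card k) θ σ (fun _ : Fin 1 => x 1) →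
    ZE (Fintype.card k) θ σ e V w z (fun o => o.elim 14 ![46, 14]) 24 3

/-- Zero estimate for a period alone. -/
def ZAVS : Prop :=
  ∀ (k F : Type) [Field k] [Fintype k] [NormedField F] [IsUltrametricDist F] [Algebra k F]
    (θ : F) (σ : F →+* F) (x : Fin 1 → F) (e : ℕ) (V V' w z : ℕ → ℕ → Fin 1 → F) (η : ℕ → F),
    1 < ‖θ‖ → (∀ y, σ y = y ^ Fintype.card k) → Jet (Fintype.card k) θ x e V V' w z η →
    x 0 = 0 → V e 0 0 ≠ 0 →
    ZE (Fintype.card k) θ σ e V w z (fun o => o.elim 1 fun _ => 18) 9 2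

end Pool.Agent.CSU
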