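import Pool.Agent.Lib.MP_bf776f_nt.SU.AuxR
import Pool.Agent.Lib.MP_bf776f_nt.SU.St2

/-! The core of the transcendence argument. -/

namespace Pool.Agent.CSU

open Polynomial Finset

lemma ex_L0 (K : ℕ) : ∃ L0, ∀ L, L0 ≤ L → K * (L + 1) ^ 2 ≤ 2 ^ L := by
  have h : ∀ L, 11 ≤ L → (L + 1) ^ 3 ≤ 2 ^ L := by
    intro L hL
    induction L, hL using Nat.le_induction with
    | base => norm_num
    | succ L hL ih =>
      obtain ⟨n, rfl⟩ : ∃ n, L = n + 11 := ⟨L - 11, by omega⟩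
      rw [pow_succ 2]
      refine le_trans ?_ (Nat.mul_le_mul_right 2 ih)
      ring_nf
      omega
  refine ⟨K + 11, fun L hL => le_trans ?_ (h L (by omega))⟩
  rw [pow_succ' _ 2]
  gcongr
  omega

lemma small (hI : IntS) {k F ι : Type} [Field k] [NormedField F] [IsUltrametricDist F]
    [Algebra k F] [Fintype ι] {θ : F} {U : Submodule k F} {q e : ℕ} {x : ι → F}
    {V V' w z : ℕ → ℕ → ι → F} {η : ℕ → F} (hJ : Jet q θ x e V V' w z η) (hq : 2 ≤ q)
    (hθ : 1 < ‖θ‖) (hU : Ht θ U) (hθU : θ ∈ U) {g : ℕ} (hg : ∀ n, ∀ w ∈ U ^ n, ‖w‖ ≤ ‖θ‖ ^ (g * n))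
    {kap : ℕ → F} {a : ι → F} (hn : ∀ m j i, j + e ≤ m →
      ‖kap m * V m j i - a i‖ * ‖θ‖ ^ q ^ m ≤ ‖θ‖ ^ q ^ j ∧ ‖kap m * V' m j i‖ * ‖θ‖ ^ q ^ m ≤ 1)
    (hk : ∀ m, e ≤ m → ‖kap m‖ ≤ ‖kap (m + 1)‖ * ‖θ‖ ^ q ^ m)
    {R : Option ι → F[X]} {ν μ P h D Ds s : ℕ} (hR : ∀ o, PU U h D (R o))
    (h0 : (R none).degree < Ds) (h1 : ∀ i, x i ≠ 0 → (R (some i)).degree < Ds)
    (h2 : ∀ i, a i ≠ 0 → (R (some i)).degree < (μ + P + P : ℕ))
    (hν : μ + P + e ≤ ν) (hs : Ds + s = μ + P + P)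
    (z1 : ∀ j, 1 ≤ j → j ≤ μ → rv R (θ ^ q ^ j) 1 (V ν j) = 0)
    (z2 : ∀ j, μ + 1 ≤ j → j ≤ μ + P → Cond R (θ ^ q ^ j) (V ν j) (w ν j) (z ν j)) :
    ‖kap ν‖ * ‖rv R θ 1 (V ν 0)‖ * ‖θ‖ ^ q ^ (ν + s) ≤
      ‖θ‖ ^ (g * (h + q ^ (μ + P) * D) + q ^ (μ + P) + q ^ (μ + P) * 2 * (μ + P)) := by
  have hT : 0 < ‖θ‖ ^ q ^ (ν + s) := by positivity
  set ε := ‖θ‖ ^ (g * (h + q ^ (μ + P) * D) + q ^ (μ + P)) / ‖θ‖ ^ q ^ (ν + s) with hε
  have hε0 : 0 ≤ ε := by positivity
  have bd : ∀ (T : ι → F[X]) (y : ι → F) (j : ℕ), j ≤ μ + P → (∀ i, PU U h D (T i)) →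
      (∀ i, ‖y i‖ * ‖θ‖ ^ q ^ (ν + s) ≤ ‖θ‖ ^ q ^ j) → ‖∑ i, (T i).eval (θ ^ q ^ j) * y i‖ ≤ ε := by
    intro T y j hj hT' hy
    refine IsUltrametricDist.norm_sum_le_of_forall_le_of_nonneg hε0 fun i _ => ?_
    rw [hε, le_div_iff₀ hT, norm_mul, mul_assoc, pow_add ‖θ‖]
    refine mul_le_mul (hg _ _ ?_) ((hy i).trans (pow_le_pow_right₀ hθ.le
      (Nat.pow_le_pow_right (by omega) hj))) (by positivity) (by positivity)
    refine hU.le ((hT' i).eval hU (c_mem hθU _)) ?_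
    gcongr
    omega
  have hr : 1 ≤ ‖θ‖ ^ q ^ (μ + P) := one_le_pow₀ hθ.le
  have hv : ∀ j, (C (kap (ν + s)) * trN q θ x ν R s none + ∑ i, C (a i) * R (some i)).eval
      (θ ^ q ^ j) + ∑ i, (R (some i)).eval (θ ^ q ^ j) * (kap (ν + s) * V (ν + s) j i - a i) =
      kap (ν + s) * rv (trN q θ x ν R s) (θ ^ q ^ j) 1 (V (ν + s) j) := fun j => by
    simp only [rv, trN_some, eval_add, eval_mul, eval_C, eval_finsetSum, mul_add, mul_one, mul_sum,
      add_assoc, ← sum_add_distrib]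
    exact congrArg _ (sum_congr rfl fun i _ => by ring)
  have hG := hI F (fun j => θ ^ q ^ j) (Icc 1 (μ + P)) (Icc (μ + 1) (μ + P))
    (C (kap (ν + s)) * trN q θ x ν R s none + ∑ i, C (a i) * R (some i)) θ ε (Icc_subset_Icc_left (by omega)) hε0
    (fun i _ j _ hij => one_le_c_sub hθ hq hij)
    (by
      rw [Nat.card_Icc, Nat.card_Icc,
        show μ + P + 1 - 1 + (μ + P + 1 - (μ + 1)) = μ + P + P by omega, ← mem_degreeLT]
      refine add_mem ?_ (sum_mem fun i _ => ?_)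
      · rw [C_mul', ← hs]
        exact Submodule.smul_mem _ _ (mem_degreeLT.2 (trN_deg (by omega) ν R Ds h0 h1 s))
      · by_cases ha : a i = 0
        · rw [ha, map_zero, zero_mul]; exact zero_mem _
        · rw [C_mul']
          exact Submodule.smul_mem _ _ (mem_degreeLT.2 (h2 i ha)))
    (fun j hj => by
      rw [mem_Icc] at hj
      have a1 : rv R (θ ^ q ^ j) 1 (V ν j) = 0 := by
        by_cases hh : j ≤ μ
        · exact z1 j hj.1 hh
        · exact (z2 j (by omega) hj.2).1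
      have a2 := hv j
      rw [hJ.val_trN (m := ν) (j := j) (by omega) R s, a1, mul_zero, mul_zero,
        add_eq_zero_iff_eq_neg] at a2
      rw [a2, norm_neg]
      exact bd _ _ j hj.2 (fun i => hR _) fun i => (hn _ j i (by omega)).1)
    (fun j hj => by
      rw [mem_Icc] at hj
      obtain ⟨-, a2, a3⟩ := hJ.cond_trN (m := ν) (j := j) (by omega) (z2 j hj.1 hj.2) s
      simp only [rv, mul_one, mul_zero, zero_add, trN_some] at a2 a3
      have a4 : (derivative (C (kap (ν + s)) * trN q θ x ν R s none +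
            ∑ i, C (a i) * R (some i))).eval (θ ^ q ^ j) =
          -(∑ i, (derivative (R (some i))).eval (θ ^ q ^ j) * (kap (ν + s) * V (ν + s) j i - a i) +
            ∑ i, (R (some i)).eval (θ ^ q ^ j) * (kap (ν + s) * V' (ν + s) j i)) := by
        have t1 : ∀ i, (R (some i)).eval (θ ^ q ^ j) * (kap (ν + s) * V' (ν + s) j i) =
            kap (ν + s) * ((R (some i)).eval (θ ^ q ^ j) * w (ν + s) j i) + kap (ν + s) *
              η j * ((R (some i)).eval (θ ^ q ^ j) * z (ν + s) j i) := fun i => by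
          rw [hJ.dec _ j i (by omega)]; ring
        have t2 : ∀ i, (derivative (R (some i))).eval (θ ^ q ^ j) *
            (kap (ν + s) * V (ν + s) j i - a i) =
            kap (ν + s) * ((derivative (R (some i))).eval (θ ^ q ^ j) * V (ν + s) j i) -
              a i * (derivative (R (some i))).eval (θ ^ q ^ j) := fun i => by ring
        simp only [t1, t2, sum_add_distrib, sum_sub_distrib, ← mul_sum, derivative_add,
          derivative_sum, derivative_C_mul, eval_add, eval_finsetSum, eval_mul, eval_C]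
        linear_combination kap (ν + s) * a2 + kap (ν + s) * η j * a3
      rw [a4, norm_neg]
      refine (IsUltrametricDist.norm_add_le_max _ _).trans (max_le ?_ ?_)
      · exact bd _ _ j hj.2 (fun i => (hR _).der) fun i => (hn _ j i (by omega)).1
      · exact bd _ _ j hj.2 (fun i => hR _) fun i =>
          (hn _ j i (by omega)).2.trans (one_le_pow₀ hθ.le))
    (fun _ => ‖θ‖ ^ q ^ (μ + P)) (fun j hj => ⟨hr, by
      rw [mem_Icc] at hj
      have := norm_c_sub hθ hq (show 0 < j by omega)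
      rw [pow_zero, pow_one] at this
      rw [norm_sub_rev, this]
      exact pow_le_pow_right₀ hθ.le (Nat.pow_le_pow_right (by omega) hj.2)⟩)
  rw [prod_const, Nat.card_Icc, Nat.add_sub_cancel, ← pow_mul, ← pow_mul] at hG
  have a2 := hJ.val_trN (m := ν) (j := 0) (by omega) R s
  have a3 := bd (fun i => R (some i)) (fun i => kap (ν + s) * V (ν + s) 0 i - a i) 0 (by omega)
    (fun i => hR _) fun i => (hn _ 0 i (by omega)).1
  have a4 : ∀ s, ‖kap ν‖ ≤ ‖kap (ν + s) * ∏ l ∈ range s, (θ ^ q ^ 0 - θ ^ q ^ (ν + l))‖ := by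
    intro s
    induction s with
    | zero => simp
    | succ s ih =>
      refine ih.trans ?_
      rw [prod_range_succ, norm_mul, norm_mul, norm_mul, norm_sub_rev,
        norm_c_sub hθ hq (by have := hJ.e1; omega), mul_comm _ (_ ^ _), ← mul_assoc]
      exact mul_le_mul_of_nonneg_right (hk _ (by omega)) (norm_nonneg _)
  have a5 : 1 ≤ ‖θ‖ ^ (q ^ (μ + P) * (2 * (μ + P))) := one_le_pow₀ hθ.le
  have a6 : ‖kap ν‖ * ‖rv R (θ ^ q ^ 0) 1 (V ν 0)‖ ≤
      ε * ‖θ‖ ^ (q ^ (μ + P) * (2 * (μ + P))) := by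
    refine (mul_le_mul_of_nonneg_right (a4 s) (norm_nonneg _)).trans ?_
    rw [← norm_mul, mul_assoc, ← a2, ← hv]
    refine (IsUltrametricDist.norm_add_le_max _ _).trans (max_le ?_ ?_)
    · simpa using hG
    · exact a3.trans (le_mul_of_one_le_right hε0 a5)
  rw [pow_zero, pow_one] at a6
  rw [← le_div_iff₀ hT, pow_add, mul_div_right_comm, mul_assoc]
  exact a6

theorem core2 : IntS → SieS → Core2S := by
  intro hI _ k F ι _ _ _ _ _ _ θ σ x e V V' w z η U d p lam ds κ kap a hθ hσ hJ hU hθU h0 hn hke hk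
    ha hκ hd hd0 hd1 hp hZ
  obtain ⟨n0, hn0⟩ := pow_unbounded_of_one_lt ‖kap e‖⁻¹ hθ
  have hq : 2 ≤ Fintype.card k := Fintype.one_lt_card
  generalize Fintype.card k = q at *
  obtain ⟨c, hc⟩ := aux hU d p κ (by omega) (by omega) hd
  have hdS : ∀ o, d o ≤ ∑ o, d o := fun o =>
    single_le_sum (f := d) (fun _ _ => Nat.zero_le _) (mem_univ _)
  generalize ∑ o, d o = S at *
  obtain ⟨g, hg⟩ := hU.nrm
  obtain ⟨A, hA⟩ := hU.gel (q ^ (p + lam + 1)) (hq.trans (Nat.le_self_pow (by omega) q))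
  obtain ⟨L1, hL1⟩ := hZ
  obtain ⟨L2, hL2⟩ := ex_L0 ((c * (S + q * e + q * p + 1) * (S + 1) + 1) * q ^ (e + 1) + S +
    2 * (p + lam) + (A + g + n0 + 4))
  refine hA (L1 + L2 + 1) fun L hL => ?_
  have hht := hJ.ht hq hU hθU h0
  obtain ⟨B, hB0, hB, hBc⟩ := hc L (q ^ (e + p * L)) (S * L + q * (e + p * L))
    (fun j => θ ^ q ^ j) (V (e + p * L)) (w (e + p * L)) (z (e + p * L)) (by omega)
    (fun j hj => ⟨hU.le (c_mem hθU _) (Nat.pow_le_pow_right (by omega) (by omega)),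
      hht j _ (by omega)⟩)
    (by
      rw [pow_add 2, pow_mul 2 q]
      exact Nat.mul_le_mul Nat.lt_two_pow_self (Nat.pow_le_pow_left Nat.lt_two_pow_self.le _))
    (hκ.imp id fun h j hj i => (h.2 i).imp id fun h' =>
      jet_ind (fun m j => z m j i = 0) h'
        (fun m hm ih => by rw [hJ.zrec m 0 i (by omega), ih, mul_zero])
        (fun m j hj ih => by rw [hJ.ztw m j i hj, ih, zero_pow (by omega)]) j _ (by omega))
  have hZ := hL1 L (by omega) B hB0 (fun o => (hB o).2) hBc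
  classical
  have hex : ∃ a, rv ((tw σ)^[a + 1] B) θ 1 (V (e + p * L + (a + 1)) 0) ≠ 0 := by
    by_contra hne
    push Not at hne
    have := hZ (lam * L + 1) fun a h1 _ => by
      obtain ⟨a, rfl⟩ : ∃ a', a = a' + 1 := ⟨a - 1, by omega⟩
      exact hne a
    omega
  have hne := Nat.find_spec hex
  have hμ : ∀ a, 1 ≤ a → a ≤ Nat.find hex → rv ((tw σ)^[a] B) θ 1 (V (e + p * L + a) 0) = 0 := by
    intro a h1 h2
    obtain ⟨a, rfl⟩ : ∃ a', a = a' + 1 := ⟨a - 1, by omega⟩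
    exact not_not.1 (Nat.find_min hex (by omega))
  have hμl := hZ _ hμ
  generalize Nat.find hex = μ at *
  have hR := PU.twN hσ hB (μ + 1)
  have hpL : ds * L + 2 * (lam * L) + 4 * L ≤ p * L := by nlinarith
  have key := small hI hJ hq hθ hU hθU hg hn hk (R := (tw σ)^[μ + 1] B) (ν := e + p * L + (μ + 1))
    (μ := μ) (P := p * L) (D := S * L) (Ds := ds * L) (s := μ + p * L + p * L - ds * L)
    (fun o => (hR o).mono (Nat.mul_le_mul_right _ (hdS o)))
    ((hR none).mono (Nat.mul_le_mul_right _ hd0)).2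
    (fun i hi => ((hR _).mono (Nat.mul_le_mul_right _ (hd1 i hi))).2)
    (fun i hi => ((hR _).mono ((Nat.mul_le_mul_right _ (ha i hi)).trans
      (by rw [mul_assoc]; omega))).2) (by omega) (by omega)
    (fun j h1 h2 => by
      have := hJ.val_twN hσ (m := e + p * L + (μ + 1 - j)) (j := 0)
        (R := (tw σ)^[μ + 1 - j] B) (by omega)
        (by rw [pow_zero, pow_one]; exact hμ _ (by omega) (by omega)) j
      rwa [← Function.iterate_add_apply, zero_add, show j + (μ + 1 - j) = μ + 1 by omega,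
        show e + p * L + (μ + 1 - j) + j = e + p * L + (μ + 1) by omega] at this)
    (fun j h1 h2 => by
      have := hJ.cond_twN hσ (m := e + p * L) (j := j - (μ + 1)) (by omega)
        (hBc _ (by omega)) (μ + 1)
      rwa [show j - (μ + 1) + (μ + 1) = j by omega] at this)
  set h := c * (S * L + q * (e + p * L) + 1) * ((S * L + 1) * q ^ (e + p * L)) * q ^ (μ + 1)
    with hh
  set Q := q ^ (μ + p * L) with hQ
  have hν : q ^ (e + p * L + (μ + 1)) = q ^ (e + 1) * Q := by rw [hQ, ← pow_add]; congr 1; omega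
  have hQ1 : 1 ≤ Q := Nat.one_le_pow _ _ (by omega)
  have hL2' := (hL2 L (by omega)).trans (Nat.pow_le_pow_left hq L)
  have hb : (q ^ (p + lam + 1)) ^ L = q ^ L * q ^ (lam * L + p * L) := by
    rw [← pow_mul, ← pow_add]; congr 1; ring
  have hQb : Q ≤ q ^ (lam * L + p * L) := Nat.pow_le_pow_right (by omega) (by omega)
  have hW : h + q ^ (e + 1) * Q + Q * (S * L) + Q * 2 * (μ + p * L) ≤ (q ^ (p + lam + 1)) ^ L := by
    have b1 : S * L + q * (e + p * L) + 1 ≤ (S + q * e + q * p + 1) * (L + 1) := by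
      nlinarith [Nat.zero_le (q * e * L), Nat.zero_le (q * p)]
    have b2 : S * L + 1 ≤ (S + 1) * (L + 1) := by nlinarith
    have b3 : h ≤ c * (S + q * e + q * p + 1) * (S + 1) * q ^ (e + 1) * (L + 1) ^ 2 * Q := by
      calc h = c * (S * L + q * (e + p * L) + 1) * (S * L + 1) * (q ^ (e + 1) * Q) := by
            rw [← hν, hh, pow_add q (e + p * L)]; ring
        _ ≤ c * ((S + q * e + q * p + 1) * (L + 1)) * ((S + 1) * (L + 1)) * (q ^ (e + 1) * Q) := by
            gcongr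
        _ = _ := by ring
    have b4 : L ≤ (L + 1) ^ 2 := by nlinarith
    have b5 : q ^ (e + 1) * Q ≤ q ^ (e + 1) * (L + 1) ^ 2 * Q := by
      gcongr; exact Nat.le_mul_of_pos_right _ (by positivity)
    have b6 : Q * (S * L) ≤ S * (L + 1) ^ 2 * Q := by rw [mul_comm Q]; gcongr
    have b7 : Q * 2 * (μ + p * L) ≤ 2 * (p + lam) * (L + 1) ^ 2 * Q := by
      calc _ ≤ Q * 2 * (lam * L + p * L) := by gcongr
        _ = 2 * (p + lam) * L * Q := by ring
        _ ≤ _ := by gcongr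
    rw [hb]
    calc _ ≤ c * (S + q * e + q * p + 1) * (S + 1) * q ^ (e + 1) * (L + 1) ^ 2 * Q +
          q ^ (e + 1) * (L + 1) ^ 2 * Q + S * (L + 1) ^ 2 * Q + 2 * (p + lam) * (L + 1) ^ 2 * Q +
          (A + g + n0 + 4) * (L + 1) ^ 2 * Q := by omega
      _ = ((c * (S + q * e + q * p + 1) * (S + 1) + 1) * q ^ (e + 1) + S +
          2 * (p + lam) + (A + g + n0 + 4)) * (L + 1) ^ 2 * Q := by ring
      _ ≤ _ := Nat.mul_le_mul hL2' hQb
  refine ⟨_, ?_, hne, ?_⟩
  · rw [rv, mul_one]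
    have hD : 1 * (S * L) ≤ Q * (S * L) := by gcongr
    have ev : ∀ o, ((tw σ)^[μ + 1] B o).eval θ ∈ U ^ (h + 1 * (S * L)) := fun o =>
      ((hR o).mono (Nat.mul_le_mul_right _ (hdS o))).eval hU (by rwa [pow_one])
    refine add_mem (hU.le (ev _) (by omega)) (sum_mem fun i _ => hU.le
      (Ht.mul (ev _) (hht 0 _ (by omega) i).1) ?_)
    rw [hν]
    omega
  · set b := (q ^ (p + lam + 1)) ^ L with hb'
    have hb2 : (q ^ (p + lam + 1)) ^ (2 * L) = b * b := by rw [hb', ← pow_add, two_mul]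
    have hb1 : 1 ≤ b := Nat.one_le_pow _ _ (by positivity)
    have c1 : A + g + n0 + 4 ≤ q ^ L :=
      ((Nat.le_add_left _ _).trans (Nat.le_mul_of_pos_right _ (by positivity))).trans hL2'
    have hbb : b ≤ b * b := Nat.le_mul_of_pos_right _ hb1
    have c2 : q ^ L * (b * b) ≤ q ^ (e + p * L + (μ + 1) + (μ + p * L + p * L - ds * L)) := by
      rw [← hb2, ← pow_mul, ← pow_add]
      refine Nat.pow_le_pow_right (by omega) ?_
      have : (p + lam + 1) * (2 * L) = 2 * (p * L) + 2 * (lam * L) + 2 * L := by ring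
      omega
    have c0 : ∀ m, e ≤ m → ‖kap e‖ ≤ ‖kap m‖ * ‖θ‖ ^ q ^ m := by
      intro m hm
      induction m, hm using Nat.le_induction with
      | base => exact le_mul_of_one_le_right (norm_nonneg _) (one_le_pow₀ hθ.le)
      | succ m hm ih =>
        refine ih.trans ((mul_le_mul_of_nonneg_right (hk m hm) (by positivity)).trans ?_)
        rw [mul_assoc, ← pow_add]
        refine mul_le_mul_of_nonneg_left (pow_le_pow_right₀ hθ.le ?_) (norm_nonneg _)
        rw [pow_succ, ← mul_two]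
        exact Nat.mul_le_mul_left _ hq
    have c4 : 1 ≤ ‖θ‖ ^ (n0 + q ^ (e + 1) * Q) * ‖kap (e + p * L + (μ + 1))‖ := by
      rw [pow_add, ← hν, mul_assoc, mul_comm _ ‖kap _‖]
      refine le_trans ?_ (mul_le_mul hn0.le (c0 _ (by omega)) (norm_nonneg _) (by positivity))
      rw [inv_mul_cancel₀ (norm_ne_zero_iff.2 hke)]
    have c3 : A * (b * b) + (n0 + q ^ (e + 1) * Q) +
        (g * (h + Q * (S * L)) + Q + Q * 2 * (μ + p * L)) <
        q ^ (e + p * L + (μ + 1) + (μ + p * L + p * L - ds * L)) := by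
      have d1 : g * (h + Q * (S * L)) ≤ g * (b * b) := Nat.mul_le_mul_left _ (by omega)
      have d2 : Q ≤ q ^ (e + 1) * Q := Nat.le_mul_of_pos_left _ (by positivity)
      have d4 : n0 ≤ n0 * (b * b) := Nat.le_mul_of_pos_right _ (by omega)
      have d3 := Nat.mul_le_mul_right (b * b) c1
      rw [add_mul, add_mul, add_mul] at d3
      omega
    rw [hb2]
    refine lt_of_mul_lt_mul_right ?_ (pow_nonneg (norm_nonneg θ)
      (q ^ (e + p * L + (μ + 1) + (μ + p * L + p * L - ds * L))))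
    rw [mul_assoc, one_mul]
    refine lt_of_le_of_lt ?_ (pow_lt_pow_right₀ hθ c3)
    rw [pow_add ‖θ‖, pow_add ‖θ‖ (A * _), mul_assoc]
    refine mul_le_mul_of_nonneg_left ((le_mul_of_one_le_left (by positivity) c4).trans ?_)
      (by positivity)
    rw [mul_assoc, ← mul_assoc ‖kap _‖]
    exact mul_le_mul_of_nonneg_left key (by positivity)

theorem core : IntS → SieS → CoreS := by
  intro hI hS k F ι _ _ _ _ _ _ θ σ x e V V' w z η U d p lam ds κ hθ hσ hJ hU hθU h0 hn hκ hd hd0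
    hd1 hp hZ
  refine core2 hI hS k F ι θ σ x e V V' w z η U d p lam ds κ (fun _ => 1) (fun _ => 0) hθ hσ hJ hU
    hθU h0 (fun m j i hj => ?_) one_ne_zero (fun m _ => ?_) (fun i hi => absurd rfl hi) hκ hd hd0
    hd1 hp hZ
  · rw [one_mul, one_mul, sub_zero]
    exact ⟨(hn m j i hj).1.trans (one_le_pow₀ hθ.le), (hn m j i hj).2⟩
  · exact le_mul_of_one_le_right (norm_nonneg _) (one_le_pow₀ hθ.le)

end Pool.Agent.CSU
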