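import Pool.Agent.Lib.MP_bf776f_nt.SU.An

/-! More on the Carlitz exponential: small arguments and closed subfields. -/

namespace Pool.Agent.CSU.Fr

open Finset Filter

variable {F : Type} {q : ℕ} [NormedField F] [IsUltrametricDist F] {θ : F}

theorem tsum_small' (h : Fr q F) (hθ : 1 < ‖θ‖) {u : F} (hu : ‖u‖ ≤ 1) (m : ℕ) (b : ℕ → F)
    (hb : ∀ i, ‖θ‖ ^ q ^ m ≤ ‖b i‖) :
    ‖∑' i, cT q θ u m i / b i‖ ≤ ‖u‖ ^ q ^ m / ‖θ‖ ^ q ^ m := by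
  have h0 : 0 < ‖θ‖ ^ q ^ m := by positivity
  refine IsUltrametricDist.norm_tsum_le_of_forall_le_of_nonneg (by positivity) fun i => ?_
  rw [norm_div, h.norm_cT hθ]
  refine div_le_div₀ (by positivity) ?_ h0 (hb i)
  have h1 : ‖u‖ * ‖θ‖⁻¹ ^ i ≤ ‖u‖ := mul_le_of_le_one_right (norm_nonneg u)
    (pow_le_one₀ (by positivity) (inv_le_one_of_one_le₀ hθ.le))
  exact (pow_le_pow_left₀ (by positivity) h1 _).trans (pow_le_pow_of_le_one (norm_nonneg u) hu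
    (Nat.pow_le_pow_right (by have := h.lt; omega) (by omega)))

theorem norm_phi_le (h : Fr q F) (hθ : 1 < ‖θ‖) {u : F} (hu : ‖u‖ ≤ 1) {m j : ℕ} (hj : j < m) :
    ‖phi q θ u m j‖ ≤ ‖u‖ ^ q ^ m / ‖θ‖ ^ q ^ m := by
  rw [phi_eq]
  refine h.tsum_small' hθ hu m _ fun i => ?_
  rw [h.norm_sub hθ (by omega)]
  exact pow_le_pow_right₀ hθ.le (Nat.pow_le_pow_right (by have := h.lt; omega) (by omega))

variable [CompleteSpace F]

theorem norm_cE_sub' (h : Fr q F) (hθ : 1 < ‖θ‖) {u : F} (hu : ‖u‖ ≤ 1) :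
    ‖cE q θ u - u‖ ≤ ‖u‖ ^ q / ‖θ‖ ^ q := by
  simpa only [h.phi_one hθ u, pow_one] using h.norm_phi_le hθ hu one_pos

theorem norm_cE_sub (h : Fr q F) (hθ : 1 < ‖θ‖) {u : F} (hu : ‖u‖ ≤ 1) :
    ‖cE q θ u - u‖ ≤ ‖u‖ / ‖θ‖ ^ q :=
  (h.norm_cE_sub' hθ hu).trans (div_le_div_of_nonneg_right
    (pow_le_of_le_one (norm_nonneg u) hu (by have := h.lt; omega)) (by positivity))

/-- `e` is an isometry on the unit ball. -/
theorem norm_cE (h : Fr q F) (hθ : 1 < ‖θ‖) {u : F} (hu : ‖u‖ ≤ 1) : ‖cE q θ u‖ = ‖u‖ := by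
  rcases eq_or_ne u 0 with rfl | h0
  · rw [h.cE_zero hθ]
  have h1 : ‖cE q θ u - u‖ < ‖u‖ := (h.norm_cE_sub hθ hu).trans_lt
    (div_lt_self (norm_pos_iff.2 h0) (one_lt_pow₀ hθ (by have := h.lt; omega)))
  have h2 := IsUltrametricDist.norm_add_eq_max_of_norm_ne_norm h1.ne
  rwa [sub_add_cancel, max_eq_right h1.le] at h2

omit [IsUltrametricDist F] [CompleteSpace F] in
theorem mem_of_hasSum {W : Subfield F} (hW : IsClosed (W : Set F)) {f : ℕ → F} {s : F}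
    (hs : HasSum f s) (hf : ∀ i, f i ∈ W) : s ∈ W :=
  hW.mem_of_tendsto hs.tendsto_sum_nat (Eventually.of_forall fun _ => sum_mem fun i _ => hf i)

omit [IsUltrametricDist F] [CompleteSpace F] in
theorem cD_mem {W : Subfield F} (hθ : θ ∈ W) (i : ℕ) : cD q θ i ∈ W :=
  prod_mem fun _ _ => sub_mem (pow_mem hθ _) (pow_mem hθ _)

theorem cE_mem (h : Fr q F) (hθ : 1 < ‖θ‖) {W : Subfield F} (hW : IsClosed (W : Set F))
    (h1 : θ ∈ W) {u : F} (h2 : u ∈ W) : cE q θ u ∈ W :=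
  mem_of_hasSum hW (h.hasSum_cE hθ u) fun i => div_mem (pow_mem h2 _) (cD_mem h1 i)

/-- Only `u ^ q ^ m ∈ W` is needed at level `m`. -/
theorem phi_mem (h : Fr q F) (hθ : 1 < ‖θ‖) {W : Subfield F} (hW : IsClosed (W : Set F))
    (h1 : θ ∈ W) {u : F} {m j : ℕ} (hj : j < m) (h2 : u ^ q ^ m ∈ W) :
    phi q θ u m j ∈ W ∧ phi' q θ u m j ∈ W := by
  have h3 : ∀ i, u ^ q ^ (i + m) ∈ W := fun i => by
    rw [add_comm, pow_add, pow_mul]; exact pow_mem h2 _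
  have h4 : ∀ i, θ ^ q ^ (i + m) - θ ^ q ^ j ∈ W := fun i =>
    sub_mem (pow_mem h1 _) (pow_mem h1 _)
  exact ⟨mem_of_hasSum hW (h.hasSum_phi hθ u hj) fun i =>
      div_mem (h3 i) (mul_mem (pow_mem (cD_mem h1 i) _) (h4 i)),
    mem_of_hasSum hW (h.hasSum_phi' hθ u hj) fun i =>
      div_mem (h3 i) (mul_mem (pow_mem (cD_mem h1 i) _) (pow_mem (h4 i) _))⟩

end Pool.Agent.CSU.Fr
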