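import Pool.Agent.Lib.MP_bf776f_nt.SU.An
import Pool.Agent.Lib.MP_bf776f_nt.SU.Der

/-! Three points with no period in their span: reduction to the blocks. -/

namespace Pool.Agent.CSU

open Polynomial Finset Filter Topology

variable {k F : Type} [Field k] [Fintype k] [NormedField F] [IsUltrametricDist F] [Algebra k F]

/-- The analytic facts used below. -/
structure AX (k : Type) [Field k] [Fintype k] [Algebra k F] (θ : F) : Prop where
  eadd : ∀ u v : F, cE (Fintype.card k) θ (u + v) =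
    cE (Fintype.card k) θ u + cE (Fintype.card k) θ v
  esm : ∀ (c : k) (u : F), cE (Fintype.card k) θ (algebraMap k F c * u) =
    algebraMap k F c * cE (Fintype.card k) θ u
  eth : ∀ u : F, cE (Fintype.card k) θ (θ * u) =
    θ * cE (Fintype.card k) θ u + cE (Fintype.card k) θ u ^ Fintype.card k
  padd : ∀ (u v : F) (m : ℕ), 0 < m → phi' (Fintype.card k) θ (u + v) m 0 =
    phi' (Fintype.card k) θ u m 0 + phi' (Fintype.card k) θ v m 0
  psm : ∀ (c : k) (u : F) (m : ℕ), 0 < m → phi' (Fintype.card k) θ (algebraMap k F c * u) m 0 =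
    algebraMap k F c * phi' (Fintype.card k) θ u m 0
  pth : ∀ (u : F) (m : ℕ), 0 < m → phi' (Fintype.card k) θ (θ * u) m 0 =
    phi (Fintype.card k) θ u m 0 + θ * phi' (Fintype.card k) θ u m 0
  s1 : ∀ (u : F) (m : ℕ), 0 < m → Summable fun i : ℕ => u ^ Fintype.card k ^ (i + m) /
    (cD (Fintype.card k) θ i ^ Fintype.card k ^ m *
      (θ ^ Fintype.card k ^ (i + m) - θ ^ Fintype.card k ^ 0))
  s2 : ∀ (u : F) (m : ℕ), 0 < m → Summable fun i : ℕ => u ^ Fintype.card k ^ (i + m) /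
    (cD (Fintype.card k) θ i ^ Fintype.card k ^ m *
      (θ ^ Fintype.card k ^ (i + m) - θ ^ Fintype.card k ^ 0) ^ 2)

/-- Algebraic over `k[θ, y]`. -/
abbrev Al (k : Type) [Field k] [Algebra k F] (θ y a : F) : Prop :=
  IsAlgebraic (Algebra.adjoin k (Set.range ![θ, y])) a

/-- `u` and `e(u)` are algebraic over `k[θ, y]`. -/
def Gd (k : Type) [Field k] [Fintype k] [Algebra k F] (θ y u : F) : Prop :=
  Al k θ y u ∧ Al k θ y (cE (Fintype.card k) θ u)

omit [Fintype k] [IsUltrametricDist F] in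
lemma al_th (θ y : F) : Al k θ y θ := isAlgebraic_algebraMap
  (⟨θ, Algebra.subset_adjoin ⟨0, rfl⟩⟩ : Algebra.adjoin k (Set.range ![θ, y]))

omit [Fintype k] [IsUltrametricDist F] in
lemma al_k (θ y : F) (c : k) : Al k θ y (algebraMap k F c) := by
  simpa using isAlgebraic_algebraMap (A := F)
    (algebraMap k (Algebra.adjoin k (Set.range ![θ, y])) c)

omit [Fintype k] [IsUltrametricDist F] in
lemma al_root {θ y a t : F} {n : ℕ} (hn : 2 ≤ n) (ha : Al k θ y a) (h : a = θ * t + t ^ n) :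
    Al k θ y t := by
  let A := Subalgebra.algebraicClosure (Algebra.adjoin k (Set.range ![θ, y])) F
  have hi : IsIntegral A t := by
    refine ⟨X ^ n + (C (⟨θ, al_th θ y⟩ : A) * X - C (⟨a, ha⟩ : A)), ?_, ?_⟩
    · refine monic_X_pow_add ?_
      refine lt_of_le_of_lt (degree_sub_le _ _) (max_lt ?_ ?_)
      · exact lt_of_le_of_lt (degree_C_mul_X_le _) (by exact_mod_cast hn)
      · exact lt_of_le_of_lt degree_C_le (by exact_mod_cast (by omega : 0 < n))
    · simp only [eval₂_add, eval₂_sub, eval₂_mul, eval₂_pow, eval₂_X, eval₂_C]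
      show t ^ n + (θ * t - a) = 0
      rw [h]; ring
  exact hi.trans_isAlgebraic _

namespace AX

omit [IsUltrametricDist F]

variable {θ y : F} (h : AX k θ)
include h

lemma e0 : cE (Fintype.card k) θ 0 = 0 := by simpa using h.esm 0 0

lemma gadd {u v : F} (hu : Gd k θ y u) (hv : Gd k θ y v) : Gd k θ y (u + v) :=
  ⟨hu.1.add hv.1, by rw [h.eadd]; exact hu.2.add hv.2⟩

lemma gsm {u : F} (hu : Gd k θ y u) (c : k) : Gd k θ y (algebraMap k F c * u) :=
  ⟨(al_k θ y c).mul hu.1, by rw [h.esm]; exact (al_k θ y c).mul hu.2⟩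

lemma gth {u : F} (hu : Gd k θ y u) : Gd k θ y (θ * u) :=
  ⟨(al_th θ y).mul hu.1, by rw [h.eth]; exact ((al_th θ y).mul hu.2).add (hu.2.pow _)⟩

lemma gpow {u : F} (hu : Gd k θ y u) (n : ℕ) : Gd k θ y (θ ^ n * u) := by
  induction n with
  | zero => simpa using hu
  | succ n ih => rw [pow_succ', mul_assoc]; exact h.gth ih

lemma gpol {u : F} (hu : Gd k θ y u) (b : k[X]) : Gd k θ y (aeval θ b * u) := by
  induction b using Polynomial.induction_on' with
  | add a b ha hb => rw [map_add, add_mul]; exact h.gadd ha hb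
  | monomial n c => rw [aeval_monomial, mul_assoc]; exact h.gsm (h.gpow hu n) c

lemma gdiv {u : F} (n : ℕ) (hu : Gd k θ y (θ ^ n * u)) (h0 : θ ≠ 0) : Gd k θ y u := by
  induction n with
  | zero => simpa using hu
  | succ n ih =>
    rw [pow_succ', mul_assoc] at hu
    refine ih ⟨?_, al_root Fintype.one_lt_card hu.2 (h.eth _)⟩
    have := (al_th (k := k) θ y).inv.mul hu.1
    rwa [inv_mul_cancel_left₀ h0] at this

lemma ezero {u : F} (hu : cE (Fintype.card k) θ u = 0) (n : ℕ) :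
    cE (Fintype.card k) θ (θ ^ n * u) = 0 := by
  induction n with
  | zero => simpa using hu
  | succ n ih => rw [pow_succ', mul_assoc, h.eth, ih, zero_pow Fintype.card_ne_zero]; simp

end AX

lemma al_phi [CompleteSpace F] (an : AnS) {θ y u : F} (hθ : 1 < ‖θ‖) (hu : Gd k θ y u) {m : ℕ}
    (hm : 1 ≤ m) : Al k θ y (phi (Fintype.card k) θ u m 0) := by
  induction m, hm using Nat.le_induction with
  | base => rw [(an k F θ u hθ).1]; exact hu.2.sub hu.1
  | succ m hm ih =>
    rw [((an k F θ u hθ).2 m 0 hm).1]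
    exact ((((al_th θ y).pow _).sub ((al_th θ y).pow _)).mul ih).add (hu.2.pow _)

lemma AX.defect [CompleteSpace F] {θ y u : F} (h : AX k θ) (an : AnS) (hθ : 1 < ‖θ‖)
    (hu : Gd k θ y u) {m : ℕ} (hm : 1 ≤ m) (b : k[X]) :
    Al k θ y (phi' (Fintype.card k) θ (aeval θ b * u) m 0 -
      aeval θ b * phi' (Fintype.card k) θ u m 0) := by
  induction b using Polynomial.induction_on' with
  | add a b ha hb =>
    rw [map_add, add_mul, h.padd _ _ _ hm]
    convert ha.add hb using 1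
    ring
  | monomial n c =>
    rw [aeval_monomial, mul_assoc, h.psm _ _ _ hm, mul_assoc, ← mul_sub]
    refine (al_k θ y c).mul ?_
    induction n with
    | zero => simpa using isAlgebraic_zero
    | succ n ih =>
      rw [pow_succ', mul_assoc, h.pth _ _ hm]
      convert (al_phi an hθ (h.gpow hu n) hm).add ((al_th θ y).mul ih) using 1
      ring

namespace Dr

omit [IsUltrametricDist F]

variable {θ : F} {E W : Subfield F} {D : F →+ F} (h : Dr k (Fintype.card k) θ E W D)
include h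

lemma dpow {a : F} (ha : a ∈ W) (n : ℕ) : D (a ^ (n + 1)) = (n + 1 : ℕ) * a ^ n * D a := by
  induction n with
  | zero => simp
  | succ n ih => rw [pow_succ, h.mul _ (pow_mem ha _) _ ha, ih]; push_cast; ring

lemma dq {a : F} (ha : a ∈ W) {m : ℕ} (hm : 1 ≤ m) : D (a ^ Fintype.card k ^ m) = 0 := by
  have h0 : Fintype.card k ^ m ≠ 0 := pow_ne_zero _ Fintype.card_ne_zero
  obtain ⟨n, hn⟩ := Nat.exists_eq_add_one_of_ne_zero h0
  rw [hn, h.dpow ha, ← hn, Nat.cast_pow, ← map_natCast (algebraMap k F),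
    FiniteField.cast_card_eq_zero, map_zero, zero_pow (by omega)]
  simp

lemma dterm {a b c : F} (ha : a ∈ W) (hb : b ∈ W) (hc : c ∈ W) (da : D a = 0) (db : D b = 0)
    (dc : D c = 0) : D (a / (b * (c - θ))) = a / (b * (c - θ) ^ 2) := by
  by_cases h0 : b * (c - θ) = 0
  · rw [pow_two, ← mul_assoc, h0]; simp
  obtain ⟨h1, h2⟩ := mul_ne_zero_iff.1 h0
  have hc' := sub_mem hc h.th
  have hr := div_mem ha (mul_mem hb hc')
  have h3 := h.mul _ hr _ (mul_mem hb hc')
  rw [div_mul_cancel₀ _ h0, da, h.mul _ hb _ hc', db, map_sub, dc, h.d1] at h3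
  have h4 : a / (b * (c - θ)) * (b * (c - θ)) = a := div_mul_cancel₀ _ h0
  rw [eq_div_iff (mul_ne_zero h1 (pow_ne_zero _ h2))]
  linear_combination -(c - θ) * h3 + h4

lemma dphi (hx : AX k θ) {u : F} {m : ℕ} (hm : 1 ≤ m) (hu : u ^ Fintype.card k ^ m ∈ E) :
    phi (Fintype.card k) θ u m 0 ∈ W ∧
      D (phi (Fintype.card k) θ u m 0) = phi' (Fintype.card k) θ u m 0 := by
  have h1 := (hx.s1 u m hm).hasSum.tendsto_sum_nat
  have h2 := (hx.s2 u m hm).hasSum.tendsto_sum_nat
  have hE : ∀ i, u ^ Fintype.card k ^ (i + m) ∈ E := fun i => by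
    rw [pow_add, mul_comm, pow_mul]; exact pow_mem hu _
  have hD : ∀ i, cD (Fintype.card k) θ i ∈ W := fun i =>
    prod_mem fun l _ => sub_mem (pow_mem h.th _) (pow_mem h.th _)
  have hW : ∀ n, ∑ i ∈ range n, u ^ Fintype.card k ^ (i + m) /
      (cD (Fintype.card k) θ i ^ Fintype.card k ^ m *
        (θ ^ Fintype.card k ^ (i + m) - θ ^ Fintype.card k ^ 0)) ∈ W := fun n =>
    sum_mem fun i _ => div_mem (h.le (hE i))
      (mul_mem (pow_mem (hD i) _) (sub_mem (pow_mem h.th _) (pow_mem h.th _)))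
  have hm' : phi (Fintype.card k) θ u m 0 ∈ W := h.cl.mem_of_tendsto h1 (Eventually.of_forall hW)
  refine ⟨hm', tendsto_nhds_unique ((h.cont _ hm').tendsto.comp
    (tendsto_nhdsWithin_iff.2 ⟨h1, Eventually.of_forall hW⟩)) (h2.congr fun n => ?_)⟩
  simp only [Function.comp, map_sum, pow_zero, pow_one]
  exact sum_congr rfl fun i _ => (h.dterm (h.le (hE i)) (pow_mem (hD i) _) (pow_mem h.th _)
    (h.d0 _ (hE i)) (h.dq (hD i) hm) (h.dq h.th (by omega))).symm

end Dr

/-- The core applied to the points `u i / θ ^ n`. -/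
lemma app [CompleteSpace F] (core : CoreS) (an : AnS) (jet : JetS) (horn : HornS) {θ y : F}
    (hx : AX k θ) (hθ : 1 < ‖θ‖) {ι : Type} [Fintype ι] (u : ι → F) (hu : ∀ i, Gd k θ y (u i))
    (np : ∀ β : ι → k[X], β ≠ 0 → cE (Fintype.card k) θ (∑ i, aeval θ (β i) * u i) ≠ 0)
    {e : ℕ} (he : 1 ≤ e) (w0 z0 : ι → F) (η0 : F) (hw : ∀ i, Al k θ y (w0 i))
    (hz : ∀ i, Al k θ y (z0 i)) (hd : ∀ i, phi' (Fintype.card k) θ (u i) e 0 = w0 i + η0 * z0 i)
    (d p lam κ : ℕ) (hκ : κ = 3 ∨ (κ = 2 ∧ z0 = 0)) (h1 : κ * p < ∑ _o : Option ι, d)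
    (h2 : d + 2 * lam + 4 ≤ p)
    (ze : ∀ (σ : F →+* F) (x : ι → F) (V V' w z : ℕ → ℕ → ι → F) (η : ℕ → F),
      (∀ y, σ y = y ^ Fintype.card k) → Jet (Fintype.card k) θ x e V V' w z η →
      NT k (Fintype.card k) θ σ x → z e 0 = z0 →
      ZE (Fintype.card k) θ σ e V w z (fun _ => d) p lam) : False := by
  classical
  have h0 : θ ≠ 0 := by rintro rfl; rw [norm_zero] at hθ; linarith
  obtain ⟨n, hn⟩ := pow_unbounded_of_one_lt (∑ i, ‖u i‖) hθ
  have hn0 : θ ^ n ≠ 0 := pow_ne_zero _ h0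
  set v : ι → F := fun i => u i / θ ^ n with hv
  have huv : ∀ i, θ ^ n * v i = u i := fun i => mul_div_cancel₀ _ hn0
  have hv1 : ∀ i, ‖v i‖ ≤ 1 := fun i => by
    rw [hv, norm_div, norm_pow, div_le_one (by positivity)]
    exact (single_le_sum (f := fun i => ‖u i‖) (fun _ _ => norm_nonneg _) (mem_univ i)).trans hn.le
  have gv : ∀ i, Gd k θ y (v i) := fun i => hx.gdiv n (by rw [huv]; exact hu i) h0
  let σ : F →+* F := (FiniteField.frobeniusAlgHom k F).toRingHom
  have hσ : ∀ y, σ y = y ^ Fintype.card k := fun y => rfl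
  set w1 : ι → F := fun i => phi' (Fintype.card k) θ (v i) e 0 - η0 / θ ^ n * z0 i with hw1
  have aw : ∀ i, Al k θ y (w1 i) := fun i => by
    have h3 := hx.defect an hθ (gv i) he (X ^ n)
    rw [aeval_X_pow, huv, hd] at h3
    convert ((al_th (k := k) θ y).pow n).inv.mul ((hw i).sub h3) using 1
    rw [hw1]; field_simp; ring
  obtain ⟨w, z, η, hJ, hwe, hze⟩ := jet k F ι θ (fun i => cE (Fintype.card k) θ (v i)) e
    (fun m j i => phi (Fintype.card k) θ (v i) m j)
    (fun m j i => phi' (Fintype.card k) θ (v i) m j) w1 z0 (η0 / θ ^ n) he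
    (fun m j i hj => by
      obtain ⟨a, b, c, d, -⟩ := (an k F θ (v i) hθ).2 m j hj
      exact ⟨a, b, c, d⟩) (fun i => by rw [hw1]; ring)
  have nt : NT k (Fintype.card k) θ σ fun i => cE (Fintype.card k) θ (v i) := fun T β g hg => by
    by_contra hβ
    apply np β hβ
    have := hx.ezero (horn k F ι θ σ v T β g hθ hσ hg) n
    rw [mul_sum] at this
    rw [← this]
    congr 1
    exact sum_congr rfl fun i _ => by rw [← huv]; ring
  let S : Finset F := insert θ (univ.biUnion fun i => {cE (Fintype.card k) θ (v i),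
    phi (Fintype.card k) θ (v i) e 0, w1 i, z0 i})
  have hS : ∀ ξ ∈ S, Al k θ y ξ := by
    intro ξ hξ
    simp only [S, mem_insert, mem_biUnion, mem_univ, true_and, mem_singleton] at hξ
    rcases hξ with rfl | ⟨i, rfl | rfl | rfl | rfl⟩
    exacts [al_th _ y, (gv i).2, al_phi an hθ (gv i) he, aw i, hz i]
  have hU : ∀ ξ ∈ S, ξ ∈ Submodule.span k (insert 1 (S : Set F)) := fun ξ hξ =>
    Submodule.subset_span (Set.mem_insert_of_mem _ hξ)
  refine core k F ι θ σ _ e _ _ w z η _ (fun _ => d) p lam d κ hθ hσ hJ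
    (hgt norm_fin ![θ, y] hθ S hS) (hU _ (mem_insert_self _ _)) (fun i => ?_)
    (fun m j i hj => ((an k F θ (v i) hθ).2 m j (by omega)).2.2.2.2 (hv1 i))
    (hκ.imp id fun h => ⟨h.1, fun i => Or.inr (by rw [hze, h.2]; rfl)⟩) h1 le_rfl
    (fun _ _ => le_rfl) h2 (ze σ _ _ _ w z η hσ hJ nt hze)
  rw [hwe, hze]
  refine ⟨hU _ ?_, hU _ ?_, hU _ ?_, hU _ ?_⟩ <;>
    exact mem_insert_of_mem (mem_biUnion.2 ⟨i, mem_univ _, by simp⟩)

theorem ax [CompleteSpace F] {θ : F} (hθ : 1 < ‖θ‖) : AX k θ :=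
  have h := fr k F
  ⟨h.cE_add hθ, fun c => h.cE_fix hθ (fix_k c), h.cE_th hθ, fun u v _ => h.phi'_add hθ u v,
    fun c u _ => h.phi'_fix hθ (fix_k c) u, fun u _ hm => by simpa using h.phi'_th hθ u hm,
    fun u _ hm => (h.hasSum_phi hθ u hm).summable, fun u _ hm => (h.hasSum_phi' hθ u hm).summable⟩

theorem b0 : CoreS → ZEHS → ZEVS → AnS → JetS → HornS → B0S := by
  intro core zeh zev an jet horn k F _ _ _ _ _ _ θ u hθ hal np y hu
  classical
  have hx : AX k θ := ax hθ
  obtain ⟨e', E, W, D, hD, hE⟩ := der (k := k) hθ (univ.image u) (by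
    intro s hs
    obtain ⟨i, -, rfl⟩ := mem_image.1 hs
    exact hal i)
  have he : 1 ≤ e' + 1 := by omega
  set e := e' + 1
  have hph := fun i => hD.dphi hx (u := u i) he (by
    rw [pow_succ, pow_mul]; exact pow_mem (hE _ (mem_image_of_mem _ (mem_univ i))) _)
  obtain ⟨w0, z0, η0, hw, hz, hd⟩ := hD.rel y (fun i => phi (Fintype.card k) θ (u i) e 0)
    (fun i => (hph i).1) fun i => al_phi an hθ (hu i) he
  replace hd := fun i => (hph i).2.symm.trans (hd i)
  by_cases hγ : ∀ γ : Fin 3 → k[X], γ ≠ 0 → ∃ a b, aeval θ (γ a) * z0 b ≠ aeval θ (γ b) * z0 a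
  · exact app core an jet horn hx hθ u hu np he w0 z0 η0 hw hz hd 52 68 5 3 (Or.inl rfl)
      (by simp) (by norm_num) fun σ x V V' w z η hσ hJ nt hz' =>
        zeh k F θ σ x e V V' w z η hθ hσ hJ nt (by rw [hz']; exact hγ)
  push Not at hγ
  obtain ⟨γ, hγ0, hγ⟩ := hγ
  obtain ⟨a, ha⟩ := Function.ne_iff.1 hγ0
  let v : Fin 2 → F := fun j =>
    aeval θ (γ a) * u (a.succAbove j) + aeval θ (-γ (a.succAbove j)) * u a
  refine app core an jet horn hx hθ v (fun j => hx.gadd (hx.gpol (hu _) _) (hx.gpol (hu _) _))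
    (fun β hβ => ?_) he (fun j => phi' (Fintype.card k) θ (v j) e 0) 0 0 (fun j => ?_)
    (fun _ => isAlgebraic_zero) (fun j => by simp) 35 51 4 2 (Or.inr ⟨rfl, rfl⟩) (by simp)
    (by norm_num) fun σ x V V' w z η hσ hJ nt _ => zev k F θ σ x e V V' w z η hθ hσ hJ nt
  · have := np (a.insertNth (-∑ j, β j * γ (a.succAbove j)) fun j => β j * γ a) fun h => by
      obtain ⟨j, hj⟩ := Function.ne_iff.1 hβ
      have := congrFun h (a.succAbove j)
      rw [Fin.insertNth_apply_succAbove] at this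
      exact mul_ne_zero hj ha this
    rw [Fin.sum_univ_succAbove _ a] at this
    simp only [Fin.insertNth_apply_same, Fin.insertNth_apply_succAbove] at this
    convert this using 2
    simp only [v, Fin.sum_univ_two, map_neg, map_add, map_mul]
    ring
  · have al_pol : ∀ b : k[X], Al k θ y (aeval θ b) := fun b => by
      induction b using Polynomial.induction_on' with
      | add a b ha hb => rw [map_add]; exact ha.add hb
      | monomial n c => rw [aeval_monomial]; exact (al_k θ y c).mul ((al_th θ y).pow n)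
    have h1 := hx.defect an hθ (hu (a.succAbove j)) he (γ a)
    have h2 := hx.defect an hθ (hu a) he (-γ (a.succAbove j))
    rw [hd] at h1 h2
    convert ((h1.add h2).add ((al_pol (γ a)).mul (hw (a.succAbove j)))).add
      ((al_pol (-γ (a.succAbove j))).mul (hw a)) using 1
    rw [hx.padd _ _ _ he]
    simp only [map_neg]
    linear_combination η0 * hγ a (a.succAbove j)

end Pool.Agent.CSU
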