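import Pool.Agent.Lib.MP_bf776f_nt.SU.An

/-! The Horner scheme: a torsion relation comes from a period. -/

namespace Pool.Agent.CSU

open Polynomial Finset

lemma horn_aux {k F ι : Type} [Field k] [Fintype k] [NormedField F] [IsUltrametricDist F]
    [CompleteSpace F] [Algebra k F] [Fintype ι] {θ : F} (hθ : 1 < ‖θ‖) (u : ι → F) (T n : ℕ) :
    ∀ (β : ι → k[X]) (G : ℕ → F), (∀ i l, n ≤ l → (β i).coeff l = 0) → G n = 0 →
      (∀ l, G l = θ ^ Fintype.card k ^ T * G (l + 1) + G (l + 1) ^ Fintype.card k +
        ∑ i, cE (Fintype.card k) θ (u i) ^ Fintype.card k ^ T * algebraMap k F ((β i).coeff l)) →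
      G 0 = cE (Fintype.card k) θ (∑ i, aeval θ (β i) * u i) ^ Fintype.card k ^ T := by
  have h := fr k F
  induction n with
  | zero =>
    intro β G hβ h0 _
    have : ∀ i, β i = 0 := fun i => Polynomial.ext fun l => hβ i l (Nat.zero_le l)
    simp [this, h0, h.cE_zero hθ]
  | succ n ih =>
    intro β G hβ h0 hG
    have h1 := ih (fun i => (β i).divX) (fun l => G (l + 1))
      (fun i l hl => by rw [coeff_divX]; exact hβ i _ (by omega)) h0
      fun l => by simpa only [coeff_divX] using hG (l + 1)
    have h2 : ∑ i, aeval θ (β i) * u i =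
        θ * ∑ i, aeval θ (β i).divX * u i + ∑ i, (β i).coeff 0 • u i := by
      rw [mul_sum, ← sum_add_distrib]
      refine sum_congr rfl fun i _ => ?_
      conv_lhs => rw [← divX_mul_X_add (β i)]
      simp only [map_add, map_mul, aeval_X, aeval_C, Algebra.smul_def]
      ring
    have h3 : cE (Fintype.card k) θ (∑ i, (β i).coeff 0 • u i) =
        ∑ i, cE (Fintype.card k) θ (u i) * algebraMap k F ((β i).coeff 0) :=
      (map_sum (cEL k hθ) _ _).trans (sum_congr rfl fun i _ => by
        rw [map_smul, Algebra.smul_def, mul_comm]; rfl)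
    obtain ⟨τ, hτ⟩ := h.exm T
    rw [hG 0, zero_add, h1, h2, h.cE_add hθ, h.cE_th hθ, h3, h.add_pow, h.add_pow, mul_pow,
      pow_right_comm, ← hτ (∑ i, _), map_sum]
    congr 1
    exact sum_congr rfl fun i _ => by rw [hτ, mul_pow, Fr.fix_pow (fix_k _)]

theorem horn : HornS := by
  intro k F ι _ _ _ _ _ _ _ θ σ u T β g hθ hσ hg
  classical
  have := horn_aux hθ u T (g.natDegree + 2 + univ.sup fun i => (β i).natDegree) β
    (fun l => (X * g).coeff l) (fun i l hl => coeff_eq_zero_of_natDegree_lt (by
      have := le_sup (f := fun i => (β i).natDegree) (mem_univ i); omega)) (by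
      rw [add_right_comm, ← one_add_one_eq_two, ← add_assoc, coeff_X_mul]
      exact coeff_eq_zero_of_natDegree_lt (by omega)) fun l => by
      have := congrArg (coeff · l) hg
      simp only [coeff_map, hσ, sub_mul, coeff_sub, coeff_C_mul, finsetSum_coeff] at this
      simp only [coeff_X_mul]
      linear_combination -this
  rw [mul_coeff_zero, coeff_X_zero, zero_mul] at this
  exact pow_eq_zero_iff (pow_ne_zero _ Fintype.card_ne_zero) |>.1 this.symm

end Pool.Agent.CSU
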