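import Pool.Agent.Lib.MP_bf776f_nt.SU.Defs

/-! Block statements. -/

namespace Pool.Agent.CSU

open Polynomial Finset

/-- Hermite interpolation bound: simple nodes `s`, double nodes `t`. -/
def IntS : Prop :=
  ∀ (F : Type) [NormedField F] [IsUltrametricDist F] (c : ℕ → F) (s t : Finset ℕ) (G : F[X])
    (y : F) (ε : ℝ), t ⊆ s → 0 ≤ ε →
    (∀ i ∈ s, ∀ j ∈ s, i ≠ j → 1 ≤ ‖c i - c j‖) → G.degree < (s.card + t.card : ℕ) →
    (∀ i ∈ s, ‖G.eval (c i)‖ ≤ ε) → (∀ i ∈ t, ‖(derivative G).eval (c i)‖ ≤ ε) →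
    ∀ r : ℕ → ℝ, (∀ i ∈ s, 1 ≤ r i ∧ ‖y - c i‖ ≤ r i) → ‖G.eval y‖ ≤ ε * ∏ i ∈ s, r i ^ 2

/-- Siegel lemma for the height filtration (helper37's `Ht.sie`). -/
def SieS : Prop :=
  ∀ (k F : Type) [Field k] [NormedField F] [IsUltrametricDist F] [Algebra k F] (θ : F)
    (U : Submodule k F), Ht θ U → ∀ m : ℕ, 1 ≤ m → ∃ c : ℕ,
    ∀ (ι κ : Type) [Fintype ι] [Fintype κ] [Nonempty ι] (a : κ → ι → F) (n t : ℕ), n ≤ 2 ^ t →
      (∀ s i, a s i ∈ U ^ n) → (m + 1) * Fintype.card κ ≤ m * Fintype.card ι →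
      ∃ b : ι → F, b ≠ 0 ∧ (∀ i, b i ∈ U ^ (c * (t + 1) * n)) ∧ ∀ s, ∑ i, a s i * b i = 0

/-- The core: Siegel + smallness + Gelfond, given a zero estimate. -/
def CoreS : Prop :=
  ∀ (k F ι : Type) [Field k] [Fintype k] [NormedField F] [IsUltrametricDist F] [Algebra k F]
    [Fintype ι] (θ : F) (σ : F →+* F) (x : ι → F) (e : ℕ) (V V' w z : ℕ → ℕ → ι → F) (η : ℕ → F)
    (U : Submodule k F) (d : Option ι → ℕ) (p lam ds κ : ℕ),
    1 < ‖θ‖ → (∀ y, σ y = y ^ Fintype.card k) → Jet (Fintype.card k) θ x e V V' w z η →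
    Ht θ U → θ ∈ U → (∀ i, x i ∈ U ∧ V e 0 i ∈ U ∧ w e 0 i ∈ U ∧ z e 0 i ∈ U) →
    (∀ m j i, j + e ≤ m → ‖V m j i‖ * ‖θ‖ ^ Fintype.card k ^ m ≤ 1 ∧
      ‖V' m j i‖ * ‖θ‖ ^ Fintype.card k ^ m ≤ 1) →
    (κ = 3 ∨ (κ = 2 ∧ ∀ i, d (some i) = 0 ∨ z e 0 i = 0)) → κ * p < ∑ o, d o →
    d none ≤ ds → (∀ i, x i ≠ 0 → d (some i) ≤ ds) → ds + 2 * lam + 4 ≤ p →
    ZE (Fintype.card k) θ σ e V w z d p lam → False

/-- Analysis of the generating functions. -/
def AnS : Prop :=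
  ∀ (k F : Type) [Field k] [Fintype k] [NormedField F] [IsUltrametricDist F] [CompleteSpace F]
    [Algebra k F] (θ u : F), 1 < ‖θ‖ →
    phi (Fintype.card k) θ u 1 0 = cE (Fintype.card k) θ u - u ∧
    ∀ m j, j < m →
      phi (Fintype.card k) θ u (m + 1) j =
        (θ ^ Fintype.card k ^ j - θ ^ Fintype.card k ^ m) * phi (Fintype.card k) θ u m j +
          cE (Fintype.card k) θ u ^ Fintype.card k ^ m ∧
      phi' (Fintype.card k) θ u (m + 1) j = phi (Fintype.card k) θ u m j +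
        (θ ^ Fintype.card k ^ j - θ ^ Fintype.card k ^ m) * phi' (Fintype.card k) θ u m j ∧
      phi (Fintype.card k) θ u (m + 1) (j + 1) = phi (Fintype.card k) θ u m j ^ Fintype.card k ∧
      phi' (Fintype.card k) θ u (m + 1) (j + 1) = phi' (Fintype.card k) θ u m j ^ Fintype.card k ∧
      (‖u‖ ≤ 1 → ‖phi (Fintype.card k) θ u m j‖ * ‖θ‖ ^ Fintype.card k ^ m ≤ 1 ∧
        ‖phi' (Fintype.card k) θ u m j‖ * ‖θ‖ ^ Fintype.card k ^ m ≤ 1)

/-- A torsion relation between the `e(u i)` comes from a period (Horner scheme). -/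
def HornS : Prop :=
  ∀ (k F ι : Type) [Field k] [Fintype k] [NormedField F] [IsUltrametricDist F] [CompleteSpace F]
    [Algebra k F] [Fintype ι] (θ : F) (σ : F →+* F) (u : ι → F) (T : ℕ) (β : ι → k[X])
    (g : F[X]), 1 < ‖θ‖ → (∀ y, σ y = y ^ Fintype.card k) →
    g.map σ = (X - C (θ ^ Fintype.card k ^ T)) * g -
      ∑ i, C (cE (Fintype.card k) θ (u i) ^ Fintype.card k ^ T) * (β i).map (algebraMap k F) →
    cE (Fintype.card k) θ (∑ i, aeval θ (β i) * u i) = 0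

/-- Zero estimate, three points, `z` not parallel to a rational vector. -/
def ZEHS : Prop :=
  ∀ (k F : Type) [Field k] [Fintype k] [NormedField F] [IsUltrametricDist F] [Algebra k F]
    (θ : F) (σ : F →+* F) (x : Fin 3 → F) (e : ℕ) (V V' w z : ℕ → ℕ → Fin 3 → F) (η : ℕ → F),
    1 < ‖θ‖ → (∀ y, σ y = y ^ Fintype.card k) → Jet (Fintype.card k) θ x e V V' w z η →
    NT k (Fintype.card k) θ σ x →
    (∀ γ : Fin 3 → k[X], γ ≠ 0 → ∃ a b, aeval θ (γ a) * z e 0 b ≠ aeval θ (γ b) * z e 0 a) →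
    ZE (Fintype.card k) θ σ e V w z (fun _ => 52) 68 5

/-- Zero estimate, two points, double zeros only. -/
def ZEVS : Prop :=
  ∀ (k F : Type) [Field k] [Fintype k] [NormedField F] [IsUltrametricDist F] [Algebra k F]
    (θ : F) (σ : F →+* F) (x : Fin 2 → F) (e : ℕ) (V V' w z : ℕ → ℕ → Fin 2 → F) (η : ℕ → F),
    1 < ‖θ‖ → (∀ y, σ y = y ^ Fintype.card k) → Jet (Fintype.card k) θ x e V V' w z η →
    NT k (Fintype.card k) θ σ x →
    ZE (Fintype.card k) θ σ e V w z (fun _ => 35) 51 4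

/-- Construction of the jet data from the base level. -/
def JetS : Prop :=
  ∀ (k F ι : Type) [Field k] [Fintype k] [Field F] [Algebra k F] [Fintype ι] (θ : F) (x : ι → F)
    (e : ℕ) (V V' : ℕ → ℕ → ι → F) (w0 z0 : ι → F) (η0 : F), 1 ≤ e →
    (∀ m j i, j < m →
      V (m + 1) j i = (θ ^ Fintype.card k ^ j - θ ^ Fintype.card k ^ m) * V m j i +
          x i ^ Fintype.card k ^ m ∧
      V' (m + 1) j i = V m j i + (θ ^ Fintype.card k ^ j - θ ^ Fintype.card k ^ m) * V' m j i ∧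
      V (m + 1) (j + 1) i = V m j i ^ Fintype.card k ∧
      V' (m + 1) (j + 1) i = V' m j i ^ Fintype.card k) →
    (∀ i, V' e 0 i = w0 i + η0 * z0 i) →
    ∃ (w z : ℕ → ℕ → ι → F) (η : ℕ → F), Jet (Fintype.card k) θ x e V V' w z η ∧
      w e 0 = w0 ∧ z e 0 = z0

/-- The closure of `k(θ)` in `F`. -/
noncomputable def Kinf (k : Type) {F : Type} [Field k] [NormedField F] [Algebra k F] (θ : F) :
    Subfield F :=
  (Subfield.closure (Set.range (algebraMap k F) ∪ {θ})).topologicalClosure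

/-- Three points, no period in their span. -/
def B0S : Prop :=
  ∀ (k F : Type) [Field k] [Fintype k] [NormedField F] [IsUltrametricDist F] [CompleteSpace F]
    [Algebra k F] (θ : F) (u : Fin 3 → F), 1 < ‖θ‖ → (∀ i, IsAlgebraic (Kinf k θ) (u i)) →
    (∀ β : Fin 3 → k[X], β ≠ 0 → cE (Fintype.card k) θ (∑ i, aeval θ (β i) * u i) ≠ 0) →
    ∀ y : F, ¬ ∀ i, IsAlgebraic (Algebra.adjoin k (Set.range ![θ, y])) (u i) ∧
      IsAlgebraic (Algebra.adjoin k (Set.range ![θ, y])) (cE (Fintype.card k) θ (u i))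

/-- A period and one more point (helper37's theorem). -/
def AS : Prop :=
  ∀ (k F : Type) [Field k] [Fintype k] [NormedField F] [IsUltrametricDist F] [CompleteSpace F]
    [Algebra k F] (θ lam u : F), 1 < ‖θ‖ → lam ≠ 0 → cE (Fintype.card k) θ lam = 0 →
    (∀ a b : k[X], b ≠ 0 → aeval θ b * u ≠ aeval θ a * lam) →
    ∀ y : F, ¬ (IsAlgebraic (Algebra.adjoin k (Set.range ![θ, y])) lam ∧
      IsAlgebraic (Algebra.adjoin k (Set.range ![θ, y])) u ∧
      IsAlgebraic (Algebra.adjoin k (Set.range ![θ, y])) (cE (Fintype.card k) θ u))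

end Pool.Agent.CSU
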