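import Pool.Agent.Lib.MP_bf776f_nt.SU.An2
import Pool.Agent.Lib.MP_bf776f_nt.SU.Der
import Pool.Agent.Lib.MP_bf776f_nt.SU.St2

/-! The kernel of the Carlitz exponential. -/

namespace Pool.Agent.CSU

open Finset Filter Polynomial Topology

/-- Elements fixed by Frobenius come from the finite field. -/
theorem of_fix {k F : Type} [Field k] [Fintype k] [Field F] [Algebra k F] {c : F}
    (hc : c ^ Fintype.card k = c) : ∃ a : k, algebraMap k F a = c := by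
  have h1 : (X ^ Fintype.card k - X : k[X]).Splits := by
    rw [splits_iff_card_roots, FiniteField.roots_X_pow_card_sub_X, ← Finset.card_def,
      Finset.card_univ, FiniteField.X_pow_card_sub_X_natDegree_eq _ Fintype.one_lt_card]
  exact h1.mem_range_of_isRoot (i := algebraMap k F)
    (FiniteField.X_pow_card_sub_X_ne_zero k Fintype.one_lt_card) (by simp [hc])

namespace Fr

variable {F : Type} {q : ℕ} [NormedField F] [IsUltrametricDist F] {θ : F}

theorem tb (h : Fr q F) (hθ : 1 < ‖θ‖) {u : F} {g : ℝ} (hg : 0 < g) (hu : ‖u‖ ≤ g) (m : ℕ)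
    (b : ℕ → F) (hb : ∀ i, g ^ q ^ (i + m) ≤ ‖b i‖) :
    ‖∑' i, cT q θ u m i / b i‖ ≤ (‖u‖ / g) ^ q ^ m := by
  refine IsUltrametricDist.norm_tsum_le_of_forall_le_of_nonneg (by positivity) fun i => ?_
  rw [norm_div, h.norm_cT hθ]
  have h1 : ‖u‖ * ‖θ‖⁻¹ ^ i ≤ ‖u‖ := mul_le_of_le_one_right (norm_nonneg u)
    (pow_le_one₀ (by positivity) (inv_le_one_of_one_le₀ hθ.le))
  refine (div_le_div₀ (by positivity) (pow_le_pow_left₀ (by positivity) h1 _) (by positivity)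
    (hb i)).trans ?_
  rw [← div_pow]
  exact pow_le_pow_of_le_one (by positivity) ((div_le_one hg).2 hu)
    (Nat.pow_le_pow_right (by have := h.lt; omega) (by omega))

variable [CompleteSpace F]

theorem disc_sub (h : Fr q F) (hθ : 1 < ‖θ‖) {z : F} (hz : ‖z‖ ≤ ‖θ‖) :
    ‖z - cE q θ z‖ ≤ ‖z‖ * ‖θ‖⁻¹ := by
  have h0 : 0 < ‖θ‖ := by positivity
  rw [norm_sub_rev, ← h.phi_one hθ, phi_eq, ← div_eq_mul_inv]
  refine (h.tb hθ h0 hz 1 _ fun i => (h.norm_sub hθ i.succ_pos).ge).trans ?_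
  exact pow_le_of_le_one (by positivity) ((div_le_one h0).2 hz)
    (pow_pos (by have := h.lt; omega) _).ne'

/-- `e` is an isometry on the disc of radius `‖θ‖`. -/
theorem disc_norm (h : Fr q F) (hθ : 1 < ‖θ‖) {z : F} (hz : ‖z‖ ≤ ‖θ‖) : ‖cE q θ z‖ = ‖z‖ := by
  rcases eq_or_ne z 0 with rfl | h0
  · rw [h.cE_zero hθ]
  have h1 : ‖cE q θ z - z‖ < ‖z‖ := by
    rw [norm_sub_rev]
    exact (h.disc_sub hθ hz).trans_lt
      (mul_lt_of_lt_one_right (norm_pos_iff.2 h0) (inv_lt_one_of_one_lt₀ hθ))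
  have h2 := IsUltrametricDist.norm_add_eq_max_of_norm_ne_norm h1.ne
  rwa [sub_add_cancel, max_eq_right h1.le] at h2

theorem cE_sub (h : Fr q F) (hθ : 1 < ‖θ‖) (u v : F) :
    cE q θ (u - v) = cE q θ u - cE q θ v :=
  map_sub (AddMonoidHom.mk' (cE q θ) (h.cE_add hθ)) u v

theorem cE_cont (h : Fr q F) (hθ : 1 < ‖θ‖) : Continuous (cE q θ) := by
  refine continuous_of_continuousAt_zero (AddMonoidHom.mk' (cE q θ) (h.cE_add hθ)) ?_
  rw [ContinuousAt, map_zero, tendsto_zero_iff_norm_tendsto_zero]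
  refine (continuous_norm.tendsto' (0 : F) 0 norm_zero).congr' ?_
  filter_upwards [Metric.closedBall_mem_nhds (0 : F) one_pos] with z hz
  exact (h.norm_cE hθ (by simpa using hz)).symm

/-- `e` maps the disc of a closed subfield onto itself. -/
theorem disc_onto (h : Fr q F) (hθ : 1 < ‖θ‖) {L : Subfield F} (hL : IsClosed (L : Set F))
    (h1 : θ ∈ L) {x : F} (h2 : x ∈ L) (hx : ‖x‖ ≤ ‖θ‖) :
    ∃ s ∈ L, cE q θ s = x ∧ ‖s‖ = ‖x‖ := by
  obtain ⟨r, r0, rs⟩ : ∃ r : ℕ → F, r 0 = x ∧ ∀ n, r (n + 1) = r n - cE q θ (r n) :=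
    ⟨fun n => (fun z => z - cE q θ z)^[n] x, rfl, fun n => Function.iterate_succ_apply' _ _ _⟩
  have hi : ‖θ‖⁻¹ < 1 := inv_lt_one_of_one_lt₀ hθ
  have k0 : ∀ n : ℕ, ‖x‖ * ‖θ‖⁻¹ ^ n ≤ ‖θ‖ := fun n =>
    (mul_le_of_le_one_right (norm_nonneg x) (pow_le_one₀ (by positivity) hi.le)).trans hx
  have k1 : ∀ n, r n ∈ L ∧ ‖r n‖ ≤ ‖x‖ * ‖θ‖⁻¹ ^ n := by
    intro n
    induction n with
    | zero => exact ⟨r0 ▸ h2, by simp [r0]⟩
    | succ n ih =>
      rw [rs, pow_succ, ← mul_assoc]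
      exact ⟨sub_mem ih.1 (h.cE_mem hθ hL h1 ih.1), (h.disc_sub hθ (ih.2.trans (k0 n))).trans
        (mul_le_mul_of_nonneg_right ih.2 (by positivity))⟩
  have k2 : Summable r := Summable.of_norm_bounded
    ((summable_geometric_of_lt_one (by positivity) hi).mul_left ‖x‖) fun n => (k1 n).2
  have k3 : HasSum (fun n => cE q θ (r n)) (cE q θ (∑' n, r n)) :=
    k2.hasSum.map (AddMonoidHom.mk' (cE q θ) (h.cE_add hθ)) (h.cE_cont hθ)
  have k4 := shift (k2.hasSum.sub k3) k2.hasSum rs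
  have k5 : cE q θ (∑' n, r n) = x := by rw [← r0]; linear_combination -k4
  have k6 : ‖∑' n, r n‖ ≤ ‖θ‖ := IsUltrametricDist.norm_tsum_le_of_forall_le_of_nonneg
    (norm_nonneg θ) fun n => (k1 n).2.trans (k0 n)
  exact ⟨_, mem_of_hasSum hL k2.hasSum fun n => (k1 n).1, k5, by rw [← h.disc_norm hθ k6, k5]⟩

theorem tors_div (h : Fr q F) (hθ : 1 < ‖θ‖) {v : F} (hv : cE q θ v = 0) :
    θ * cE q θ (v / θ) + cE q θ (v / θ) ^ q = 0 := by
  rw [← h.cE_th hθ, mul_div_cancel₀ _ (norm_pos_iff.1 (by positivity)), hv]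

omit [IsUltrametricDist F] [CompleteSpace F] in
theorem norm_div_th (hθ : 1 < ‖θ‖) {v : F} {n : ℕ} (hv : ‖v‖ ≤ ‖θ‖ ^ (n + 1 + 1)) :
    ‖v / θ‖ ≤ ‖θ‖ ^ (n + 1) := by
  rwa [norm_div, div_le_iff₀ (by positivity), ← pow_succ]

omit [IsUltrametricDist F] [CompleteSpace F] in
theorem ex_pow (hθ : 1 < ‖θ‖) (v : F) : ∃ n : ℕ, ‖v‖ ≤ ‖θ‖ ^ (n + 1) := by
  obtain ⟨n, hn⟩ := pow_unbounded_of_one_lt ‖v‖ hθ
  exact ⟨n, hn.le.trans (pow_le_pow_right₀ hθ.le n.le_succ)⟩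

theorem ex_tors (h : Fr q F) (hθ : 1 < ‖θ‖) (n : ℕ) : ∀ v : F, v ≠ 0 → cE q θ v = 0 →
    ‖v‖ ≤ ‖θ‖ ^ (n + 1) → ∃ x : F, x ≠ 0 ∧ θ * x + x ^ q = 0 := by
  induction n with
  | zero =>
    intro v h0 h1 h2
    have := h.disc_norm hθ (by simpa using h2 : ‖v‖ ≤ ‖θ‖)
    rw [h1, norm_zero] at this
    exact absurd (norm_eq_zero.1 this.symm) h0
  | succ n ih =>
    intro v h0 h1 h2
    by_cases h3 : cE q θ (v / θ) = 0
    · exact ih _ (div_ne_zero h0 (norm_pos_iff.1 (by positivity))) h3 (norm_div_th hθ h2)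
    · exact ⟨_, h3, h.tors_div hθ h1⟩

theorem norm_phi_per (h : Fr q F) (hθ : 1 < ‖θ‖) {l : F} {s : ℝ} (hl : cE q θ l = 0)
    (h1 : ‖l‖ = s ^ q) (h2 : ‖θ‖ * s = s ^ q) {m : ℕ} (hm : 1 ≤ m) :
    ‖phi q θ l m 0‖ = s ^ q ^ m := by
  induction m, hm using Nat.le_induction with
  | base => rw [h.phi_one hθ, hl, zero_sub, norm_neg, pow_one, h1]
  | succ m hm ih =>
    rw [h.phi_succ hθ l hm, hl, zero_pow (pow_pos (by have := h.lt; omega) _).ne', add_zero,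
      norm_mul, norm_sub_rev, h.norm_sub hθ hm, ih, ← mul_pow, h2, ← pow_mul, ← pow_succ']

theorem per_bounds (h : Fr q F) (hθ : 1 < ‖θ‖) {l : F} {s : ℝ} (hl : cE q θ l = 0)
    (h1 : ‖l‖ = ‖θ‖ * s) (h2 : ‖θ‖ * s = s ^ q) (h3 : 1 ≤ s) (h4 : s ≤ ‖θ‖) {m j : ℕ}
    (hj : j < m) : ‖(phi q θ l m 0)⁻¹‖ ≤ 1 ∧
      ‖(phi q θ l m 0)⁻¹ * phi q θ l m j - 1‖ * ‖θ‖ ^ q ^ m ≤ ‖θ‖ ^ q ^ j ∧
      ‖(phi q θ l m 0)⁻¹ * phi' q θ l m j‖ * ‖θ‖ ^ q ^ m ≤ 1 := by
  have h0 : 0 < ‖θ‖ := by positivity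
  have hm : 0 < m := by omega
  have hP := h.norm_phi_per hθ hl (h1.trans h2) h2 hm
  have hP0 : phi q θ l m 0 ≠ 0 := norm_pos_iff.1 (by rw [hP]; positivity)
  have key : ∀ b : ℕ → F, (∀ i, ‖b i‖ = ‖θ‖ ^ q ^ (i + m) * ‖θ‖ ^ q ^ (i + m)) →
      ‖(phi q θ l m 0)⁻¹ * ∑' i, cT q θ l m i / b i‖ * ‖θ‖ ^ q ^ m ≤ 1 := by
    intro b hb
    have k1 := h.tb hθ (mul_pos h0 h0) (h1 ▸ mul_le_mul_of_nonneg_left h4 h0.le) m b
      fun i => by rw [hb, mul_pow]
    rw [h1, mul_div_mul_left _ _ h0.ne', div_pow, le_div_iff₀ (by positivity)] at k1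
    rw [norm_mul, norm_inv, hP, mul_assoc, inv_mul_le_iff₀ (by positivity), mul_one]
    exact k1
  refine ⟨?_, ?_, ?_⟩
  · rw [norm_inv, hP]
    exact inv_le_one_of_one_le₀ (one_le_pow₀ h3)
  · have k1 := key (fun i => (θ ^ q ^ (i + m) - θ ^ q ^ j) * (θ ^ q ^ (i + m) - θ ^ q ^ 0))
      fun i => by rw [norm_mul, h.norm_sub hθ (by omega), h.norm_sub hθ (by omega)]
    have k2 : phi q θ l m j - phi q θ l m 0 = (θ ^ q ^ j - θ ^ q ^ 0) * ∑' i, cT q θ l m i /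
        ((θ ^ q ^ (i + m) - θ ^ q ^ j) * (θ ^ q ^ (i + m) - θ ^ q ^ 0)) := by
      refine uniq ((h.hs_phi hθ l hj).sub (h.hs_phi hθ l hm)) ((h.summ hθ l m _ fun i => by
        rw [norm_mul]
        exact one_le_mul_of_one_le_of_one_le (h.one_le_sub hθ (by omega))
          (h.one_le_sub hθ (by omega))).hasSum.mul_left _) fun i => ?_
      have := h.sub_ne hθ (show j < i + m by omega)
      have := h.sub_ne hθ (show 0 < i + m by omega)
      field_simp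
      ring
    have k3 : ‖θ ^ q ^ j - θ ^ q ^ 0‖ ≤ ‖θ‖ ^ q ^ j := by
      rcases j.eq_zero_or_pos with rfl | hj0
      · rw [sub_self, norm_zero]; positivity
      · exact (h.norm_sub hθ hj0).le
    rw [← inv_mul_cancel₀ hP0, ← mul_sub, k2, mul_left_comm, norm_mul, mul_assoc]
    exact (mul_le_mul k3 k1 (by positivity) (by positivity)).trans_eq (mul_one _)
  · rw [phi'_eq]
    exact key _ fun i => by rw [sq, norm_mul, h.norm_sub hθ (by omega)]

end Fr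

variable {k F : Type} [Field k] [Fintype k] [NormedField F] [IsUltrametricDist F]
  [CompleteSpace F] [Algebra k F] {θ : F}

omit [Fintype k] [IsUltrametricDist F] in
/-- An element algebraic over `K_∞` lies in a closed subfield algebraic over `K_∞`. -/
theorem ex_closed (hθ : 1 < ‖θ‖) {x : F} (hx : IsAlgebraic (Kinf k θ) x) :
    ∃ L : Subfield F, IsClosed (L : Set F) ∧ θ ∈ L ∧ x ∈ L ∧
      ∀ y ∈ L, IsAlgebraic (Kinf k θ) y := by
  have hK : θ ∈ Kinf k θ :=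
    Subfield.le_topologicalClosure _ (Subfield.subset_closure (Or.inr rfl))
  have := IntermediateField.adjoin.finiteDimensional hx.isIntegral
  refine ⟨(IntermediateField.adjoin (Kinf k θ) {x}).toSubfield,
    (fd_closed (Kinf k θ) (Subfield.isClosed_topologicalClosure _) hK hθ
      (IntermediateField.adjoin (Kinf k θ) {x}).toSubmodule).1,
    (IntermediateField.adjoin (Kinf k θ) {x}).algebraMap_mem ⟨θ, hK⟩,
    IntermediateField.mem_adjoin_simple_self _ x, fun y hy => ?_⟩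
  exact IntermediateField.isAlgebraic_iff.1
    (Algebra.IsAlgebraic.isAlgebraic (⟨y, hy⟩ : IntermediateField.adjoin (Kinf k θ) {x}))

/-- If `e(u)` is algebraic over `K_∞`, so is `u`. -/
theorem alg_of_cE (hθ : 1 < ‖θ‖) {u : F}
    (hu : IsAlgebraic (Kinf k θ) (cE (Fintype.card k) θ u)) : IsAlgebraic (Kinf k θ) u := by
  have h := fr k F
  have hθ0 : θ ≠ 0 := norm_pos_iff.1 (by positivity)
  have hK : IsAlgebraic (Kinf k θ) θ := isAlgebraic_algebraMap (⟨θ,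
    Subfield.le_topologicalClosure _ (Subfield.subset_closure (Or.inr rfl))⟩ : Kinf k θ)
  obtain ⟨n, hn⟩ := Fr.ex_pow hθ u
  induction n generalizing u with
  | zero =>
    rw [zero_add, pow_one] at hn
    obtain ⟨L, hL, h1, h2, h3⟩ := ex_closed hθ hu
    have h4 := h.disc_norm hθ hn
    obtain ⟨s, hs, es, ns⟩ := h.disc_onto hθ hL h1 h2 (h4 ▸ hn)
    have h5 : ‖u - s‖ ≤ ‖θ‖ := by
      rw [sub_eq_add_neg]
      exact (IsUltrametricDist.norm_add_le_max _ _).trans (max_le hn (by rwa [norm_neg, ns, h4]))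
    have h6 := h.disc_norm hθ h5
    rw [h.cE_sub hθ, es, sub_self, norm_zero, eq_comm, norm_eq_zero, sub_eq_zero] at h6
    exact h6 ▸ h3 s hs
  | succ n ih =>
    have h1 := h.cE_th hθ (u / θ)
    rw [mul_div_cancel₀ _ hθ0] at h1
    have h2 : IsIntegral (algebraicClosure (Kinf k θ) F) (cE (Fintype.card k) θ (u / θ)) := by
      refine ⟨X ^ Fintype.card k + (C ⟨θ, mem_algebraicClosure_iff.2 hK⟩ * X -
        C ⟨_, mem_algebraicClosure_iff.2 hu⟩), monic_X_pow_add ?_, ?_⟩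
      · refine (degree_sub_le _ _).trans_lt (max_lt ?_ ?_)
        · exact (degree_C_mul_X_le _).trans_lt (by exact_mod_cast h.lt)
        · exact degree_C_le.trans_lt (by exact_mod_cast Fintype.card_pos)
      · simp only [eval₂_add, eval₂_sub, eval₂_mul, eval₂_pow, eval₂_X, eval₂_C]
        change _ + (θ * _ - cE _ θ u) = 0
        rw [h1]; ring
    have h3 := ih (h2.isAlgebraic.restrictScalars (Kinf k θ)) (Fr.norm_div_th hθ hn)
    simpa only [mul_div_cancel₀ _ hθ0] using hK.mul h3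

theorem ker : KerS := by
  intro k F _ _ _ _ _ _ θ lam hθ h0 hl
  have h := fr k F
  have hq := h.lt
  have hθ0 : θ ≠ 0 := norm_pos_iff.1 (by positivity)
  obtain ⟨n, hn⟩ := Fr.ex_pow hθ lam
  obtain ⟨x, hx0, hx⟩ := h.ex_tors hθ n lam h0 hl hn
  have hs : 0 < ‖x‖ := norm_pos_iff.2 hx0
  have h2 : ‖θ‖ * ‖x‖ = ‖x‖ ^ Fintype.card k := by
    rw [← norm_mul, ← norm_pow, eq_neg_of_add_eq_zero_left hx, norm_neg]
  have h3 : 1 ≤ ‖x‖ := by
    by_contra hc
    have := pow_le_of_le_one hs.le (not_le.1 hc).le (show Fintype.card k ≠ 0 by omega)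
    nlinarith
  have h4 : ‖x‖ ≤ ‖θ‖ := by
    have := pow_le_pow_right₀ h3 (show 2 ≤ Fintype.card k from hq)
    nlinarith
  have hK : θ ∈ Kinf k θ :=
    Subfield.le_topologicalClosure _ (Subfield.subset_closure (Or.inr rfl))
  have ha : IsAlgebraic (Kinf k θ) x := by
    refine IsIntegral.isAlgebraic ⟨X ^ Fintype.card k + C ⟨θ, hK⟩ * X,
      monic_X_pow_add ((degree_C_mul_X_le _).trans_lt (by exact_mod_cast hq)), ?_⟩
    simp only [eval₂_add, eval₂_mul, eval₂_pow, eval₂_X, eval₂_C]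
    exact (add_comm _ _).trans hx
  obtain ⟨L, hL, hθL, hxL, haL⟩ := ex_closed hθ ha
  obtain ⟨s, hsL, es, ns⟩ := h.disc_onto hθ hL hθL hxL h4
  have el : cE (Fintype.card k) θ (θ * s) = 0 := by rw [h.cE_th hθ, es, hx]
  refine ⟨θ * s, mul_ne_zero hθ0 (norm_pos_iff.1 (ns ▸ hs)), el, haL _ (mul_mem hθL hsL), ?_,
    fun m j hj => h.per_bounds hθ el (by rw [norm_mul, ns]) h2 h3 h4 hj⟩
  have key : ∀ (n : ℕ) (v : F), cE (Fintype.card k) θ v = 0 → ‖v‖ ≤ ‖θ‖ ^ (n + 1) →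
      ∃ a : k[X], v = aeval θ a * (θ * s) := by
    intro n
    induction n with
    | zero =>
      intro v h1 h5
      have := h.disc_norm hθ (by simpa using h5 : ‖v‖ ≤ ‖θ‖)
      rw [h1, norm_zero] at this
      exact ⟨0, by rw [norm_eq_zero.1 this.symm, map_zero, zero_mul]⟩
    | succ n ih =>
      intro v h1 h5
      obtain ⟨c, hc⟩ : ∃ c : k, algebraMap k F c = cE (Fintype.card k) θ (v / θ) / x := by
        refine of_fix ?_
        rw [div_pow, eq_neg_of_add_eq_zero_right hx, eq_neg_of_add_eq_zero_right (h.tors_div hθ h1),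
          neg_div_neg_eq, mul_div_mul_left _ _ hθ0]
      obtain ⟨a, ha⟩ := ih (v / θ - algebraMap k F c * s) (by
        rw [h.cE_sub hθ, h.cE_fix hθ (fix_k c), es, hc, div_mul_cancel₀ _ hx0, sub_self]) (by
        rw [sub_eq_add_neg]
        refine (IsUltrametricDist.norm_add_le_max _ _).trans (max_le (Fr.norm_div_th hθ h5) ?_)
        rw [norm_neg, norm_mul, ns]
        exact ((mul_le_of_le_one_left hs.le (norm_fin c)).trans h4).trans
          (le_self_pow₀ hθ.le n.succ_ne_zero))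
      refine ⟨X * a + C c, ?_⟩
      rw [map_add, map_mul, aeval_X, aeval_C, add_mul, mul_assoc, ← ha]
      field_simp
      ring
  intro v hv
  obtain ⟨n, hn⟩ := Fr.ex_pow hθ v
  exact key n v hv hn

end Pool.Agent.CSU
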