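import Pool.Agent.Lib.MP_bf776f_nt.SU.St

/-! Rows: transport, twist, conditions. -/

namespace Pool.Agent.CSU

open Polynomial Finset

variable {F : Type} [Field F] {ι : Type} [Fintype ι] {q : ℕ} {θ : F} {x : ι → F} {e : ℕ}
  {V V' w z : ℕ → ℕ → ι → F} {η : ℕ → F} {σ : F →+* F}

lemma jet_ind (P : ℕ → ℕ → Prop) (h0 : P e 0) (hr : ∀ m, e ≤ m → P m 0 → P (m + 1) 0)
    (ht : ∀ m j, j + e ≤ m → P m j → P (m + 1) (j + 1)) : ∀ j m, j + e ≤ m → P m j := by
  intro j
  induction j with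
  | zero =>
    intro m hm
    rw [zero_add] at hm
    induction m, hm using Nat.le_induction with
    | base => exact h0
    | succ m hm ih => exact hr m hm ih
  | succ j ih =>
    intro m hm
    obtain ⟨m, rfl⟩ : ∃ m', m = m' + 1 := ⟨m - 1, by omega⟩
    exact ht m j (by omega) (ih m (by omega))

@[simp] lemma trA_some (m : ℕ) (R : Option ι → F[X]) (i : ι) :
    trA q θ x m R (some i) = R (some i) := rfl

lemma trA_none (m : ℕ) (R : Option ι → F[X]) :
    trA q θ x m R none = (X - C (θ ^ q ^ m)) * R none - ∑ i, C (x i ^ q ^ m) * R (some i) := rfl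

lemma rv_trA (m : ℕ) (R : Option ι → F[X]) (c a : F) (y : ι → F) :
    rv (trA q θ x m R) c a y = (c - θ ^ q ^ m) * (R none).eval c * a +
      ∑ i, (R (some i)).eval c * (y i - x i ^ q ^ m * a) := by
  simp only [rv, trA_none, trA_some, eval_sub, eval_mul, eval_X, eval_C, eval_finset_sum,
    mul_sub, sum_sub_distrib, sub_mul, sum_mul]
  have : ∀ i, eval c (R (some i)) * (x i ^ q ^ m * a) = x i ^ q ^ m * eval c (R (some i)) * a :=
    fun i => by ring
  simp only [this]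
  ring

lemma rv_dtrA (m : ℕ) (R : Option ι → F[X]) (c a : F) (y : ι → F) :
    rv (fun o => derivative (trA q θ x m R o)) c a y = (R none).eval c * a +
      (c - θ ^ q ^ m) * (derivative (R none)).eval c * a +
      ∑ i, (derivative (R (some i))).eval c * (y i - x i ^ q ^ m * a) := by
  simp only [rv, trA_none, trA_some, derivative_sub, derivative_mul, derivative_sum, derivative_X,
    derivative_C, eval_sub, eval_add, eval_mul, eval_X, eval_C, eval_finset_sum, zero_mul,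
    zero_add, sub_zero, one_mul, mul_sub, sum_sub_distrib, sub_mul, sum_mul]
  have : ∀ i, eval c (derivative (R (some i))) * (x i ^ q ^ m * a) =
      x i ^ q ^ m * eval c (derivative (R (some i))) * a := fun i => by ring
  simp only [this]
  ring

lemma Jet.val_trA (h : Jet q θ x e V V' w z η) {m j : ℕ} (hj : j + e ≤ m) (R : Option ι → F[X]) :
    rv (trA q θ x m R) (θ ^ q ^ j) 1 (V (m + 1) j) =
      (θ ^ q ^ j - θ ^ q ^ m) * rv R (θ ^ q ^ j) 1 (V m j) := by
  rw [rv_trA]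
  simp only [h.Vrec m j _ hj, rv, mul_add, mul_sum]
  congr 1
  · ring
  · exact sum_congr rfl fun i _ => by ring

lemma Jet.cond_trA (h : Jet q θ x e V V' w z η) {m j : ℕ} (hj : j + e ≤ m) {R : Option ι → F[X]}
    (hR : Cond R (θ ^ q ^ j) (V m j) (w m j) (z m j)) :
    Cond (trA q θ x m R) (θ ^ q ^ j) (V (m + 1) j) (w (m + 1) j) (z (m + 1) j) := by
  obtain ⟨h1, h2, h3⟩ := hR
  refine ⟨by rw [h.val_trA hj, h1, mul_zero], ?_, ?_⟩
  · rw [rv_dtrA, rv_trA]
    simp only [h.Vrec m j _ hj, h.wrec m j _ hj]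
    simp only [rv, mul_one, mul_zero, zero_add, sub_zero, add_sub_cancel_right] at h1 h2 ⊢
    have e1 : ∀ i, eval (θ ^ q ^ j) (derivative (R (some i))) * ((θ ^ q ^ j - θ ^ q ^ m) * V m j i)
        = (θ ^ q ^ j - θ ^ q ^ m) * (eval (θ ^ q ^ j) (derivative (R (some i))) * V m j i) :=
      fun i => by ring
    have e2 : ∀ i, eval (θ ^ q ^ j) (R (some i)) * (V m j i + (θ ^ q ^ j - θ ^ q ^ m) * w m j i)
        = eval (θ ^ q ^ j) (R (some i)) * V m j i +
          (θ ^ q ^ j - θ ^ q ^ m) * (eval (θ ^ q ^ j) (R (some i)) * w m j i) := fun i => by ring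
    simp only [e1, e2, sum_add_distrib, ← mul_sum]
    linear_combination h1 + (θ ^ q ^ j - θ ^ q ^ m) * h2
  · rw [rv_trA]
    simp only [h.zrec m j _ hj]
    simp only [rv, mul_zero, zero_add, sub_zero] at h3 ⊢
    have e1 : ∀ i, eval (θ ^ q ^ j) (R (some i)) * ((θ ^ q ^ j - θ ^ q ^ m) * z m j i)
        = (θ ^ q ^ j - θ ^ q ^ m) * (eval (θ ^ q ^ j) (R (some i)) * z m j i) := fun i => by ring
    simp only [e1, ← mul_sum, h3, mul_zero]

lemma rv_tw (R : Option ι → F[X]) (c a : F) (y : ι → F) :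
    rv (tw σ R) (σ c) (σ a) (fun i => σ (y i)) = σ (rv R c a y) := by
  simp [rv, tw, eval_map, eval₂_at_apply]

lemma sig_c (hσ : ∀ y, σ y = y ^ q) (y : F) (j : ℕ) : σ (y ^ q ^ j) = y ^ q ^ (j + 1) := by
  rw [hσ, ← pow_mul, ← pow_succ]

lemma Jet.val_tw (h : Jet q θ x e V V' w z η) (hσ : ∀ y, σ y = y ^ q) {m j : ℕ} (hj : j + e ≤ m)
    (R : Option ι → F[X]) :
    rv (tw σ R) (θ ^ q ^ (j + 1)) 1 (V (m + 1) (j + 1)) = σ (rv R (θ ^ q ^ j) 1 (V m j)) := by
  rw [← rv_tw, sig_c hσ, map_one]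
  congr 1
  funext i
  rw [h.Vtw m j i hj, hσ]

lemma Jet.cond_tw (h : Jet q θ x e V V' w z η) (hσ : ∀ y, σ y = y ^ q) {m j : ℕ} (hj : j + e ≤ m)
    {R : Option ι → F[X]} (hR : Cond R (θ ^ q ^ j) (V m j) (w m j) (z m j)) :
    Cond (tw σ R) (θ ^ q ^ (j + 1)) (V (m + 1) (j + 1)) (w (m + 1) (j + 1))
      (z (m + 1) (j + 1)) := by
  obtain ⟨h1, h2, h3⟩ := hR
  have eV : V (m + 1) (j + 1) = fun i => σ (V m j i) := funext fun i => by rw [h.Vtw m j i hj, hσ]
  have ew : w (m + 1) (j + 1) = fun i => σ (w m j i) := funext fun i => by rw [h.wtw m j i hj, hσ]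
  have ez : z (m + 1) (j + 1) = fun i => σ (z m j i) := funext fun i => by rw [h.ztw m j i hj, hσ]
  have a1 := rv_tw (σ := σ) (fun o => derivative (R o)) (θ ^ q ^ j) 1 (V m j)
  have a2 := rv_tw (σ := σ) R (θ ^ q ^ j) 0 (w m j)
  have a3 := rv_tw (σ := σ) R (θ ^ q ^ j) 0 (z m j)
  rw [sig_c hσ] at a1 a2 a3
  rw [map_zero] at a2 a3
  rw [map_one] at a1
  refine ⟨by rw [h.val_tw hσ hj, h1, map_zero], ?_, by rw [ez, a3, h3, map_zero]⟩
  have : (fun o => derivative (tw σ R o)) = tw σ fun o => derivative (R o) :=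
    funext fun o => by simp [tw, derivative_map]
  rw [this, eV, ew, a1, a2, ← map_add, h2, map_zero]

lemma tw_trA (hσ : ∀ y, σ y = y ^ q) (m : ℕ) (R : Option ι → F[X]) :
    tw σ (trA q θ x m R) = trA q θ x (m + 1) (tw σ R) := by
  funext o
  cases o with
  | none =>
    simp [tw, trA_none, Polynomial.map_sum, Polynomial.map_sub, Polynomial.map_mul, -map_pow,
      sig_c hσ]
  | some i => rfl

/-- Transport from level `m` to level `m + s`. -/
noncomputable def trN (q : ℕ) (θ : F) (x : ι → F) (m : ℕ) (R : Option ι → F[X]) :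
    ℕ → Option ι → F[X]
  | 0 => R
  | s + 1 => trA q θ x (m + s) (trN q θ x m R s)

@[simp] lemma trN_some (m : ℕ) (R : Option ι → F[X]) (s : ℕ) (i : ι) :
    trN q θ x m R s (some i) = R (some i) := by
  induction s with
  | zero => rfl
  | succ s ih => exact ih

lemma tw_trN (hσ : ∀ y, σ y = y ^ q) (m : ℕ) (R : Option ι → F[X]) (s : ℕ) :
    tw σ (trN q θ x m R s) = trN q θ x (m + 1) (tw σ R) s := by
  induction s with
  | zero => rfl
  | succ s ih => rw [trN, tw_trA hσ, ih, trN, add_right_comm]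

lemma trN_deg (hq : q ≠ 0) (m : ℕ) (R : Option ι → F[X]) (D : ℕ) (h0 : (R none).degree < D)
    (h1 : ∀ i, x i ≠ 0 → (R (some i)).degree < D) (s : ℕ) :
    (trN q θ x m R s none).degree < (D + s : ℕ) := by
  induction s with
  | zero => exact h0
  | succ s ih =>
    rw [trN, trA_none, ← mem_degreeLT]
    refine sub_mem ?_ (sum_mem fun i _ => ?_)
    · rw [mem_degreeLT, degree_mul, degree_X_sub_C, add_comm, ← add_assoc, Nat.cast_succ]
      exact WithBot.add_lt_add_right WithBot.one_ne_bot ih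
    · by_cases hx : x i = 0
      · rw [hx, zero_pow (pow_ne_zero _ hq), map_zero, zero_mul]; exact zero_mem _
      · rw [C_mul', trN_some]
        refine Submodule.smul_mem _ _ (mem_degreeLT.2 ((h1 i hx).trans_le ?_))
        exact_mod_cast Nat.le_add_right _ _

lemma Jet.val_trN (h : Jet q θ x e V V' w z η) {m j : ℕ} (hj : j + e ≤ m) (R : Option ι → F[X])
    (s : ℕ) : rv (trN q θ x m R s) (θ ^ q ^ j) 1 (V (m + s) j) =
      (∏ l ∈ range s, (θ ^ q ^ j - θ ^ q ^ (m + l))) * rv R (θ ^ q ^ j) 1 (V m j) := by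
  induction s with
  | zero => simp [trN]
  | succ s ih => rw [trN, ← add_assoc, h.val_trA (by omega), ih, prod_range_succ]; ring

lemma Jet.cond_trN (h : Jet q θ x e V V' w z η) {m j : ℕ} (hj : j + e ≤ m) {R : Option ι → F[X]}
    (hR : Cond R (θ ^ q ^ j) (V m j) (w m j) (z m j)) (s : ℕ) :
    Cond (trN q θ x m R s) (θ ^ q ^ j) (V (m + s) j) (w (m + s) j) (z (m + s) j) := by
  induction s with
  | zero => exact hR
  | succ s ih => exact h.cond_trA (by omega) ih

lemma Jet.val_twN (h : Jet q θ x e V V' w z η) (hσ : ∀ y, σ y = y ^ q) {m j : ℕ} (hj : j + e ≤ m)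
    {R : Option ι → F[X]} (hR : rv R (θ ^ q ^ j) 1 (V m j) = 0) (a : ℕ) :
    rv ((tw σ)^[a] R) (θ ^ q ^ (j + a)) 1 (V (m + a) (j + a)) = 0 := by
  induction a with
  | zero => exact hR
  | succ a ih =>
    rw [Function.iterate_succ_apply', ← add_assoc, ← add_assoc, h.val_tw hσ (by omega), ih,
      map_zero]

lemma Jet.cond_twN (h : Jet q θ x e V V' w z η) (hσ : ∀ y, σ y = y ^ q) {m j : ℕ}
    (hj : j + e ≤ m) {R : Option ι → F[X]} (hR : Cond R (θ ^ q ^ j) (V m j) (w m j) (z m j))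
    (a : ℕ) : Cond ((tw σ)^[a] R) (θ ^ q ^ (j + a)) (V (m + a) (j + a)) (w (m + a) (j + a))
      (z (m + a) (j + a)) := by
  induction a with
  | zero => exact hR
  | succ a ih =>
    rw [Function.iterate_succ_apply']
    exact h.cond_tw hσ (m := m + a) (j := j + a) (by omega) ih

lemma twN_deg (R : Option ι → F[X]) (a : ℕ) (o : Option ι) :
    ((tw σ)^[a] R o).degree = (R o).degree := by
  induction a with
  | zero => rfl
  | succ a ih => rw [Function.iterate_succ_apply', tw, degree_map, ih]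

lemma twN_ne {R : Option ι → F[X]} (h : R ≠ 0) (a : ℕ) : (tw σ)^[a] R ≠ 0 := by
  intro h0
  refine h (funext fun o => degree_eq_bot.1 ?_)
  rw [← twN_deg (σ := σ) R a o, h0]
  exact degree_zero

lemma norm_c_sub {F : Type} [NormedField F] [IsUltrametricDist F] {θ : F} (hθ : 1 < ‖θ‖)
    (hq : 2 ≤ q) {a b : ℕ} (hab : b < a) : ‖θ ^ q ^ a - θ ^ q ^ b‖ = ‖θ‖ ^ q ^ a := by
  have h : ‖θ ^ q ^ b‖ < ‖θ ^ q ^ a‖ := by
    rw [norm_pow, norm_pow]
    exact pow_lt_pow_right₀ hθ (Nat.pow_lt_pow_right hq hab)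
  rw [sub_eq_add_neg, IsUltrametricDist.norm_add_eq_max_of_norm_ne_norm (by
    rw [norm_neg]; exact h.ne'), norm_neg, max_eq_left h.le, norm_pow]

lemma one_le_c_sub {F : Type} [NormedField F] [IsUltrametricDist F] {θ : F} (hθ : 1 < ‖θ‖)
    (hq : 2 ≤ q) {a b : ℕ} (hab : a ≠ b) : 1 ≤ ‖θ ^ q ^ a - θ ^ q ^ b‖ := by
  rcases lt_or_gt_of_ne hab with h | h
  · rw [norm_sub_rev, norm_c_sub hθ hq h]; exact one_le_pow₀ hθ.le
  · rw [norm_c_sub hθ hq h]; exact one_le_pow₀ hθ.le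

end Pool.Agent.CSU
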