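import Pool.Agent.Lib.MP_bf776f_nt.SU.St

/-! Siegel's lemma in a height package. -/

namespace Pool.Agent.CSU

open Finset

variable {k F : Type} [Field k] [NormedField F] [Algebra k F] {θ : F} {U : Submodule k F}

lemma ex_two_pow (A : ℕ) : ∃ c, 4 ≤ c ∧ A * c ^ 2 < 2 ^ c := by
  refine ⟨3 * (9 * A + 2), by omega, ?_⟩
  have h : 9 * A + 2 < 2 ^ (9 * A + 2) := Nat.lt_two_pow_self
  rw [mul_comm 3, pow_mul]
  refine lt_of_le_of_lt ?_ (Nat.pow_lt_pow_left h (by omega))
  nlinarith [Nat.zero_le (A * (9 * A + 2) ^ 2), Nat.zero_le ((9 * A + 2) ^ 2)]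

namespace Ht

variable (h : Ht θ U)
include h

lemma mono {a b : ℕ} (hab : a ≤ b) : U ^ a ≤ U ^ b := by
  induction b, hab using Nat.le_induction with
  | base => exact le_rfl
  | succ b _ ih =>
    intro w hw
    rw [pow_succ]
    simpa using Submodule.mul_mem_mul (ih hw) h.one

lemma le {a b : ℕ} {w : F} (hw : w ∈ U ^ a) (hab : a ≤ b) : w ∈ U ^ b := h.mono hab hw

omit h in
lemma mul {a b : ℕ} {w w' : F} (hw : w ∈ U ^ a) (hw' : w' ∈ U ^ b) : w * w' ∈ U ^ (a + b) := by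
  rw [pow_add]; exact Submodule.mul_mem_mul hw hw'

omit h in
lemma pow {a : ℕ} {w : F} (hw : w ∈ U ^ a) (n : ℕ) : w ^ n ∈ U ^ (a * n) := by
  rw [pow_mul]; exact Submodule.pow_mem_pow _ hw n

lemma one_mem (a : ℕ) : (1 : F) ∈ U ^ a := by
  simpa using Submodule.pow_mem_pow _ h.one a

theorem sie (m : ℕ) (hm : 1 ≤ m) : ∃ c : ℕ, ∀ (ι κ : Type) [Fintype ι] [Fintype κ] [Nonempty ι]
    (a : κ → ι → F) (n t : ℕ), n ≤ 2 ^ t → (∀ s i, a s i ∈ U ^ n) →
    (m + 1) * Fintype.card κ ≤ m * Fintype.card ι →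
    ∃ b : ι → F, b ≠ 0 ∧ (∀ i, b i ∈ U ^ (c * (t + 1) * n)) ∧ ∀ s, ∑ i, a s i * b i = 0 := by
  obtain ⟨C, hC⟩ := h.dim
  obtain ⟨c, hc4, hc⟩ := ex_two_pow (C * (m + 1) ^ 2)
  refine ⟨m * c, fun ι κ _ _ _ a n t hn ha hcard => ?_⟩
  have := h.fin
  have hι : 0 < Fintype.card ι := Fintype.card_pos
  let g : ℕ → ℕ := fun j => Module.finrank k ↥(U ^ (j * n))
  obtain ⟨j, hj, hlt⟩ : ∃ j < m * (c * (t + 1)),
      Fintype.card κ * g (j + 1) < Fintype.card ι * g j := by
    by_contra hn'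
    push Not at hn'
    have h1 : ∀ j ≤ m * (c * (t + 1)), (m + 1) ^ j ≤ m ^ j * g j := by
      intro j
      induction j with
      | zero =>
        intro _
        have : Nontrivial ↥(U ^ (0 * n)) :=
          ⟨⟨⟨1, h.one_mem _⟩, 0, fun e => one_ne_zero (congrArg Subtype.val e)⟩⟩
        rw [pow_zero, pow_zero, one_mul]
        exact Nat.succ_le_of_lt (Module.finrank_pos (R := k) (M := ↥(U ^ (0 * n))))
      | succ j ih =>
        intro hj
        have a1 := hn' j (by omega)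
        have a2 : (m + 1) * g j ≤ m * g (j + 1) := by
          refine Nat.le_of_mul_le_mul_left ?_ hι
          calc _ = (m + 1) * (Fintype.card ι * g j) := by ring
            _ ≤ (m + 1) * Fintype.card κ * g (j + 1) := by
              rw [mul_assoc]; exact Nat.mul_le_mul_left _ a1
            _ ≤ m * Fintype.card ι * g (j + 1) := Nat.mul_le_mul_right _ hcard
            _ = _ := by ring
        calc (m + 1) ^ (j + 1) ≤ m ^ j * ((m + 1) * g j) := by
              rw [pow_succ, mul_comm (m + 1), ← mul_assoc]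
              exact Nat.mul_le_mul_right _ (ih (by omega))
          _ ≤ m ^ j * (m * g (j + 1)) := Nat.mul_le_mul_left _ a2
          _ = _ := by ring
    have h2 : 2 * m ^ m ≤ (m + 1) ^ m := by
      obtain ⟨r, rfl⟩ : ∃ r, m = r + 1 := ⟨m - 1, by omega⟩
      have := pow_add_mul_le_add_pow (a := r + 1) (b := 1) (by omega) (by omega) (r + 1)
      rw [Nat.add_sub_cancel, Nat.cast_id, mul_one, ← pow_succ'] at this
      omega
    have h3 := h1 _ le_rfl
    set J := c * (t + 1) with hJ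
    have h4 : 2 ^ J ≤ g (m * J) := by
      refine Nat.le_of_mul_le_mul_left ?_ (show 0 < m ^ (m * J) by positivity)
      refine le_trans ?_ h3
      rw [pow_mul m m J, pow_mul (m + 1) m J, ← mul_pow, mul_comm]
      exact Nat.pow_le_pow_left h2 _
    have h5 : m * J * n + 1 ≤ (m + 1) * c * (2 ^ t * 2 ^ t) := by
      have b1 : t + 1 ≤ 2 ^ t := Nat.lt_two_pow_self
      have b2 : (t + 1) * n ≤ 2 ^ t * 2 ^ t := Nat.mul_le_mul b1 hn
      have b3 : 1 ≤ c * (2 ^ t * 2 ^ t) := Nat.succ_le_of_lt (by positivity)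
      calc _ = m * c * ((t + 1) * n) + 1 := by rw [hJ]; ring
        _ ≤ m * c * (2 ^ t * 2 ^ t) + c * (2 ^ t * 2 ^ t) := by gcongr
        _ = _ := by ring
    have h6 : g (m * J) < 2 ^ J := by
      calc g (m * J) ≤ C * ((m + 1) * c * (2 ^ t * 2 ^ t)) ^ 2 := (hC _).trans (by gcongr)
        _ = C * (m + 1) ^ 2 * c ^ 2 * 2 ^ (4 * t) := by ring
        _ < 2 ^ c * 2 ^ (4 * t) := by gcongr
        _ ≤ 2 ^ c * 2 ^ (c * t) := by gcongr; omega
        _ = 2 ^ J := by rw [hJ]; ring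
    omega
  let φ : (ι → ↥(U ^ (j * n))) →ₗ[k] (κ → ↥(U ^ ((j + 1) * n))) :=
    LinearMap.pi fun s => LinearMap.codRestrict _
      (∑ i, (LinearMap.mulLeft k (a s i)).comp ((Submodule.subtype _).comp (LinearMap.proj i)))
      fun b => by
        rw [LinearMap.sum_apply]
        exact sum_mem fun i _ => h.le (mul (ha s i) (b i).2) (by nlinarith)
  obtain ⟨b, hb, hb0⟩ := (Submodule.ne_bot_iff _).1 (φ.ker_ne_bot_of_finrank_lt (by
    simpa [Module.finrank_pi_fintype] using hlt))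
  refine ⟨fun i => b i, fun e => hb0 (funext fun i => Subtype.ext (congrFun e i)),
    fun i => h.le (b i).2 (Nat.mul_le_mul_right _ (by rw [mul_assoc]; omega)), fun s => ?_⟩
  have := congrArg Subtype.val (congrFun (LinearMap.mem_ker.1 hb) s)
  simpa [φ] using this

end Ht

theorem sieS : SieS := fun _ _ _ _ _ _ _ _ h m hm => h.sie m hm

end Pool.Agent.CSU
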