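import Pool.Agent.Lib.MP_bf776f_nt.SU.St2
import Pool.Agent.Lib.MP_bf776f_nt.SU.Row
import Pool.Agent.Lib.MP_bf776f_nt.SU.Int

/-! Zero estimates for systems with a period column. -/

namespace Pool.Agent.CSU.ZA

open Polynomial Finset

section Alg

variable {F : Type} [Field F] {ι : Type} [Fintype ι] {σ : F →+* F}

lemma fixk {k : Type} [Field k] [Fintype k] [Algebra k F] {y : F} (h : y ^ Fintype.card k = y) :
    y ∈ Set.range (algebraMap k F) := by
  have h1 : Splits (X ^ Fintype.card k - X : k[X]) := by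
    rw [splits_iff_card_roots, FiniteField.roots_X_pow_card_sub_X,
      FiniteField.X_pow_card_sub_X_natDegree_eq _ Fintype.one_lt_card]
    rfl
  have h2 : y ∈ ((X ^ Fintype.card k - X : k[X]).map (algebraMap k F)).roots := by
    simp [h, FiniteField.X_pow_card_sub_X_ne_zero F (Fintype.one_lt_card (α := k))]
  rw [h1.roots_map, Multiset.mem_map] at h2
  obtain ⟨c, -, hc⟩ := h2
  exact ⟨c, hc⟩

lemma tors {k : Type} [Field k] [Fintype k] [Algebra k F] (hσ : ∀ y, σ y = y ^ Fintype.card k)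
    {a c : F[X]} (hc : c ≠ 0) {t y : F}
    (h : c.map σ * ((X - C t) * a - C y * c) = c * a.map σ) :
    ∃ β : k[X], β ≠ 0 ∧ ∃ g : F[X], g.map σ = (X - C t) * g - C y * β.map (algebraMap k F) := by
  classical
  obtain ⟨d, n, b, rfl, rfl, hb, hco⟩ : ∃ d n b : F[X], a = d * n ∧ c = d * b ∧ b.Monic ∧
      IsCoprime n b := by
    obtain ⟨n, b, h1, h2, h3⟩ := extract_gcd a c
    have hb : b ≠ 0 := by rintro rfl; exact hc (by simpa using h2)
    have hl : C b.leadingCoeff * C b.leadingCoeff⁻¹ = 1 := by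
      rw [← C_mul, mul_inv_cancel₀ (leadingCoeff_ne_zero.2 hb), C_1]
    have hu : IsUnit (C b.leadingCoeff⁻¹) := IsUnit.of_mul_eq_one_right _ hl
    refine ⟨gcd a c * C b.leadingCoeff, n * C b.leadingCoeff⁻¹, b * C b.leadingCoeff⁻¹,
      by linear_combination h1 - gcd a c * n * hl, by linear_combination h2 - gcd a c * b * hl,
      monic_mul_leadingCoeff_inv hb, ?_⟩
    rw [isCoprime_mul_unit_right hu]
    exact (gcd_isUnit_iff _ _).1 h3
  have hd : d ≠ 0 := left_ne_zero_of_mul hc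
  have h1 : b.map σ * ((X - C t) * n - C y * b) = b * n.map σ := by
    refine mul_left_cancel₀ (mul_ne_zero hd (Polynomial.map_ne_zero (f := σ) hd)) ?_
    simp only [Polynomial.map_mul] at h
    linear_combination h
  have h2 : b.map σ ∣ b := (hco.map (mapRingHom σ)).symm.dvd_of_dvd_mul_right ⟨_, h1.symm⟩
  have h3 : b = b.map σ := eq_of_monic_of_dvd_of_natDegree_le (hb.map σ) hb h2 (by simp)
  obtain ⟨β, rfl⟩ := (mem_lifts b).1 ((lifts_iff_coeff_lifts (f := algebraMap k F) b).2 fun i =>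
    fixk (by rw [← hσ, ← coeff_map, ← h3]))
  refine ⟨β, fun h0 => hb.ne_zero (by simp [h0]), n, mul_left_cancel₀ hb.ne_zero ?_⟩
  rw [← h1, ← h3]

lemma two {a b : F[X]} {t : F} (h : (X - C t) * a * b.map σ = a.map σ * b) : a = 0 ∨ b = 0 := by
  by_contra hn
  push Not at hn
  have := congrArg natDegree h
  rw [natDegree_mul (mul_ne_zero (X_sub_C_ne_zero t) hn.1) (Polynomial.map_ne_zero hn.2),
    natDegree_mul (X_sub_C_ne_zero t) hn.1, natDegree_mul (Polynomial.map_ne_zero hn.1) hn.2]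
    at this
  simp at this

/-- The row against the one-jet. -/
noncomputable def jp (R : Option ι → F[X]) (c : F) (v w : ι → F) : F[X] :=
  R none + ∑ i, R (some i) * (C (v i) + (X - C c) * C (w i))

lemma jp1 {R : Option ι → F[X]} {c : F} {v : ι → F} (w : ι → F) (h : rv R c 1 v = 0) :
    X - C c ∣ jp R c v w := by
  simpa [dvd_iff_isRoot, jp, rv, eval_finsetSum] using h

lemma jp2 {R : Option ι → F[X]} {c : F} {v w z : ι → F} (h : Cond R c v w z) :
    (X - C c) ^ 2 ∣ jp R c v w := by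
  obtain ⟨H, hH⟩ := jp1 w h.1
  have h1 := congrArg (fun P => eval c (derivative P)) hH
  have h2 := h.2.1
  simp only [jp, rv, derivative_add, derivative_sum, derivative_mul, derivative_sub, derivative_X,
    derivative_C, eval_add, eval_finsetSum, eval_mul, eval_sub, eval_X, eval_C, sub_self,
    zero_mul, mul_zero, add_zero, zero_add, sub_zero, one_mul, mul_one, sum_add_distrib] at h1 h2
  rw [hH, sq]
  exact mul_dvd_mul_left _ (dvd_iff_isRoot.2 (by rw [IsRoot, ← h1, ← h2]; ring))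

lemma jz {R : Option ι → F[X]} {c : F} {v w z : ι → F} (h : Cond R c v w z) :
    X - C c ∣ ∑ i, R (some i) * C (z i) := by
  simpa [dvd_iff_isRoot, rv, eval_finsetSum] using h.2.2

lemma cop {c v : F} (hv : v ≠ 0) (w : F) (n : ℕ) :
    IsCoprime ((X - C c) ^ n) (C v + (X - C c) * C w) := by
  refine IsCoprime.pow_left ?_
  rw [(irreducible_X_sub_C c).coprime_iff_not_dvd, dvd_iff_isRoot]
  simpa using hv

/-- The determinant of three rows. -/
noncomputable def D3 (r s t : Option (Fin 2) → F[X]) : F[X] :=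
  r none * (s (some 0) * t (some 1) - s (some 1) * t (some 0)) -
    s none * (r (some 0) * t (some 1) - r (some 1) * t (some 0)) +
    t none * (r (some 0) * s (some 1) - r (some 1) * s (some 0))

lemma D3_1 {r s t : Option (Fin 2) → F[X]} {c : F} {v : Fin 2 → F} (hr : rv r c 1 v = 0)
    (hs : rv s c 1 v = 0) (ht : rv t c 1 v = 0) : X - C c ∣ D3 r s t := by
  obtain ⟨a, ha⟩ := jp1 0 hr
  obtain ⟨b, hb⟩ := jp1 0 hs
  obtain ⟨d, hd⟩ := jp1 0 ht
  simp only [jp, Fin.sum_univ_two] at ha hb hd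
  refine ⟨a * (s (some 0) * t (some 1) - s (some 1) * t (some 0)) -
    b * (r (some 0) * t (some 1) - r (some 1) * t (some 0)) +
    d * (r (some 0) * s (some 1) - r (some 1) * s (some 0)), ?_⟩
  unfold D3
  linear_combination (s (some 0) * t (some 1) - s (some 1) * t (some 0)) * ha -
    (r (some 0) * t (some 1) - r (some 1) * t (some 0)) * hb +
    (r (some 0) * s (some 1) - r (some 1) * s (some 0)) * hd

lemma D3_3 {r s t : Option (Fin 2) → F[X]} {c : F} {v w z : Fin 2 → F} (hr : Cond r c v w z)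
    (hs : Cond s c v w z) (ht : Cond t c v w z) (hz : z 0 ≠ 0) : (X - C c) ^ 3 ∣ D3 r s t := by
  obtain ⟨a, ha⟩ := jp2 hr
  obtain ⟨b, hb⟩ := jp2 hs
  obtain ⟨d, hd⟩ := jp2 ht
  obtain ⟨a', ha'⟩ := jz hr
  obtain ⟨b', hb'⟩ := jz hs
  obtain ⟨d', hd'⟩ := jz ht
  simp only [jp, Fin.sum_univ_two] at ha hb hd ha' hb' hd'
  rw [← (isUnit_C.2 hz.isUnit).dvd_mul_left]
  refine ⟨a * (b' * t (some 1) - s (some 1) * d') - b * (a' * t (some 1) - r (some 1) * d') +
    d * (a' * s (some 1) - r (some 1) * b'), ?_⟩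
  unfold D3
  linear_combination C (z 0) * ((s (some 0) * t (some 1) - s (some 1) * t (some 0)) * ha -
    (r (some 0) * t (some 1) - r (some 1) * t (some 0)) * hb +
    (r (some 0) * s (some 1) - r (some 1) * s (some 0)) * hd) +
    (X - C c) ^ 2 * (a * (t (some 1) * hb' - s (some 1) * hd') -
      b * (t (some 1) * ha' - r (some 1) * hd') + d * (s (some 1) * ha' - r (some 1) * hb'))

lemma base {q e : ℕ} {θ : F} {x : ι → F} {V V' w z : ℕ → ℕ → ι → F} {η : ℕ → F}
    (h : Jet q θ x e V V' w z η) (hσ : ∀ y, σ y = y ^ q) {B : Option ι → F[X]} {P μ : ℕ}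
    (h1 : ∀ j < P, Cond B (θ ^ q ^ j) (V (e + P) j) (w (e + P) j) (z (e + P) j))
    (h2 : ∀ a, 1 ≤ a → a ≤ μ → rv ((tw σ)^[a] B) θ 1 (V (e + P + a) 0) = 0) :
    (∀ i < μ + P, rv ((tw σ)^[μ] B) (θ ^ q ^ i) 1 (V (e + P + μ) i) = 0) ∧
      ∀ i, μ ≤ i → i < μ + P → Cond ((tw σ)^[μ] B) (θ ^ q ^ i) (V (e + P + μ) i)
        (w (e + P + μ) i) (z (e + P + μ) i) := by
  have h3 : ∀ i, μ ≤ i → i < μ + P → Cond ((tw σ)^[μ] B) (θ ^ q ^ i) (V (e + P + μ) i)
      (w (e + P + μ) i) (z (e + P + μ) i) := fun i hi hi' => by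
    obtain ⟨j, rfl⟩ := Nat.exists_eq_add_of_le' hi
    exact h.cond_twN hσ (by omega) (h1 j (by omega)) μ
  refine ⟨fun i hi => ?_, h3⟩
  rcases le_or_gt μ i with hm | hm
  · exact (h3 i hm hi).1
  obtain ⟨a, rfl⟩ := Nat.exists_eq_add_of_le hm.le
  have := h.val_twN hσ (m := e + P + a) (j := 0) (by omega)
    (by simpa using h2 a (by omega) (by omega)) i
  rwa [← Function.iterate_add_apply, zero_add, add_assoc, add_comm a i] at this

end Alg

variable {k F : Type} [Field k] [Fintype k] [NormedField F] [IsUltrametricDist F] {θ : F}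

lemma cnt (hθ : 1 < ‖θ‖) (s : Finset ℕ) (m : ℕ → ℕ) {P : F[X]}
    (h : ∀ i ∈ s, (X - C (θ ^ Fintype.card k ^ i)) ^ m i ∣ P) (hd : P.natDegree < ∑ i ∈ s, m i) :
    P = 0 := by
  by_contra h0
  refine hd.not_ge (zeros_le s _ m (fun i _ j _ hij e => ?_) h0 h)
  have := one_le_c_sub hθ (Fintype.one_lt_card (α := k)) hij
  rw [e, sub_self, norm_zero] at this
  linarith

lemma cnt2 (hθ : 1 < ‖θ‖) {a b c n : ℕ} (hab : a ≤ b) (hbc : b ≤ c) {P : F[X]}
    (h1 : ∀ i, a ≤ i → i < b → X - C (θ ^ Fintype.card k ^ i) ∣ P)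
    (h2 : ∀ i, b ≤ i → i < c → (X - C (θ ^ Fintype.card k ^ i)) ^ n ∣ P)
    (hd : P.natDegree + a + n * b < b + n * c) : P = 0 := by
  refine cnt (k := k) hθ (Ico a c) (fun i => if i < b then 1 else n) (fun i hi => ?_) ?_
  · rw [mem_Ico] at hi
    split_ifs with h
    · simpa using h1 i hi.1 h
    · exact h2 i (by omega) hi.2
  · rw [← sum_Ico_consecutive _ hab hbc, sum_ite_of_true fun i hi => (mem_Ico.1 hi).2,
      sum_ite_of_false fun i hi => (mem_Ico.1 hi).1.not_gt]
    obtain ⟨r, rfl⟩ := Nat.exists_eq_add_of_le hbc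
    simp only [sum_const, Nat.card_Ico, smul_eq_mul, Nat.add_sub_cancel_left]
    rw [mul_add, mul_comm n r] at hd
    omega

lemma nz {e : ℕ} (hθ : 1 < ‖θ‖) (he : 1 ≤ e) {y : ℕ → ℕ → F} (h0 : y e 0 ≠ 0)
    (h1 : ∀ m, e ≤ m → y (m + 1) 0 =
      (θ ^ Fintype.card k ^ 0 - θ ^ Fintype.card k ^ m) * y m 0)
    (h2 : ∀ m j, j + e ≤ m → y (m + 1) (j + 1) = y m j ^ Fintype.card k) :
    ∀ j m, j + e ≤ m → y m j ≠ 0 := by
  refine jet_ind (fun m j => y m j ≠ 0) h0 (fun m hm h => ?_) fun m j hj h => ?_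
  · rw [h1 m hm]
    refine mul_ne_zero (norm_pos_iff.1 (one_pos.trans_le ?_)) h
    exact one_le_c_sub hθ Fintype.one_lt_card (by omega)
  · rw [h2 m j hj]; exact pow_ne_zero _ h

omit [IsUltrametricDist F] in
lemma ndeg {P : F[X]} {n : ℕ} (h : P.degree < n) : P.natDegree ≤ n :=
  natDegree_le_of_degree_le h.le

end Pool.Agent.CSU.ZA

namespace Pool.Agent.CSU

open Polynomial Finset ZA

theorem zav : ZAVS := by
  intro k F _ _ _ _ _ θ σ x e V V' w z η hθ hσ h hx hV
  have hq : ∀ m, x 0 ^ Fintype.card k ^ m = 0 := fun m => by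
    rw [hx, zero_pow (pow_ne_zero _ Fintype.card_ne_zero)]
  have hV0 := nz (k := k) hθ h.e1 (y := fun m j => V m j 0) hV
    (fun m hm => by rw [h.Vrec m 0 0 (by omega), hq, add_zero]) fun m j hj => h.Vtw m j 0 hj
  refine ⟨4, fun L hL B hB hd h1 μ h2 => ?_⟩
  obtain ⟨z1, z2⟩ := base h hσ h1 h2
  have hR := twN_ne (σ := σ) hB μ
  have d0 : ((tw σ)^[μ] B none).degree < (1 * L : ℕ) := by rw [twN_deg]; exact hd none
  have d1 : ((tw σ)^[μ] B (some 0)).degree < (18 * L : ℕ) := by rw [twN_deg]; exact hd (some 0)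
  set R := (tw σ)^[μ] B
  set m := e + 9 * L + μ with hm
  by_contra hμ
  have key : ∀ (c : F) (v w : Fin 1 → F) (g : F[X]),
      g ∣ jp (trA (Fintype.card k) θ x m R) c v w → g ∣ jp (tw σ R) c v w →
      g ∣ (X - C (θ ^ Fintype.card k ^ m)) * R none * (R (some 0)).map σ -
        (R none).map σ * R (some 0) := by
    rintro c v w g ⟨a, ha⟩ ⟨b, hb⟩
    simp only [jp, trA_none, trA_some, tw, Fin.sum_univ_one, hq, C_0] at ha hb
    exact ⟨a * (R (some 0)).map σ - b * R (some 0), by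
      linear_combination (R (some 0)).map σ * ha - R (some 0) * hb⟩
  have hΔ := cnt2 (k := k) hθ (a := 1) (b := μ + 1) (c := μ + 9 * L) (n := 2) (by omega)
    (by omega) (fun i hi hi' => key _ (V (m + 1) i) 0 _
      (jp1 _ (by rw [h.val_trA (by omega), z1 i (by omega), mul_zero])) (jp1 _ (by
        obtain ⟨i, rfl⟩ := Nat.exists_eq_add_of_le' hi
        rw [h.val_tw hσ (by omega), z1 i (by omega), map_zero])))
    (fun i hi hi' => key _ _ _ _ (jp2 (h.cond_trA (by omega) (z2 i (by omega) hi'))) (jp2 (z := z (m + 1) i) (by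
      obtain ⟨i, rfl⟩ := Nat.exists_eq_add_of_le' (show 1 ≤ i by omega)
      exact h.cond_tw hσ (by omega) (z2 i (by omega) (by omega))))) (by
      have e0 := ndeg d0
      have e1 := ndeg d1
      have : ((X - C (θ ^ Fintype.card k ^ m)) * R none * (R (some 0)).map σ -
          (R none).map σ * R (some 0)).natDegree ≤ 1 + 1 * L + 18 * L := by
        refine (natDegree_sub_le _ _).trans (max_le ?_ ?_)
        · exact natDegree_mul_le_of_le (natDegree_mul_le_of_le (natDegree_X_sub_C_le _) e0)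
            (natDegree_map_le.trans e1)
        · exact (natDegree_mul_le_of_le (natDegree_map_le.trans e0) e1).trans (by omega)
      omega)
  have c2 : ∀ P : F[X], P.degree < (18 * L : ℕ) → (∀ i, μ ≤ i → i < μ + 9 * L →
      (X - C (θ ^ Fintype.card k ^ i)) ^ 2 ∣ P) → P = 0 := fun P hP hP' => by
    by_contra h0
    refine h0 (cnt2 (k := k) hθ le_rfl (Nat.le_add_right _ _) (fun i a b => by omega) hP' ?_)
    have := (natDegree_lt_iff_degree_lt h0).2 hP
    omega
  have hab : R none = 0 ∧ R (some 0) = 0 := by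
    rcases two (sub_eq_zero.1 hΔ) with h0 | h0
    · refine ⟨h0, c2 _ d1 fun i hi hi' => ?_⟩
      have := jp2 (z2 i hi hi')
      simp only [jp, h0, zero_add, Fin.sum_univ_one] at this
      exact (cop (hV0 i m (by omega)) _ 2).dvd_of_dvd_mul_right this
    · refine ⟨c2 _ (d0.trans_le (by exact_mod_cast (by omega))) fun i hi hi' => ?_, h0⟩
      simpa [jp, h0] using jp2 (z2 i hi hi')
  refine hR (funext fun o => ?_)
  rcases o with _ | i
  · exact hab.1
  · rw [Subsingleton.elim i 0]; exact hab.2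

theorem zah : ZAHS := by
  intro k F _ _ _ _ _ θ σ x e V V' w z η hθ hσ h hx hV hz nt
  have hq : ∀ m, x 0 ^ Fintype.card k ^ m = 0 := fun m => by
    rw [hx, zero_pow (pow_ne_zero _ Fintype.card_ne_zero)]
  have hV0 := nz (k := k) hθ h.e1 (y := fun m j => V m j 0) hV
    (fun m hm => by rw [h.Vrec m 0 0 (by omega), hq, add_zero]) fun m j hj => h.Vtw m j 0 hj
  have hz0 := nz (k := k) hθ h.e1 (y := fun m j => z m j 0) hz
    (fun m hm => h.zrec m 0 0 (by omega)) fun m j hj => h.ztw m j 0 hj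
  refine ⟨8, fun L hL B hB hd h1 μ h2 => ?_⟩
  obtain ⟨z1, z2⟩ := base h hσ h1 h2
  have hR := twN_ne (σ := σ) hB μ
  have d0 : ((tw σ)^[μ] B none).degree < (14 * L : ℕ) := by rw [twN_deg]; exact hd none
  have d1 : ((tw σ)^[μ] B (some 0)).degree < (46 * L : ℕ) := by rw [twN_deg]; exact hd (some 0)
  have d2 : ((tw σ)^[μ] B (some 1)).degree < (14 * L : ℕ) := by rw [twN_deg]; exact hd (some 1)
  set R := (tw σ)^[μ] B
  set m := e + 24 * L + μ with hm
  have e0 := ndeg d0
  have e1 := ndeg d1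
  have e2 := ndeg d2
  by_contra hμ
  have v1 : ∀ i, 1 ≤ i → i < μ + 24 * L →
      rv (tw σ R) (θ ^ Fintype.card k ^ i) 1 (V (m + 1) i) = 0 := fun i hi hi' => by
    obtain ⟨i, rfl⟩ := Nat.exists_eq_add_of_le' hi
    rw [h.val_tw hσ (by omega), z1 i (by omega), map_zero]
  have w1 : ∀ i, μ + 1 ≤ i → i < μ + 24 * L → Cond (tw σ R) (θ ^ Fintype.card k ^ i)
      (V (m + 1) i) (w (m + 1) i) (z (m + 1) i) := fun i hi hi' => by
    obtain ⟨i, rfl⟩ := Nat.exists_eq_add_of_le' (show 1 ≤ i by omega)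
    exact h.cond_tw hσ (by omega) (z2 i (by omega) (by omega))
  have dT : ∀ (n a : ℕ) (r : Option (Fin 2) → F[X]), (r none).natDegree ≤ 14 * L + a →
      (r (some 1)).natDegree ≤ 14 * L →
      (trA (Fintype.card k) θ x n r none).natDegree ≤ 14 * L + (a + 1) := fun n a r a0 a1 => by
    rw [trA_none, Fin.sum_univ_two, hq, C_0, zero_mul, zero_add]
    exact (natDegree_sub_le _ _).trans (max_le ((natDegree_mul_le_of_le (natDegree_X_sub_C_le _)
      a0).trans (by omega)) ((natDegree_C_mul_le _ _).trans (by omega)))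
  have dm : ∀ {P : F[X]} {n : ℕ}, P.natDegree ≤ n → (P.map σ).natDegree ≤ n :=
    fun h => natDegree_map_le.trans h
  have hΔ : D3 (trA (Fintype.card k) θ x (m + 1) (trA (Fintype.card k) θ x m R))
      (trA (Fintype.card k) θ x (m + 1) (tw σ R)) (tw σ (tw σ R)) = 0 := by
    refine cnt2 (k := k) hθ (a := 2) (b := μ + 2) (c := μ + 24 * L) (n := 3) (by omega)
      (by omega) (fun i hi hi' => D3_1 (v := V (m + 1 + 1) i) ?_ ?_ ?_)
      (fun i hi hi' => D3_3 (h.cond_trA (by omega) (h.cond_trA (by omega) (z2 i (by omega) hi')))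
        (h.cond_trA (by omega) (w1 i (by omega) hi')) ?_ (hz0 i _ (by omega))) ?_
    · rw [h.val_trA (by omega), h.val_trA (by omega), z1 i (by omega), mul_zero, mul_zero]
    · rw [h.val_trA (by omega), v1 i (by omega) (by omega), mul_zero]
    · obtain ⟨i, rfl⟩ := Nat.exists_eq_add_of_le' (show 1 ≤ i by omega)
      rw [h.val_tw hσ (by omega), v1 i (by omega) (by omega), map_zero]
    · obtain ⟨i, rfl⟩ := Nat.exists_eq_add_of_le' (show 1 ≤ i by omega)
      exact h.cond_tw hσ (by omega) (w1 i (by omega) (by omega))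
    · have dd : ∀ {a b b' c c' : F[X]}, a.natDegree ≤ 14 * L + 2 → b.natDegree ≤ 46 * L →
          b'.natDegree ≤ 46 * L → c.natDegree ≤ 14 * L → c'.natDegree ≤ 14 * L →
          (a * (b * c' - c * b')).natDegree ≤ 74 * L + 2 := fun ha hb hb' hc hc' =>
        (natDegree_mul_le_of_le ha ((natDegree_sub_le _ _).trans (max_le
          (natDegree_mul_le_of_le hb hc') ((natDegree_mul_le_of_le hc hb').trans_eq
            (add_comm _ _))))).trans (by omega)
      refine lt_of_le_of_lt (Nat.add_le_add_right (Nat.add_le_add_right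
        (show _ ≤ 74 * L + 2 from ?_) _) _) (by omega)
      refine (natDegree_add_le _ _).trans (max_le ((natDegree_sub_le _ _).trans (max_le ?_ ?_)) ?_)
      · exact dd (dT _ 1 _ (dT _ 0 _ e0 e2) e2) (dm e1) (dm (dm e1)) (dm e2) (dm (dm e2))
      · exact dd ((dT _ 0 _ (dm e0) (dm e2)).trans (by omega)) e1 (dm (dm e1)) e2 (dm (dm e2))
      · exact dd ((dm (dm e0)).trans (by omega)) e1 (dm e1) e2 (dm e2)
  by_cases hc : R (some 1) = 0
  · have h0 : R none = 0 := by
      refine cnt2 (k := k) hθ (n := 1) le_rfl (Nat.le_add_right μ (24 * L))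
        (fun i a b => by omega) (fun i hi hi' => ?_) (by omega)
      have a1 := jp1 0 (z1 i hi')
      have a2 := jz (z2 i hi hi')
      simp only [jp, Fin.sum_univ_two, hc, zero_mul, add_zero] at a1 a2
      rw [(isUnit_C.2 (hz0 i m (by omega)).isUnit).dvd_mul_right] at a2
      rw [pow_one]
      exact (dvd_add_left (a2.mul_right _)).1 a1
    have h0' : R (some 0) = 0 := by
      refine cnt2 (k := k) hθ (n := 2) le_rfl (Nat.le_add_right μ (24 * L))
        (fun i a b => by omega) (fun i hi hi' => ?_) (by omega)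
      have := jp2 (z2 i hi hi')
      simp only [jp, h0, hc, zero_add, Fin.sum_univ_two, zero_mul, add_zero] at this
      exact (cop (hV0 i m (by omega)) _ 2).dvd_of_dvd_mul_right this
    refine hR (funext fun o => ?_)
    rcases o with _ | i
    · exact h0
    · fin_cases i
      exacts [h0', hc]
  set Sa := (R (some 1)).map σ * trA (Fintype.card k) θ x m R none - R (some 1) * (R none).map σ
    with hSa
  have hS : Sa = 0 := by
    have h3 := congrFun (tw_trA (x := x) (θ := θ) hσ m R) none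
    simp only [D3, trA_none (m + 1), trA_some, tw, Fin.sum_univ_two, hq, C_0] at hΔ h3
    rcases two (σ := σ) (t := θ ^ Fintype.card k ^ (m + 1)) (a := Sa)
      (b := (R (some 1)).map σ * R (some 0) - R (some 1) * (R (some 0)).map σ) (by
        simp only [hSa, Polynomial.map_sub, Polynomial.map_mul, h3]
        linear_combination (R (some 1)).map σ * hΔ) with h0 | h0
    · exact h0
    refine cnt2 (k := k) hθ (n := 2) (b := μ + 1) (c := μ + 24 * L) le_rfl (by omega)
      (fun i a b => by omega) (fun i hi hi' => ?_) ?_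
    · obtain ⟨a, ha⟩ := jp2 (h.cond_trA (by omega) (z2 i (by omega) hi'))
      obtain ⟨b, hb⟩ := jp2 (w1 i hi hi')
      simp only [jp, trA_some, tw, Fin.sum_univ_two] at ha hb
      exact ⟨(R (some 1)).map σ * a - R (some 1) * b, by
        linear_combination hSa + (R (some 1)).map σ * ha - R (some 1) * hb -
          (C (V (m + 1) i 0) + (X - C (θ ^ Fintype.card k ^ i)) * C (w (m + 1) i 0)) * h0⟩
    · have : Sa.natDegree ≤ 14 * L + (14 * L + (0 + 1)) := (natDegree_sub_le _ _).trans (max_le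
        (natDegree_mul_le_of_le (dm e2) (dT _ 0 _ e0 e2))
        ((natDegree_mul_le_of_le e2 (dm e0)).trans (by omega)))
      omega
  rw [hSa, trA_none, Fin.sum_univ_two, hq, C_0, zero_mul, zero_add, sub_eq_zero] at hS
  obtain ⟨β, hβ, g, hg⟩ := tors hσ hc hS
  exact hβ (congrFun (nt m (fun _ => β) g (by simpa using hg)) 0)

end Pool.Agent.CSU
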