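import Pool.Agent.Lib.MP_bf776f_nt.SU.A0
import Pool.Agent.Lib.MP_bf776f_nt.SU.Core
import Pool.Agent.Lib.MP_bf776f_nt.SU.Kern
import Pool.Agent.Lib.MP_bf776f_nt.SU.ZA
import Pool.Agent.Lib.MP_bf776f_nt.SU.Horn
import Pool.Agent.Lib.MP_bf776f_nt.SU.Sie

/-! A period and one more point. -/

namespace Pool.Agent.CSU

theorem thmA : AS := a0 (core2 int sieS) ker zah zav horn

end Pool.Agent.CSU
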