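import Pool.Agent.Lib.MP_bf776f_nt.SU.St

/-! Construction of the jet data from the base level. -/

namespace Pool.Agent.CSU

open Finset

theorem jet : JetS := by
  intro k F ι _ _ _ _ _ θ x e V V' w0 z0 η0 he hV h0
  obtain ⟨p, hpk, f, hp, hq⟩ := FiniteField.card' k
  have := Fact.mk hp
  have : CharP F p := charP_of_injective_algebraMap (algebraMap k F).injective p
  set q := Fintype.card k with hq'
  have hs : ∀ a b : F, (a - b) ^ q = a ^ q - b ^ q := fun a b => by rw [hq, sub_pow_char_pow]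
  let z : ℕ → ℕ → ι → F := fun m j i =>
    z0 i ^ q ^ j * ∏ l ∈ Ico (j + e) m, (θ ^ q ^ j - θ ^ q ^ l)
  have hz1 : ∀ m j i, j + e ≤ m → z (m + 1) j i = (θ ^ q ^ j - θ ^ q ^ m) * z m j i :=
    fun m j i h => by simp only [z]; rw [prod_Ico_succ_top h]; ring
  have hz2 : ∀ m j i, z (m + 1) (j + 1) i = z m j i ^ q := fun m j i => by
    simp only [z]
    rw [mul_pow, ← prod_pow, ← pow_mul, ← pow_succ, add_right_comm, ← prod_Ico_add' _ _ _ 1]
    congr 1
    refine prod_congr rfl fun l _ => ?_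
    rw [hs, ← pow_mul, ← pow_mul, ← pow_succ, ← pow_succ]
  refine ⟨fun m j i => V' m j i - η0 ^ q ^ j * z m j i, z, fun j => η0 ^ q ^ j,
    ⟨he, fun m j i h => (hV m j i (by omega)).1, fun m j i h => ?_, hz1,
      fun m j i h => (hV m j i (by omega)).2.2.1, fun m j i h => ?_, fun m j i _ => hz2 m j i,
      fun m j i _ => by ring⟩, ?_, ?_⟩
  · rw [(hV m j i (by omega)).2.1, hz1 m j i h]; ring
  · rw [(hV m j i (by omega)).2.2.2, hz2, hs, mul_pow (η0 ^ q ^ j), ← pow_mul η0, ← pow_succ]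
  · funext i; simp [z, h0]
  · funext i; simp [z]

end Pool.Agent.CSU
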