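import Pool.Agent.Lib.MP_bf776f_nt.SU.B0
import Pool.Agent.Lib.MP_bf776f_nt.SU.St2
import Pool.Agent.Lib.MP_bf776f_nt.SU.Jet

/-! A period and one more point: reduction to the blocks. -/

namespace Pool.Agent.CSU

open Polynomial Finset

variable {k F : Type} [Field k] [Fintype k] [NormedField F] [IsUltrametricDist F] [Algebra k F]

omit [Fintype k] [IsUltrametricDist F] in
lemma al_pol (θ y : F) (b : k[X]) : Al k θ y (aeval θ b) := by
  induction b using Polynomial.induction_on' with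
  | add a b ha hb => rw [map_add]; exact ha.add hb
  | monomial n c => rw [aeval_monomial]; exact (al_k θ y c).mul ((al_th θ y).pow n)

omit [Fintype k] [IsUltrametricDist F] in
lemma al_iff {θ y a : F} :
    Al k θ y a ↔ a ∈ (AlgebraicIndependent.matroid k F).closure (insert y {θ}) := by
  rw [AlgebraicIndependent.matroid_closure_eq, show (insert y {θ} : Set F) = Set.range ![θ, y] by
    simp]
  rfl

omit [Fintype k] [IsUltrametricDist F] in
/-- Exchange. -/
lemma al_exch {θ y l u : F} (hl : Al k θ y l) (hu : Al k θ y u) :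
    (∀ y', Al k θ y' l) ∨ Al k θ l u := by
  simp only [al_iff] at *
  by_cases h : l ∈ (AlgebraicIndependent.matroid k F).closure {θ}
  · exact Or.inl fun y' => Matroid.closure_subset_closure _ (Set.subset_insert _ _) h
  · refine Or.inr (Matroid.closure_subset_closure_of_subset_closure ?_ hu)
    rintro _ (rfl | rfl)
    · exact Matroid.mem_closure_insert h hl
    · exact Matroid.mem_closure_of_mem _ (by simp)

omit [Fintype k] [IsUltrametricDist F] in
lemma al_kinf {θ l u : F} (hl : IsAlgebraic (Kinf k θ) l) (hu : Al k θ l u) :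
    IsAlgebraic (Kinf k θ) u := by
  let A := Subalgebra.algebraicClosure (Kinf k θ) F
  have hK : ∀ a ∈ Set.range (algebraMap k F) ∪ {θ}, a ∈ A := fun a ha =>
    A.algebraMap_mem ⟨a, Subfield.le_topologicalClosure _ (Subfield.subset_closure ha)⟩
  have h1 : (Algebra.adjoin k (Set.range ![θ, l])).toSubring ≤ A.toSubring := by
    rw [Algebra.adjoin_eq_ring_closure, Subring.closure_le]
    rintro _ (h | ⟨i, rfl⟩)
    · exact hK _ (Or.inl h)
    · fin_cases i
      exacts [hK _ (Or.inr rfl), hl]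
  have h2 : IsAlgebraic A u :=
    hu.ringHom_of_comp_eq (Subring.inclusion h1) (RingHom.id F) (Subring.inclusion_injective h1) rfl
  exact h2.restrictScalars _

lemma per [CompleteSpace F] {θ l : F} (hθ : 1 < ‖θ‖) (h0 : l ≠ 0)
    (hl : cE (Fintype.card k) θ l = 0) {m : ℕ} (hm : 1 ≤ m) :
    phi (Fintype.card k) θ l m 0 ≠ 0 ∧ ‖phi (Fintype.card k) θ l (m + 1) 0‖ =
      ‖θ‖ ^ Fintype.card k ^ m * ‖phi (Fintype.card k) θ l m 0‖ := by
  have h := fr k F
  have s : ∀ m, 1 ≤ m → ‖phi (Fintype.card k) θ l (m + 1) 0‖ =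
      ‖θ‖ ^ Fintype.card k ^ m * ‖phi (Fintype.card k) θ l m 0‖ := fun m hm => by
    rw [h.phi_succ hθ l hm, hl, zero_pow (pow_ne_zero _ Fintype.card_ne_zero), add_zero, norm_mul,
      norm_sub_rev, h.norm_sub hθ hm]
  refine ⟨?_, s m hm⟩
  induction m, hm using Nat.le_induction with
  | base => rw [h.phi_one hθ, hl]; simpa using h0
  | succ m hm ih => rw [← norm_ne_zero_iff, s m hm]; positivity

/-- The core with the normalising factor of a period. -/
lemma app2 [CompleteSpace F] (core : Core2S) {θ y l : F} (hθ : 1 < ‖θ‖) (h0 : l ≠ 0)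
    (hl : cE (Fintype.card k) θ l = 0) {ι : Type} [Fintype ι] (v : ι → F)
    (gv : ∀ i, Gd k θ y (v i)) {e : ℕ} (he : 1 ≤ e) (w0 z0 a : ι → F) (η0 : F)
    (hw : ∀ i, Al k θ y (w0 i)) (hz : ∀ i, Al k θ y (z0 i))
    (hd : ∀ i, phi' (Fintype.card k) θ (v i) e 0 = w0 i + η0 * z0 i)
    (est : ∀ m j i, j < m →
      ‖(phi (Fintype.card k) θ l m 0)⁻¹ * phi (Fintype.card k) θ (v i) m j - a i‖ *
        ‖θ‖ ^ Fintype.card k ^ m ≤ ‖θ‖ ^ Fintype.card k ^ j ∧
      ‖(phi (Fintype.card k) θ l m 0)⁻¹ * phi' (Fintype.card k) θ (v i) m j‖ *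
        ‖θ‖ ^ Fintype.card k ^ m ≤ 1)
    (d : Option ι → ℕ) (p lam ds κ : ℕ) (hκ : κ = 3 ∨ (κ = 2 ∧ z0 = 0))
    (h1 : ∀ i, d (some i) ≤ 2 * p) (h2 : κ * p < ∑ o, d o) (h3 : d none ≤ ds)
    (h4 : ∀ i, cE (Fintype.card k) θ (v i) ≠ 0 → d (some i) ≤ ds) (h5 : ds + 2 * lam + 4 ≤ p)
    (ze : ∀ (σ : F →+* F) (V V' w z : ℕ → ℕ → ι → F) (η : ℕ → F),
      (∀ y, σ y = y ^ Fintype.card k) →
      Jet (Fintype.card k) θ (fun i => cE (Fintype.card k) θ (v i)) e V V' w z η →
      (∀ i, V e 0 i = phi (Fintype.card k) θ (v i) e 0) → z e 0 = z0 →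
      ZE (Fintype.card k) θ σ e V w z d p lam) : False := by
  classical
  let σ : F →+* F := (FiniteField.frobeniusAlgHom k F).toRingHom
  have hσ : ∀ y, σ y = y ^ Fintype.card k := fun y => rfl
  obtain ⟨w, z, η, hJ, hwe, hze⟩ := jet k F ι θ (fun i => cE (Fintype.card k) θ (v i)) e
    (fun m j i => phi (Fintype.card k) θ (v i) m j)
    (fun m j i => phi' (Fintype.card k) θ (v i) m j) w0 z0 η0 he
    (fun m j i hj => by
      obtain ⟨a, b, c, d, -⟩ := (an k F θ (v i) hθ).2 m j hj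
      exact ⟨a, b, c, d⟩) hd
  let S : Finset F := insert θ (univ.biUnion fun i => {cE (Fintype.card k) θ (v i),
    phi (Fintype.card k) θ (v i) e 0, w0 i, z0 i})
  have hS : ∀ ξ ∈ S, Al k θ y ξ := by
    intro ξ hξ
    simp only [S, mem_insert, mem_biUnion, mem_univ, true_and, mem_singleton] at hξ
    rcases hξ with rfl | ⟨i, rfl | rfl | rfl | rfl⟩
    exacts [al_th _ y, (gv i).2, al_phi an hθ (gv i) he, hw i, hz i]
  have hU : ∀ ξ ∈ S, ξ ∈ Submodule.span k (insert 1 (S : Set F)) := fun ξ hξ =>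
    Submodule.subset_span (Set.mem_insert_of_mem _ hξ)
  refine core k F ι θ σ _ e _ _ w z η _ d p lam ds κ (fun m => (phi (Fintype.card k) θ l m 0)⁻¹) a
    hθ hσ hJ (hgt norm_fin ![θ, y] hθ S hS) (hU _ (mem_insert_self _ _)) (fun i => ?_)
    (fun m j i hj => est m j i (by omega)) (inv_ne_zero (per hθ h0 hl he).1) (fun m hm => ?_)
    (fun i _ => h1 i) (hκ.imp id fun h => ⟨h.1, fun i => Or.inr (by rw [hze, h.2]; rfl)⟩) h2 h3
    h4 h5 (ze σ _ _ w z η hσ hJ (fun _ => rfl) hze)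
  · rw [hwe, hze]
    refine ⟨hU _ ?_, hU _ ?_, hU _ ?_, hU _ ?_⟩ <;>
      exact mem_insert_of_mem (mem_biUnion.2 ⟨i, mem_univ _, by simp⟩)
  · rw [norm_inv, norm_inv, (per hθ h0 hl (he.trans hm)).2, mul_inv, mul_right_comm,
      inv_mul_cancel₀ (by positivity), one_mul]

theorem a0 : Core2S → KerS → ZAHS → ZAVS → HornS → AS := by
  intro core ker zah zav horn k F _ _ _ _ _ _ θ lam u hθ hlam hper hu y ⟨a1, a2, a3⟩
  classical
  have hx : AX k θ := ax hθ
  obtain ⟨l, l0, hl, lK, gen, est⟩ := ker k F θ lam hθ hlam hper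
  obtain ⟨c, hc⟩ := gen lam hper
  have c0 : aeval θ c ≠ 0 := fun h => hlam (by rw [hc, h, zero_mul])
  have al : Al k θ y l := by
    have := (al_pol θ y c).inv.mul a1
    rwa [hc, inv_mul_cancel_left₀ c0] at this
  have gl : ∀ y, Al k θ y l → Gd k θ y l := fun y h => ⟨h, by rw [hl]; exact isAlgebraic_zero⟩
  have hV : ∀ y e, 1 ≤ e → Al k θ y l → ¬ Al k θ y (phi' (Fintype.card k) θ l e 0) :=
    fun y e he h1 h2 => app2 core hθ l0 hl (fun _ : Fin 1 => l) (fun _ => gl y h1) he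
      (fun _ => phi' (Fintype.card k) θ l e 0) 0 (fun _ => 1) 0 (fun _ => h2)
      (fun _ => isAlgebraic_zero) (fun _ => by simp) (fun m j _ hj => (est m j hj).2)
      (fun o => o.elim 1 fun _ => 18) 9 2 1 2 (Or.inr ⟨rfl, rfl⟩) (fun _ => le_rfl) (by simp)
      le_rfl (fun _ h => absurd hl h) le_rfl fun σ V V' w z η hσ hJ h3 _ =>
        zav k F θ σ _ e V V' w z η hθ hσ hJ hl (by rw [h3]; exact (per hθ l0 hl he).1)
  rcases al_exch al a2 with h | h
  · exact hV _ 1 le_rfl (h _) (isAlgebraic_algebraMap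
      (⟨_, Algebra.subset_adjoin ⟨1, rfl⟩⟩ : Algebra.adjoin k (Set.range ![θ, _])))
  have h0 : θ ≠ 0 := by rintro rfl; rw [norm_zero] at hθ; linarith
  obtain ⟨n, hn⟩ := pow_unbounded_of_one_lt ‖u‖ hθ
  obtain ⟨v, hv⟩ : ∃ v, θ ^ n * v = u := ⟨_, mul_div_cancel₀ u (pow_ne_zero _ h0)⟩
  have v1 : ‖v‖ ≤ 1 := by
    rw [← hv, norm_mul, norm_pow] at hn
    exact ((mul_lt_iff_lt_one_right (by positivity)).1 hn).le
  have gv : ∀ i, Gd k θ y (![l, v] i) := fun i => by
    fin_cases i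
    exacts [gl y al, hx.gdiv (u := v) n (by rw [hv]; exact ⟨a2, a3⟩) h0]
  have vK : IsAlgebraic (Kinf k θ) v := al_kinf lK (by
    have := ((al_th (k := k) θ l).pow n).inv.mul h
    rwa [← hv, inv_mul_cancel_left₀ (pow_ne_zero _ h0)] at this)
  obtain ⟨e', E, W, D, hD, hE⟩ := der (k := k) hθ (univ.image ![l, v]) (by
    intro s hs
    obtain ⟨i, -, rfl⟩ := mem_image.1 hs
    fin_cases i
    exacts [lK, vK])
  have he : 1 ≤ e' + 1 := by omega
  set e := e' + 1
  have hph := fun i => hD.dphi hx (u := ![l, v] i) he (by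
    rw [pow_succ, pow_mul]; exact pow_mem (hE _ (mem_image_of_mem _ (mem_univ i))) _)
  obtain ⟨w0, z0, η0, hw, hz, hd⟩ := hD.rel y (fun i => phi (Fintype.card k) θ (![l, v] i) e 0)
    (fun i => (hph i).1) fun i => al_phi an hθ (gv i) he
  replace hd := fun i => (hph i).2.symm.trans (hd i)
  by_cases z00 : z0 0 = 0
  · refine hV y e he al ?_
    have := hd 0
    rw [z00, mul_zero, add_zero] at this
    exact this ▸ hw 0
  refine app2 core hθ l0 hl ![l, v] gv he w0 z0 ![1, 0] η0 hw hz hd (fun m j i hj => ?_)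
    (fun o => o.elim 14 ![46, 14]) 24 3 14 3 (Or.inl rfl) (fun i => by fin_cases i <;> simp)
    (by simp) le_rfl (fun i h => by
      fin_cases i
      exacts [absurd hl h, le_rfl]) le_rfl fun σ V V' w z η hσ hJ h3 h4 =>
      zah k F θ σ _ e V V' w z η hθ hσ hJ hl (by rw [h3]; exact (per hθ l0 hl he).1)
        (by rwa [h4]) fun T β g hg => ?_
  · fin_cases i
    · exact (est m j hj).2
    · obtain ⟨b1, b2⟩ := (fr k F).phi_small hθ v1 hj
      have b3 := (est m j hj).1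
      simp only [Fin.mk_one, Matrix.cons_val_one, Matrix.cons_val_fin_one, sub_zero, norm_mul,
        mul_assoc]
      exact ⟨(mul_le_one₀ b3 (by positivity) b1).trans (one_le_pow₀ hθ.le),
        mul_le_one₀ b3 (by positivity) b2⟩
  · obtain ⟨b, hb⟩ := gen _ (horn k F (Fin 1) θ σ (fun _ => v) T β g hθ hσ hg)
    rw [Fin.sum_univ_one] at hb
    by_contra hβ
    refine hu (b * X ^ n) (c * β 0) (mul_ne_zero (fun h => c0 (by rw [h, map_zero]))
      fun h => hβ (funext fun i => by rw [Subsingleton.elim i 0]; exact h)) ?_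
    rw [map_mul, map_mul, aeval_X_pow, ← hv, hc]
    linear_combination aeval θ c * θ ^ n * hb

end Pool.Agent.CSU
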