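import Pool.Agent.Lib.MP_bf776f_nt.SU.Row
import Pool.Agent.Lib.MP_bf776f_nt.SU.Sie

/-! Heights of rows and the auxiliary row. -/

namespace Pool.Agent.CSU

open Polynomial Finset

variable {k F ι : Type} [Field k] [NormedField F] [Algebra k F] [Fintype ι] {θ : F}
  {U : Submodule k F}

/-- Height at most `h`, degree less than `D`. -/
def PU (U : Submodule k F) (h D : ℕ) (p : F[X]) : Prop :=
  (∀ i, p.coeff i ∈ U ^ h) ∧ p.degree < D

lemma PU.eval (hU : Ht θ U) {h D a : ℕ} {p : F[X]} (hp : PU U h D p) {y : F} (hy : y ∈ U ^ a) :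
    p.eval y ∈ U ^ (h + a * D) := by
  rw [eval_eq_sum_range]
  refine sum_mem fun i hi => hU.le (Ht.mul (hp.1 i) (Ht.pow hy i)) ?_
  have h1 := natDegree_le_of_degree_le hp.2.le
  have h2 := mem_range.1 hi
  gcongr
  omega

lemma PU.der {h D : ℕ} {p : F[X]} (hp : PU U h D p) : PU U h D (derivative p) := by
  refine ⟨fun i => ?_, degree_derivative_le.trans_lt hp.2⟩
  rw [coeff_derivative, ← Nat.cast_succ, ← nsmul_eq_mul']
  exact nsmul_mem (hp.1 _) _

lemma PU.mono {h D D' : ℕ} {p : F[X]} (hp : PU U h D p) (hD : D ≤ D') : PU U h D' p :=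
  ⟨hp.1, hp.2.trans_le (by exact_mod_cast hD)⟩

lemma PU.twN {q h : ℕ} {D : Option ι → ℕ} {σ : F →+* F} (hσ : ∀ y, σ y = y ^ q)
    {R : Option ι → F[X]} (hR : ∀ o, PU U h (D o) (R o)) (a : ℕ) (o : Option ι) :
    PU U (h * q ^ a) (D o) ((tw σ)^[a] R o) := by
  refine ⟨?_, by rw [twN_deg]; exact (hR o).2⟩
  induction a with
  | zero => simpa using (hR o).1
  | succ a ih =>
    intro i
    rw [Function.iterate_succ_apply', tw, coeff_map, hσ, pow_succ q, ← mul_assoc]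
    exact Ht.pow (ih i) q

lemma c_mem (hθ : θ ∈ U) (n : ℕ) : θ ^ n ∈ U ^ n := Submodule.pow_mem_pow _ hθ n

lemma Jet.ht {q e : ℕ} {x : ι → F} {V V' w z : ℕ → ℕ → ι → F} {η : ℕ → F}
    (h : Jet q θ x e V V' w z η) (hq : 2 ≤ q) (hU : Ht θ U) (hθ : θ ∈ U)
    (h0 : ∀ i, x i ∈ U ∧ V e 0 i ∈ U ∧ w e 0 i ∈ U ∧ z e 0 i ∈ U) :
    ∀ j m, j + e ≤ m → ∀ i, V m j i ∈ U ^ q ^ m ∧ w m j i ∈ U ^ q ^ m ∧ z m j i ∈ U ^ q ^ m := by
  refine jet_ind _ (fun i => ?_) (fun m hm ih i => ?_) fun m j hj ih i => ?_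
  · have : U ≤ U ^ q ^ e := by
      simpa using hU.mono (a := 1) (Nat.one_le_pow e q (by omega))
    exact ⟨this (h0 i).2.1, this (h0 i).2.2.1, this (h0 i).2.2.2⟩
  · have h1 : θ ^ q ^ 0 - θ ^ q ^ m ∈ U ^ q ^ m :=
      sub_mem (hU.le (c_mem hθ _) (Nat.pow_le_pow_right (by omega) (by omega))) (c_mem hθ _)
    have h2 : q ^ m + q ^ m ≤ q ^ (m + 1) := by rw [pow_succ]; nlinarith [Nat.zero_le (q ^ m)]
    have h3 : q ^ m ≤ q ^ (m + 1) := by omega
    rw [h.Vrec m 0 i (by omega), h.wrec m 0 i (by omega), h.zrec m 0 i (by omega)]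
    exact ⟨add_mem (hU.le (Ht.mul h1 (ih i).1) h2) (hU.le (c_mem (h0 i).1 _) h3),
      add_mem (hU.le (ih i).1 h3) (hU.le (Ht.mul h1 (ih i).2.1) h2),
      hU.le (Ht.mul h1 (ih i).2.2) h2⟩
  · rw [h.Vtw m j i hj, h.wtw m j i hj, h.ztw m j i hj, pow_succ q]
    exact ⟨Ht.pow (ih i).1 q, Ht.pow (ih i).2.1 q, Ht.pow (ih i).2.2 q⟩

lemma rv_eq (R : Option ι → F[X]) (c a : F) (y : ι → F) :
    rv R c a y = ∑ o, (R o).eval c * o.elim a y := by
  rw [Fintype.sum_option]; rfl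

lemma aux (hU : Ht θ U) (d : Option ι → ℕ) (p κ : ℕ) (hκ : 2 ≤ κ) (hp : 1 ≤ p)
    (hd : κ * p < ∑ o, d o) : ∃ c : ℕ, ∀ (L a t : ℕ) (cc : ℕ → F) (Y W Z : ℕ → ι → F), 1 ≤ L →
    (∀ j < p * L, cc j ∈ U ^ a ∧ ∀ i, Y j i ∈ U ^ a ∧ W j i ∈ U ^ a ∧ Z j i ∈ U ^ a) →
    ((∑ o, d o) * L + 1) * a ≤ 2 ^ t →
    (κ = 3 ∨ ∀ j < p * L, ∀ i, d (some i) = 0 ∨ Z j i = 0) →
    ∃ B : Option ι → F[X], B ≠ 0 ∧
      (∀ o, PU U (c * (t + 1) * (((∑ o, d o) * L + 1) * a)) (d o * L) (B o)) ∧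
      ∀ j < p * L, Cond B (cc j) (Y j) (W j) (Z j) := by
  classical
  obtain ⟨c, hc⟩ := hU.sie (κ * p) (Nat.mul_pos (by omega) hp)
  refine ⟨c, fun L a t cc Y W Z hL hm ht h3 => ?_⟩
  have hcard : Fintype.card (Σ o : Option ι, Fin (d o * L)) = (∑ o, d o) * L := by
    simp only [Fintype.card_sigma, Fintype.card_fin, sum_mul]
  have : Nonempty (Σ o : Option ι, Fin (d o * L)) := by
    rw [← Fintype.card_pos_iff, hcard]
    exact Nat.mul_pos (by omega) hL
  let A : ℕ → ℕ → (Σ o : Option ι, Fin (d o * L)) → F := fun j s u =>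
    if s = 0 then cc j ^ (u.2 : ℕ) * u.1.elim 1 (Y j) else if s = 1 then
      (u.2 : ℕ) * cc j ^ ((u.2 : ℕ) - 1) * u.1.elim 1 (Y j) + cc j ^ (u.2 : ℕ) * u.1.elim 0 (W j)
    else cc j ^ (u.2 : ℕ) * u.1.elim 0 (Z j)
  obtain ⟨b, hb0, hb, hs⟩ := hc (Σ o : Option ι, Fin (d o * L)) (Fin (p * L) × Fin κ)
    (fun s => A s.1 s.2) _ t ht (fun s u => by
      obtain ⟨m1, m2⟩ := hm s.1 s.1.2
      have hl : (u.2 : ℕ) ≤ (∑ o, d o) * L := u.2.2.le.trans (Nat.mul_le_mul_right _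
        (single_le_sum (f := d) (fun _ _ => Nat.zero_le _) (mem_univ _)))
      have key : ∀ (l : ℕ) (y : F), l ≤ (∑ o, d o) * L → y ∈ U ^ a →
          cc s.1 ^ l * y ∈ U ^ (((∑ o, d o) * L + 1) * a) := fun l y hl hy =>
        hU.le (Ht.mul (Ht.pow m1 l) hy) (by nlinarith)
      have e1 : u.1.elim 1 (Y s.1) ∈ U ^ a := by
        cases u.1 with
        | none => exact hU.one_mem a
        | some i => exact (m2 i).1
      have e2 : u.1.elim 0 (W s.1) ∈ U ^ a := by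
        cases u.1 with
        | none => exact zero_mem _
        | some i => exact (m2 i).2.1
      have e3 : u.1.elim 0 (Z s.1) ∈ U ^ a := by
        cases u.1 with
        | none => exact zero_mem _
        | some i => exact (m2 i).2.2
      simp only [A]
      split_ifs
      · exact key _ _ hl e1
      · refine add_mem ?_ (key _ _ hl e2)
        rw [mul_assoc, ← nsmul_eq_mul]
        exact nsmul_mem (key _ _ (by omega) e1) _
      · exact key _ _ hl e3)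
    (by
      rw [hcard, Fintype.card_prod, Fintype.card_fin, Fintype.card_fin]
      calc _ = κ * p * ((κ * p + 1) * L) := by ring
        _ ≤ _ := by gcongr; omega)
  let B : Option ι → F[X] := fun o => ∑ l : Fin (d o * L), C (b ⟨o, l⟩) * X ^ (l : ℕ)
  have hco : ∀ o (l : Fin (d o * L)), (B o).coeff l = b ⟨o, l⟩ := fun o l => by
    simp only [B, finsetSum_coeff, coeff_C_mul_X_pow]
    rw [sum_eq_single l (fun l' _ h => if_neg fun e => h (Fin.ext e.symm)) (by simp), if_pos rfl]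
  refine ⟨B, fun e => hb0 (funext fun u => ?_), fun o => ⟨fun i => ?_, degree_sum_fin_lt _⟩,
    fun j hj => ⟨?_, ?_, ?_⟩⟩
  · rw [← hco u.1 u.2, e]; rfl
  · simp only [B, finsetSum_coeff, coeff_C_mul_X_pow]
    refine sum_mem fun l _ => ?_
    split_ifs
    · exact hb _
    · exact zero_mem _
  · refine Eq.trans ?_ (hs (⟨j, hj⟩, ⟨0, by omega⟩))
    rw [rv_eq, Fintype.sum_sigma]
    refine sum_congr rfl fun o _ => ?_
    simp only [B, A, eval_finsetSum, sum_mul, if_true, eval_mul, eval_C, eval_pow, eval_X]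
    exact sum_congr rfl fun l _ => by ring
  · refine Eq.trans ?_ (hs (⟨j, hj⟩, ⟨1, by omega⟩))
    rw [rv_eq, rv_eq, ← sum_add_distrib, Fintype.sum_sigma]
    refine sum_congr rfl fun o _ => ?_
    simp only [B, A, derivative_sum, derivative_C_mul, derivative_X_pow, eval_finsetSum, sum_mul,
      if_true, one_ne_zero, if_false, eval_mul, eval_C, eval_pow, eval_X, ← sum_add_distrib]
    exact sum_congr rfl fun l _ => by ring
  · rcases h3 with h3 | h3
    · refine Eq.trans ?_ (hs (⟨j, hj⟩, ⟨2, by omega⟩))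
      rw [rv_eq, Fintype.sum_sigma]
      refine sum_congr rfl fun o _ => ?_
      simp only [B, A, eval_finsetSum, sum_mul, eval_mul, eval_C, eval_pow, eval_X]
      exact sum_congr rfl fun l _ => by simp; ring
    · rw [rv, mul_zero, zero_add]
      refine sum_eq_zero fun i _ => ?_
      rcases h3 j hj i with h | h
      · have : B (some i) = 0 := sum_eq_zero fun l _ => absurd l.2 (by simp [h])
        rw [this, eval_zero, zero_mul]
      · rw [h, mul_zero]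

end Pool.Agent.CSU
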