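import Pool.Agent.Lib.MP_bf776f_nt.SU.A0

/-! Three independent points. -/

namespace Pool.Agent.CSU

open Polynomial Finset

/-- Three points, linearly independent over `k(θ)`. -/
def BS : Prop :=
  ∀ (k F : Type) [Field k] [Fintype k] [NormedField F] [IsUltrametricDist F] [CompleteSpace F]
    [Algebra k F] (θ : F) (u : Fin 3 → F), 1 < ‖θ‖ → (∀ i, IsAlgebraic (Kinf k θ) (u i)) →
    (∀ β : Fin 3 → k[X], β ≠ 0 → ∑ i, aeval θ (β i) * u i ≠ 0) →
    ∀ y : F, ¬ ∀ i, IsAlgebraic (Algebra.adjoin k (Set.range ![θ, y])) (u i) ∧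
      IsAlgebraic (Algebra.adjoin k (Set.range ![θ, y])) (cE (Fintype.card k) θ (u i))

theorem bfin : AS → B0S → BS := by
  intro hA hB k F _ _ _ _ _ _ θ u hθ hal hi y hu
  by_cases h : ∀ β : Fin 3 → k[X], β ≠ 0 → cE (Fintype.card k) θ (∑ i, aeval θ (β i) * u i) ≠ 0
  · exact hB k F θ u hθ hal h y hu
  push Not at h
  obtain ⟨β, hβ, h0⟩ := h
  have al : Al k θ y (∑ i, aeval θ (β i) * u i) := by
    rw [Fin.sum_univ_three]
    exact (((al_pol θ y _).mul (hu 0).1).add ((al_pol θ y _).mul (hu 1).1)).add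
      ((al_pol θ y _).mul (hu 2).1)
  have key : ∀ i, ∃ a b : k[X], b ≠ 0 ∧
      aeval θ b * u i = aeval θ a * ∑ i, aeval θ (β i) * u i := fun i => by
    by_contra hc
    push Not at hc
    exact hA k F θ _ (u i) hθ (hi β hβ) h0 hc y ⟨al, hu i⟩
  obtain ⟨a, b, hb, h1⟩ := key 0
  obtain ⟨c, d, hd, h2⟩ := key 1
  generalize ∑ i, aeval θ (β i) * u i = l at h1 h2
  by_cases ha : a = 0
  · refine hi ![b, 0, 0] (fun e => hb (congrFun e 0)) ?_
    simpa [Fin.sum_univ_three, ha] using h1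
  · refine hi ![-(b * c), a * d, 0] (fun e => mul_ne_zero ha hd (congrFun e 1)) ?_
    simp only [Fin.sum_univ_three, Matrix.cons_val_zero, Matrix.cons_val_one, Matrix.cons_val,
      map_neg, map_mul, map_zero]
    linear_combination aeval θ a * h2 - aeval θ c * h1

end Pool.Agent.CSU
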