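import Pool.Agent.Lib.MP_bf776f_nt.SU.Hgt

/-! Carlitz exponential, its generating functions, rows and the block statements. -/

namespace Pool.Agent.CSU

open Polynomial Finset

section Carlitz

variable {F : Type} [NormedField F]

/-- The Carlitz factorial. -/
noncomputable def cD (q : ℕ) (θ : F) (i : ℕ) : F := ∏ l ∈ range i, (θ ^ q ^ i - θ ^ q ^ l)

/-- The Carlitz exponential. -/
noncomputable def cE (q : ℕ) (θ z : F) : F := ∑' i : ℕ, z ^ q ^ i / cD q θ i

/-- The `m`-th twist of the generating function of `u`, at the point `θ^(q^j)`. -/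
noncomputable def phi (q : ℕ) (θ u : F) (m j : ℕ) : F :=
  ∑' i : ℕ, u ^ q ^ (i + m) / (cD q θ i ^ q ^ m * (θ ^ q ^ (i + m) - θ ^ q ^ j))

/-- Its derivative in the variable `t`. -/
noncomputable def phi' (q : ℕ) (θ u : F) (m j : ℕ) : F :=
  ∑' i : ℕ, u ^ q ^ (i + m) / (cD q θ i ^ q ^ m * (θ ^ q ^ (i + m) - θ ^ q ^ j) ^ 2)

end Carlitz

variable {F : Type} [Field F] {ι : Type} [Fintype ι]

/-- Jet data of a system: values `V`, true derivatives `V'`, and `V' = w + η z`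
(level `m`, point `θ^(q^j)`, meaningful for `j + e ≤ m`). -/
structure Jet (q : ℕ) (θ : F) (x : ι → F) (e : ℕ) (V V' w z : ℕ → ℕ → ι → F) (η : ℕ → F) :
    Prop where
  e1 : 1 ≤ e
  Vrec : ∀ m j i, j + e ≤ m → V (m + 1) j i = (θ ^ q ^ j - θ ^ q ^ m) * V m j i + x i ^ q ^ m
  wrec : ∀ m j i, j + e ≤ m → w (m + 1) j i = V m j i + (θ ^ q ^ j - θ ^ q ^ m) * w m j i
  zrec : ∀ m j i, j + e ≤ m → z (m + 1) j i = (θ ^ q ^ j - θ ^ q ^ m) * z m j i
  Vtw : ∀ m j i, j + e ≤ m → V (m + 1) (j + 1) i = V m j i ^ q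
  wtw : ∀ m j i, j + e ≤ m → w (m + 1) (j + 1) i = w m j i ^ q
  ztw : ∀ m j i, j + e ≤ m → z (m + 1) (j + 1) i = z m j i ^ q
  dec : ∀ m j i, j + e ≤ m → V' m j i = w m j i + η j * z m j i

/-- Value of the row `R` against `(a, y)` at the point `c`. -/
noncomputable def rv (R : Option ι → F[X]) (c a : F) (y : ι → F) : F :=
  (R none).eval c * a + ∑ i, (R (some i)).eval c * y i

/-- The three conditions at one point. -/
def Cond (R : Option ι → F[X]) (c : F) (v w z : ι → F) : Prop :=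
  rv R c 1 v = 0 ∧ rv (fun o => derivative (R o)) c 1 v + rv R c 0 w = 0 ∧ rv R c 0 z = 0

/-- Transport of a row from level `m` to level `m + 1`. -/
noncomputable def trA (q : ℕ) (θ : F) (x : ι → F) (m : ℕ) (R : Option ι → F[X]) :
    Option ι → F[X]
  | none => (X - C (θ ^ q ^ m)) * R none - ∑ i, C (x i ^ q ^ m) * R (some i)
  | some i => R (some i)

/-- Twist of a row by a ring endomorphism. -/
noncomputable def tw (σ : F →+* F) (R : Option ι → F[X]) : Option ι → F[X] :=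
  fun o => (R o).map σ

/-- Zero estimate with slopes `d`, `p`, `lam`. -/
def ZE (q : ℕ) (θ : F) (σ : F →+* F) (e : ℕ) (V w z : ℕ → ℕ → ι → F) (d : Option ι → ℕ)
    (p lam : ℕ) : Prop :=
  ∃ L0 : ℕ, ∀ L, L0 ≤ L → ∀ B : Option ι → F[X], B ≠ 0 → (∀ o, (B o).degree < (d o * L : ℕ)) →
    (∀ j < p * L, Cond B (θ ^ q ^ j) (V (e + p * L) j) (w (e + p * L) j) (z (e + p * L) j)) →
    ∀ μ : ℕ, (∀ a, 1 ≤ a → a ≤ μ → rv ((tw σ)^[a] B) θ 1 (V (e + p * L + a) 0) = 0) →
      μ ≤ lam * L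

/-- No torsion relation. -/
def NT (k : Type) [Field k] [Algebra k F] (q : ℕ) (θ : F) (σ : F →+* F) (x : ι → F) : Prop :=
  ∀ (T : ℕ) (β : ι → k[X]) (g : F[X]),
    g.map σ = (X - C (θ ^ q ^ T)) * g - ∑ i, C (x i ^ q ^ T) * (β i).map (algebraMap k F) →
      β = 0

end Pool.Agent.CSU
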