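import Pool.Agent.Lib.MP_bf776f_nt.SU.A
import Pool.Agent.Lib.MP_bf776f_nt.CF.Defs

/-! Fixed points are not torsion; passage to the transcendence degree. -/

namespace Pool.Agent.CSU

open Polynomial

variable {k F : Type} [Field k] [Fintype k] [NormedField F] [IsUltrametricDist F] [Algebra k F]

omit [Fintype k] [IsUltrametricDist F] in
lemma trd {θ : F} (s : Set F) (h : ∀ y, ¬ ∀ a ∈ s, Al k θ y a) :
    2 ≤ Algebra.trdeg (CF.K k θ) (IntermediateField.adjoin (CF.K k θ) s) := by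
  by_contra hlt
  set L := IntermediateField.adjoin (CF.K k θ) s
  obtain ⟨t, ht⟩ := exists_isTranscendenceBasis (CF.K k θ) L
  rw [← ht.cardinalMk_eq_trdeg, Cardinal.two_le_iff] at hlt
  obtain ⟨y, hy⟩ : ∃ y : L, ∀ a ∈ t, a = y := by
    rcases t.eq_empty_or_nonempty with rfl | ⟨y, hy⟩
    · exact ⟨0, by simp⟩
    · exact ⟨y, fun a ha => by_contra fun hne =>
        hlt ⟨⟨a, ha⟩, ⟨y, hy⟩, fun e => hne (congrArg Subtype.val e)⟩⟩
  refine h y fun a ha => ?_
  let A := Subalgebra.algebraicClosure (Algebra.adjoin k (Set.range ![θ, (y : F)])) F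
  have h1 : ∀ z ∈ Algebra.adjoin (CF.K k θ) (Set.range ((↑) : t → L)), (z : F) ∈ A := by
    intro z hz
    induction hz using Algebra.adjoin_induction with
    | mem z hz =>
      obtain ⟨z, rfl⟩ := hz
      rw [hy z z.2]
      exact A.algebraMap_mem ⟨_, Algebra.subset_adjoin ⟨1, rfl⟩⟩
    | algebraMap r =>
      obtain ⟨a, b, hr⟩ := (IntermediateField.mem_adjoin_simple_iff k (r : F)).1 r.2
      have : Al k θ y (r : F) := by
        rw [hr, div_eq_mul_inv]; exact (al_pol θ y a).mul (al_pol θ y b).inv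
      exact this
    | add a b _ _ ha hb => exact add_mem ha hb
    | mul a b _ _ ha hb => exact mul_mem ha hb
  let f : Algebra.adjoin (CF.K k θ) (Set.range ((↑) : t → L)) →+* A :=
    (L.val.toRingHom.comp (Subalgebra.val _).toRingHom).codRestrict A fun z => h1 z z.2
  have h2 : IsAlgebraic A a :=
    (ht.isAlgebraic.isAlgebraic ⟨a, IntermediateField.subset_adjoin _ _ ha⟩).ringHom_of_comp_eq f
      L.val.toRingHom (fun z w e => Subtype.ext (Subtype.ext (congrArg (fun a : A => (a : F)) e))) rfl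
  exact h2.restrictScalars _

variable [CompleteSpace F] {θ : F}

lemma grow (hθ : 1 < ‖θ‖) {u : F} (hu : ‖θ‖ < ‖cE (Fintype.card k) θ u‖) (n : ℕ) :
    ∀ b : k[X], b.natDegree = n → b ≠ 0 →
      ‖cE (Fintype.card k) θ u‖ ≤ ‖cE (Fintype.card k) θ (aeval θ b * u)‖ := by
  have h := fr k F
  induction n using Nat.strong_induction_on with
  | _ n ih =>
    intro b hn hb
    have e : cE (Fintype.card k) θ (aeval θ b * u) =
        cE (Fintype.card k) θ (aeval θ b.divX * u) ^ Fintype.card k +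
          (θ * cE (Fintype.card k) θ (aeval θ b.divX * u) +
            algebraMap k F (b.coeff 0) * cE (Fintype.card k) θ u) := by
      conv_lhs => rw [← divX_mul_X_add b, map_add, map_mul, aeval_X, aeval_C, add_mul,
        mul_comm _ θ, mul_assoc, h.cE_add hθ, h.cE_th hθ, h.cE_fix hθ (fix_k _)]
      ring
    by_cases h0 : b.divX = 0
    · have hc : b.coeff 0 ≠ 0 := fun hc => hb (by rw [← divX_mul_X_add b, h0, hc]; simp)
      rw [e, h0]
      simp [h.cE_zero hθ, norm_k norm_fin hc]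
    have h1 := ih _ (by
      have := natDegree_divX_eq_natDegree_tsub_one (p := b)
      have h2 : b.natDegree ≠ 0 := fun h2 => h0 (divX_eq_zero_iff.2 (eq_C_of_natDegree_eq_zero h2))
      omega) b.divX rfl h0
    set y := cE (Fintype.card k) θ (aeval θ b.divX * u)
    have h2 : ‖θ‖ * ‖y‖ < ‖y ^ Fintype.card k‖ := by
      rw [norm_pow]
      refine lt_of_lt_of_le ?_ (pow_le_pow_right₀ (by linarith) h.lt)
      rw [sq]
      exact mul_lt_mul_of_pos_right (by linarith) (by linarith)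
    have h3 : ‖y‖ ≤ ‖θ‖ * ‖y‖ := le_mul_of_one_le_left (norm_nonneg _) hθ.le
    have h4 : ‖θ * y + algebraMap k F (b.coeff 0) * cE (Fintype.card k) θ u‖ ≤ ‖θ‖ * ‖y‖ :=
      nadd_le (norm_mul _ _).le (by
        rw [norm_mul]
        exact (mul_le_of_le_one_left (norm_nonneg _) (norm_fin _)).trans (h1.trans h3))
    rw [e, IsUltrametricDist.norm_add_eq_max_of_norm_ne_norm (h4.trans_lt h2).ne']
    exact le_max_of_le_left (by linarith)

lemma fix_big (hθ : 1 < ‖θ‖) {u : F} (h0 : u ≠ 0) (hu : cE (Fintype.card k) θ u = u) :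
    ‖θ‖ < ‖u‖ := by
  have h := fr k F
  by_contra hle
  have hθ0 : θ ≠ 0 := norm_pos_iff.1 (by positivity)
  obtain ⟨w, rfl⟩ : ∃ w, u = θ * w := ⟨u / θ, (mul_div_cancel₀ _ hθ0).symm⟩
  have hw0 : 0 < ‖w‖ := norm_pos_iff.2 (right_ne_zero_of_mul h0)
  have hw : ‖w‖ ≤ 1 := by
    rw [norm_mul, not_lt] at hle
    exact (mul_le_iff_le_one_right (by positivity)).1 hle
  rw [h.cE_th hθ] at hu
  have h1 : ‖θ‖ * ‖cE (Fintype.card k) θ w - w‖ = ‖w‖ ^ Fintype.card k := by
    rw [← h.norm_cE hθ hw, ← norm_pow, ← norm_mul, ← norm_neg]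
    congr 1
    linear_combination -hu
  have h2 := h.norm_cE_sub' hθ hw
  rw [le_div_iff₀ (by positivity), ← h1, mul_comm] at h2
  have h3 : 0 < ‖cE (Fintype.card k) θ w - w‖ :=
    (mul_pos_iff_of_pos_left (by positivity)).1 (h1 ▸ pow_pos hw0 _)
  have h4 := le_of_mul_le_mul_right h2 h3
  have h5 := pow_lt_pow_right₀ hθ h.lt
  rw [pow_one] at h5
  linarith

lemma fix_ne (hθ : 1 < ‖θ‖) {lam u : F} (hl : cE (Fintype.card k) θ lam = 0) (h0 : u ≠ 0)
    (hu : cE (Fintype.card k) θ u = u) (a b : k[X]) (hb : b ≠ 0) :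
    aeval θ b * u ≠ aeval θ a * lam := fun e => by
  have h1 := grow hθ (hu.symm ▸ fix_big hθ h0 hu) _ b rfl hb
  have h2 : ∀ a : k[X], cE (Fintype.card k) θ (aeval θ a * lam) = 0 := fun a => by
    induction a using Polynomial.induction_on' with
    | add a b ha hb => rw [map_add, add_mul, (fr k F).cE_add hθ, ha, hb, add_zero]
    | monomial n c =>
      rw [aeval_monomial, mul_assoc, (fr k F).cE_fix hθ (fix_k _), (ax hθ).ezero hl, mul_zero]
  rw [e, h2, hu, norm_zero] at h1
  exact h0 (norm_le_zero_iff.1 h1)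

end Pool.Agent.CSU
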