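import Mathlib

/-! Gelfond's criterion over `k[θ]` for polynomials in two variables. -/

namespace Pool.Agent.CSU

open MvPolynomial Finset

variable {k F : Type} [Field k] [NormedField F] [IsUltrametricDist F] [Algebra k F]

omit [IsUltrametricDist F] in
lemma norm_k (hk : ∀ c : k, ‖algebraMap k F c‖ ≤ 1) {c : k} (hc : c ≠ 0) :
    ‖algebraMap k F c‖ = 1 := by
  refine le_antisymm (hk c) ?_
  have h := hk c⁻¹
  rw [map_inv₀, norm_inv] at h
  have h0 : 0 < ‖algebraMap k F c‖ := norm_pos_iff.2 ((map_ne_zero _).2 hc)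
  exact (inv_le_one₀ h0).1 h

lemma ev_le (hk : ∀ c : k, ‖algebraMap k F c‖ ≤ 1) (x : Fin 2 → F) {r : ℝ} (hr : 1 ≤ r)
    (hx : ∀ i, ‖x i‖ ≤ r) (P : MvPolynomial (Fin 2) k) {n : ℕ} (hn : P.totalDegree ≤ n) :
    ‖aeval x P‖ ≤ r ^ n := by
  rw [aeval_def, eval₂_eq']
  refine IsUltrametricDist.norm_sum_le_of_forall_le_of_nonneg (by positivity) fun d hd => ?_
  have h1 : d 0 + d 1 ≤ n := by
    have := le_totalDegree hd
    rw [Finsupp.sum_fintype _ _ (by simp), Fin.sum_univ_two] at this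
    omega
  rw [norm_mul, Fin.prod_univ_two, norm_mul, norm_pow, norm_pow]
  calc _ ≤ 1 * (r ^ d 0 * r ^ d 1) := by
        gcongr
        · exact hk _
        · exact hx 0
        · exact hx 1
    _ = r ^ (d 0 + d 1) := by rw [one_mul, pow_add]
    _ ≤ r ^ n := pow_le_pow_right₀ hr h1

lemma ev_ge (hk : ∀ c : k, ‖algebraMap k F c‖ ≤ 1) (x : Fin 2 → F) (h0 : 1 < ‖x 0‖)
    (P : MvPolynomial (Fin 2) k) (hP : P ≠ 0) (h1 : ∀ d ∈ P.support, d 1 = 0) :
    1 ≤ ‖aeval x P‖ := by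
  rw [aeval_def, eval₂_eq']
  have hne : P.support.Nonempty := support_nonempty.2 hP
  have key : ∀ d ∈ P.support,
      ‖algebraMap k F (coeff d P) * ∏ i, x i ^ d i‖ = ‖x 0‖ ^ d 0 := by
    intro d hd
    rw [norm_mul, norm_k hk (mem_support_iff.1 hd), Fin.prod_univ_two, h1 d hd]
    simp
  rw [IsUltrametricDist.norm_sum_eq_sup'_of_pairwise_ne hne]
  · obtain ⟨d, hd⟩ := hne
    refine le_trans ?_ (le_sup' _ hd)
    rw [key d hd]
    exact one_le_pow₀ h0.le
  · intro d hd d' hd' hne h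
    rw [key d hd, key d' hd'] at h
    have := pow_right_injective₀ (by linarith) h0.ne' h
    apply hne
    ext i
    fin_cases i
    · exact this
    · simp [h1 d hd, h1 d' hd']

/-- The exponent vector `(i, j)`. -/
noncomputable def mo (i j : ℕ) : Fin 2 →₀ ℕ := Finsupp.single 0 i + Finsupp.single 1 j

@[simp] lemma mo0 (i j : ℕ) : mo i j 0 = i := by simp [mo]
@[simp] lemma mo1 (i j : ℕ) : mo i j 1 = j := by simp [mo]

lemma mo_eq (d : Fin 2 →₀ ℕ) : mo (d 0) (d 1) = d := by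
  ext i; fin_cases i <;> simp

/-- The polynomial with a given box of coefficients. -/
noncomputable def pol (k : Type) [Field k] (a b : ℕ) :
    (Fin a × Fin b → k) →ₗ[k] MvPolynomial (Fin 2) k :=
  ∑ t : Fin a × Fin b, (monomial (mo t.1 t.2)).comp (LinearMap.proj t)

lemma pol_coeff {a b : ℕ} (v : Fin a × Fin b → k) (t : Fin a × Fin b) :
    coeff (mo t.1 t.2) (pol k a b v) = v t := by
  classical
  simp only [pol, LinearMap.sum_apply, LinearMap.comp_apply, LinearMap.proj_apply, coeff_sum,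
    coeff_monomial]
  rw [sum_eq_single t]
  · simp
  · intro s _ hs
    rw [if_neg]
    intro h
    apply hs
    have h0 := congrArg (· 0) h
    have h1 := congrArg (· 1) h
    simp only [mo0, mo1] at h0 h1
    exact Prod.ext (Fin.ext h0) (Fin.ext h1)
  · simp

lemma pol_supp {a b : ℕ} (v : Fin a × Fin b → k) {d : Fin 2 →₀ ℕ}
    (hd : d ∈ (pol k a b v).support) : d 0 < a ∧ d 1 < b := by
  classical
  by_contra hn
  apply mem_support_iff.1 hd
  simp only [pol, LinearMap.sum_apply, LinearMap.comp_apply, LinearMap.proj_apply, coeff_sum,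
    coeff_monomial]
  refine sum_eq_zero fun t _ => if_neg ?_
  rintro rfl
  exact hn ⟨by simp, by simp⟩

lemma pol_deg {a b : ℕ} (v : Fin a × Fin b → k) : (pol k a b v).totalDegree ≤ a + b := by
  refine Finset.sup_le fun d hd => ?_
  rw [Finsupp.sum_fintype _ _ (by simp), Fin.sum_univ_two]
  have := pol_supp v hd
  omega

lemma supp_mul {P Q : MvPolynomial (Fin 2) k} {d : Fin 2 →₀ ℕ} (hd : d ∈ (P * Q).support) :
    ∃ e ∈ P.support, ∃ f ∈ Q.support, d = e + f := by
  classical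
  obtain ⟨e, he, f, hf, h⟩ := Finset.mem_add.1 (support_mul P Q hd)
  exact ⟨e, he, f, hf, h.symm⟩

lemma res (hk : ∀ c : k, ‖algebraMap k F c‖ ≤ 1) (x : Fin 2 → F) (h0 : 1 < ‖x 0‖) {r : ℝ}
    (hr : 1 ≤ r) (hx : ∀ i, ‖x i‖ ≤ r) {Q Q' : MvPolynomial (Fin 2) k} (hQ : Prime Q)
    (hQ' : Q' ≠ 0) (hd : ¬ Q ∣ Q') :
    1 ≤ r ^ (5 * (Q.totalDegree * Q'.totalDegree)) * max ‖aeval x Q‖ ‖aeval x Q'‖ := by
  classical
  have hone : (1 : ℝ) ≤ r ^ (5 * (Q.totalDegree * Q'.totalDegree)) := one_le_pow₀ hr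
  set m := Q.degreeOf 1 with hm
  set m' := Q'.degreeOf 1 with hm'
  set s := Q.totalDegree with hs
  set s' := Q'.totalDegree with hs'
  rcases Nat.eq_zero_or_pos m with h | hmp
  · have := ev_ge hk x h0 Q hQ.ne_zero fun d hd => by
      have := monomial_le_degreeOf 1 hd
      omega
    exact one_le_mul_of_one_le_of_one_le hone (this.trans (le_max_left _ _))
  rcases Nat.eq_zero_or_pos m' with h | hmp'
  · have := ev_ge hk x h0 Q' hQ' fun d hd => by
      have := monomial_le_degreeOf 1 hd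
      omega
    exact one_le_mul_of_one_le_of_one_le hone (this.trans (le_max_right _ _))
  have hms : m ≤ s := degreeOf_le_totalDegree Q 1
  have hms' : m' ≤ s' := degreeOf_le_totalDegree Q' 1
  set h := m' * s + m * s' with hh
  let V := (Fin (h + s' + 1) × Fin m' → k) × (Fin (h + s + 1) × Fin m → k)
  let ψ : V →ₗ[k] MvPolynomial (Fin 2) k :=
    (LinearMap.mulRight k Q).comp ((pol k _ _).comp (LinearMap.fst k _ _)) +
      (LinearMap.mulRight k Q').comp ((pol k _ _).comp (LinearMap.snd k _ _))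
  let φ : V →ₗ[k] (Fin (h + s + s' + 1) × Fin (m + m' - 1) → k) :=
    LinearMap.pi fun t => (lcoeff k (mo t.1 (t.2 + 1))).comp ψ
  have hker : LinearMap.ker φ ≠ ⊥ := by
    refine φ.ker_ne_bot_of_finrank_lt ?_
    simp only [V, Module.finrank_prod, Module.finrank_pi, Fintype.card_prod, Fintype.card_fin]
    obtain ⟨n, hn⟩ : ∃ n, m + m' = n + 1 := ⟨m + m' - 1, by omega⟩
    rw [hn, Nat.add_sub_cancel]
    have : (h + s + s' + 1) * (m + m') = (h + s + s' + 1) * (n + 1) := by rw [hn]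
    nlinarith
  obtain ⟨v, hv, hv0⟩ := (Submodule.ne_bot_iff _).1 hker
  have hψ : ψ v = pol k _ _ v.1 * Q + pol k _ _ v.2 * Q' := rfl
  have hsup : ∀ d ∈ (ψ v).support, d 1 = 0 := by
    intro d hd
    by_contra hd1
    have hb : d 0 < h + s + s' + 1 ∧ d 1 < m + m' := by
      rw [hψ] at hd
      rcases mem_union.1 (support_add hd) with h1 | h1
      · obtain ⟨e, he, f, hf, rfl⟩ := supp_mul h1
        have a1 := pol_supp _ he
        have a2 := (monomial_le_degreeOf 0 hf).trans (degreeOf_le_totalDegree Q 0)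
        have a3 := monomial_le_degreeOf 1 hf
        simp only [Finsupp.add_apply]
        omega
      · obtain ⟨e, he, f, hf, rfl⟩ := supp_mul h1
        have a1 := pol_supp _ he
        have a2 := (monomial_le_degreeOf 0 hf).trans (degreeOf_le_totalDegree Q' 0)
        have a3 := monomial_le_degreeOf 1 hf
        simp only [Finsupp.add_apply]
        omega
    have := congrFun (LinearMap.mem_ker.1 hv) (⟨d 0, hb.1⟩, ⟨d 1 - 1, by omega⟩)
    simp only [φ, LinearMap.pi_apply, LinearMap.comp_apply, lcoeff_apply, Pi.zero_apply] at this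
    rw [show d 1 - 1 + 1 = d 1 by omega, mo_eq] at this
    exact mem_support_iff.1 hd this
  have hne : ψ v ≠ 0 := by
    intro h0
    rw [hψ] at h0
    have h2 : pol k _ _ v.2 = 0 := by
      by_contra h2
      have : Q ∣ pol k _ _ v.2 * Q' := ⟨-pol k _ _ v.1, by linear_combination h0⟩
      obtain ⟨c, hc⟩ := (hQ.dvd_or_dvd this).resolve_right hd
      have hc0 : c ≠ 0 := by rintro rfl; simp [h2] at hc
      have a1 : (pol k _ _ v.2).degreeOf 1 < m :=
        (degreeOf_lt_iff hmp).2 fun d hd => (pol_supp _ hd).2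
      rw [hc, degreeOf_mul_eq hQ.ne_zero hc0] at a1
      omega
    rw [h2, zero_mul, add_zero] at h0
    have h1 := (mul_eq_zero.1 h0).resolve_right hQ.ne_zero
    apply hv0
    refine Prod.ext (funext fun t => ?_) (funext fun t => ?_)
    · rw [← pol_coeff v.1 t, h1]; simp
    · rw [← pol_coeff v.2 t, h2]; simp
  refine (ev_ge hk x h0 _ hne hsup).trans ?_
  rw [hψ, map_add, map_mul, map_mul]
  have b1 : m' * s ≤ s * s' := by nlinarith
  have b2 : m * s' ≤ s * s' := by nlinarith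
  have b3 : s ≤ s * s' := by nlinarith
  have b4 : s' ≤ s * s' := by nlinarith
  refine (IsUltrametricDist.norm_add_le_max _ _).trans (max_le ?_ ?_)
  · rw [norm_mul]
    exact mul_le_mul (ev_le hk x hr hx _ ((pol_deg _).trans (by omega))) (le_max_left _ _)
      (norm_nonneg _) (by positivity)
  · rw [norm_mul]
    exact mul_le_mul (ev_le hk x hr hx _ ((pol_deg _).trans (by omega))) (le_max_right _ _)
      (norm_nonneg _) (by positivity)

lemma unit_ge (hk : ∀ c : k, ‖algebraMap k F c‖ ≤ 1) (x : Fin 2 → F) {r : ℝ} (hr : 1 ≤ r)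
    (hx : ∀ i, ‖x i‖ ≤ r) {u : MvPolynomial (Fin 2) k} (hu : IsUnit u) : 1 ≤ ‖aeval x u‖ := by
  obtain ⟨v, hv⟩ := hu.exists_right_inv
  have hv0 : v ≠ 0 := by rintro rfl; simp at hv
  have h1 := totalDegree_mul_of_isDomain hu.ne_zero hv0
  rw [hv, totalDegree_one] at h1
  have h2 := ev_le hk x hr hx v (n := 0) (by omega)
  have h3 : ‖aeval x u‖ * ‖aeval x v‖ = 1 := by rw [← norm_mul, ← map_mul, hv]; simp
  rw [pow_zero] at h2
  nlinarith [norm_nonneg (aeval x u), norm_nonneg (aeval x v)]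

lemma factor (hk : ∀ c : k, ‖algebraMap k F c‖ ≤ 1) (x : Fin 2 → F) {r : ℝ} (hr : 1 ≤ r)
    (hx : ∀ i, ‖x i‖ ≤ r) (t : ℕ) (P : MvPolynomial (Fin 2) k) : P ≠ 0 →
    (∀ Q, Prime Q → Q ∣ P → 1 ≤ r ^ (t * Q.totalDegree) * ‖aeval x Q‖) →
    1 ≤ r ^ (t * P.totalDegree) * ‖aeval x P‖ := by
  refine UniqueFactorizationMonoid.induction_on_prime P (fun h => absurd rfl h) ?_ ?_
  · intro u hu _ _
    exact one_le_mul_of_one_le_of_one_le (one_le_pow₀ hr) (unit_ge hk x hr hx hu)
  · intro a p ha hp ih _ h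
    have h1 := ih ha fun Q hQ hd => h Q hQ (hd.mul_left p)
    have h2 := h p hp (dvd_mul_right p a)
    rw [totalDegree_mul_of_isDomain hp.ne_zero ha, map_mul, norm_mul, mul_add, pow_add]
    calc (1 : ℝ) ≤ _ := one_le_mul_of_one_le_of_one_le h2 h1
      _ = _ := by ring

/-- Gelfond's criterion. -/
theorem gel (hk : ∀ c : k, ‖algebraMap k F c‖ ≤ 1) (x : Fin 2 → F) (h0 : 1 < ‖x 0‖) {r : ℝ}
    (hr : 1 < r) (hx : ∀ i, ‖x i‖ ≤ r) (c b : ℕ) (hc : 1 ≤ c) (hb : 2 ≤ b) (L0 : ℕ)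
    (H : ∀ L, L0 ≤ L → ∃ P : MvPolynomial (Fin 2) k, P.totalDegree ≤ c * b ^ L ∧
      aeval x P ≠ 0 ∧ r ^ (5 * c ^ 2 * b * b ^ (2 * L)) * ‖aeval x P‖ < 1) : False := by
  have key : ∀ L, L0 ≤ L → ∃ Q : MvPolynomial (Fin 2) k, Prime Q ∧ Q.totalDegree ≤ c * b ^ L ∧
      aeval x Q ≠ 0 ∧ r ^ (5 * c * b ^ (L + 1) * Q.totalDegree) * ‖aeval x Q‖ < 1 := by
    intro L hL
    obtain ⟨P, h1, h2, h3⟩ := H L hL
    have hP : P ≠ 0 := by rintro rfl; simp at h2
    by_contra hn
    push Not at hn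
    have := factor hk x hr.le hx (5 * c * b ^ (L + 1)) P hP fun Q hQ hd => by
      refine hn Q hQ ((totalDegree_le_of_dvd_of_isDomain hd hP).trans h1) ?_
      obtain ⟨e, rfl⟩ := hd
      rw [map_mul] at h2
      exact left_ne_zero_of_mul h2
    refine absurd (this.trans ?_) (not_le.2 h3)
    refine mul_le_mul_of_nonneg_right (pow_le_pow_right₀ hr.le ?_) (norm_nonneg _)
    calc _ ≤ 5 * c * b ^ (L + 1) * (c * b ^ L) := Nat.mul_le_mul_left _ h1
      _ = _ := by ring
  choose! Q hQ hd h0' hs using key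
  have step : ∀ L, L0 ≤ L → ‖aeval x (Q L)‖ ≤ ‖aeval x (Q (L + 1))‖ := by
    intro L hL
    have hL' : L0 ≤ L + 1 := by omega
    have hdv : Q L ∣ Q (L + 1) := by
      by_contra hn
      have h := res hk x h0 hr.le hx (hQ L hL) (hQ _ hL').ne_zero hn
      have e1 := hd L hL
      have e2 := hd _ hL'
      have e3 : b ^ L ≤ b ^ (L + 1 + 1) := Nat.pow_le_pow_right (by omega) (by omega)
      rcases le_max_iff.1 (le_of_eq (Eq.refl (max ‖aeval x (Q L)‖ ‖aeval x (Q (L + 1))‖))) with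
        h' | h'
      · refine absurd (h.trans ?_) (not_le.2 (hs L hL))
        refine mul_le_mul (pow_le_pow_right₀ hr.le ?_) h' (by positivity) (by positivity)
        nlinarith
      · refine absurd (h.trans ?_) (not_le.2 (hs _ hL'))
        refine mul_le_mul (pow_le_pow_right₀ hr.le ?_) h' (by positivity) (by positivity)
        have : c * b ^ L ≤ c * b ^ (L + 1 + 1) := Nat.mul_le_mul_left _ e3
        nlinarith
    obtain ⟨u, hu⟩ := hdv
    have hun : IsUnit u :=
      ((hQ _ hL').irreducible.isUnit_or_isUnit hu).resolve_left (hQ L hL).not_isUnit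
    rw [hu, map_mul, norm_mul]
    exact le_mul_of_one_le_right (norm_nonneg _) (unit_ge hk x hr.le hx hun)
  have mono : ∀ n, ‖aeval x (Q L0)‖ ≤ ‖aeval x (Q (L0 + n))‖ := by
    intro n
    induction n with
    | zero => exact le_rfl
    | succ n ih => exact ih.trans (step _ (by omega))
  have hpos : 0 < ‖aeval x (Q L0)‖ := norm_pos_iff.2 (h0' L0 le_rfl)
  obtain ⟨n, hn⟩ := pow_unbounded_of_one_lt (‖aeval x (Q L0)‖⁻¹) hr
  have h1 := hs (L0 + n) (by omega)
  have h2 : 1 ≤ (Q (L0 + n)).totalDegree := by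
    by_contra h
    have h' : (Q (L0 + n)).totalDegree = 0 := by omega
    rw [totalDegree_eq_zero_iff_eq_C] at h'
    have hp := hQ (L0 + n) (by omega)
    apply hp.not_isUnit
    rw [h']
    refine IsUnit.map C (IsUnit.mk0 _ fun h => hp.ne_zero ?_)
    rw [h', h, C_0]
  have h3 : n ≤ 5 * c * b ^ (L0 + n + 1) * (Q (L0 + n)).totalDegree := by
    have a1 : L0 + n + 1 < 2 ^ (L0 + n + 1) := Nat.lt_two_pow_self
    have a2 : 2 ^ (L0 + n + 1) ≤ b ^ (L0 + n + 1) := Nat.pow_le_pow_left hb _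
    have a3 : b ^ (L0 + n + 1) ≤ 5 * c * b ^ (L0 + n + 1) := Nat.le_mul_of_pos_left _ (by omega)
    have a4 := Nat.le_mul_of_pos_right (5 * c * b ^ (L0 + n + 1)) h2
    omega
  have h4 : r ^ n * ‖aeval x (Q L0)‖ < 1 := by
    refine lt_of_le_of_lt ?_ h1
    exact mul_le_mul (pow_le_pow_right₀ hr.le h3) (mono n) (norm_nonneg _) (by positivity)
  rw [inv_lt_iff_one_lt_mul₀ hpos] at hn
  linarith

end Pool.Agent.CSU
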