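import Pool.Agent.Lib.MP_bf776f_nt.SU.Gel

/-! Heights in a finite extension of `k(θ, y)`. -/

namespace Pool.Agent.CSU

open MvPolynomial Finset

variable {k F : Type} [Field k] [NormedField F] [IsUltrametricDist F] [Algebra k F]

/-- The height package of a `k`-subspace `U`. -/
structure Ht (θ : F) (U : Submodule k F) : Prop where
  one : 1 ∈ U
  fin : ∀ n, Module.Finite k ↥(U ^ n)
  dim : ∃ C : ℕ, ∀ n, Module.finrank k ↥(U ^ n) ≤ C * (n + 1) ^ 2
  nrm : ∃ g : ℕ, ∀ n, ∀ w ∈ U ^ n, ‖w‖ ≤ ‖θ‖ ^ (g * n)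
  gel : ∀ b : ℕ, 2 ≤ b → ∃ A : ℕ, ∀ L0 : ℕ,
    ¬ ∀ L, L0 ≤ L → ∃ w ∈ U ^ (b ^ L), w ≠ 0 ∧ ‖θ‖ ^ (A * b ^ (2 * L)) * ‖w‖ < 1

lemma peval_le (p : Polynomial F) {w : F} {B r : ℝ} (hB : 0 ≤ B) (hr : 1 ≤ r) (hw : ‖w‖ ≤ r)
    (h : ∀ i, ‖p.coeff i‖ ≤ B) {n : ℕ} (hn : p.natDegree ≤ n) : ‖p.eval w‖ ≤ B * r ^ n := by
  rw [Polynomial.eval_eq_sum_range]
  refine IsUltrametricDist.norm_sum_le_of_forall_le_of_nonneg (by positivity) fun i hi => ?_
  rw [norm_mul, norm_pow]
  have := mem_range.1 hi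
  exact mul_le_mul (h i) ((pow_le_pow_left₀ (norm_nonneg _) hw i).trans
    (pow_le_pow_right₀ hr (by omega))) (by positivity) hB

lemma trail {w : F} (hw0 : w ≠ 0) (hw : ‖w‖ ≤ 1) {B : ℝ} (hB : 0 ≤ B) (n : ℕ) :
    ∀ p : Polynomial F, p.natDegree = n → p ≠ 0 → p.eval w = 0 → (∀ i, ‖p.coeff i‖ ≤ B) →
      ∃ i, p.coeff i ≠ 0 ∧ ‖p.coeff i‖ ≤ B * ‖w‖ := by
  induction n with
  | zero =>
    intro p hn hp he _
    rw [Polynomial.eq_C_of_natDegree_eq_zero hn] at he hp
    simp at he hp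
    exact absurd he hp
  | succ n ih =>
    intro p hn hp he hc
    have hd := Polynomial.X_mul_divX_add p
    have he' : w * p.divX.eval w + p.coeff 0 = 0 := by
      have := congrArg (Polynomial.eval w) hd
      rwa [he, Polynomial.eval_add, Polynomial.eval_mul, Polynomial.eval_X,
        Polynomial.eval_C] at this
    by_cases h0 : p.coeff 0 = 0
    · obtain ⟨i, hi⟩ := ih p.divX (by rw [Polynomial.natDegree_divX_eq_natDegree_tsub_one]; omega)
        (by intro h; rw [h, h0] at hd; simp at hd; exact hp hd.symm)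
        (by rw [h0, add_zero] at he'; exact (mul_eq_zero.1 he').resolve_left hw0)
        fun i => by rw [Polynomial.coeff_divX]; exact hc _
      rw [Polynomial.coeff_divX] at hi
      exact ⟨_, hi⟩
    · refine ⟨0, h0, ?_⟩
      have := peval_le p.divX hB le_rfl hw (fun i => by rw [Polynomial.coeff_divX]; exact hc _)
        le_rfl
      rw [show p.coeff 0 = -(w * p.divX.eval w) by linear_combination he', norm_neg, norm_mul,
        mul_comm]
      rw [one_pow, mul_one] at this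
      gcongr

lemma char_deg {ι : Type} [Fintype ι] [DecidableEq ι] (a : Matrix ι ι (MvPolynomial (Fin 2) k))
    {n : ℕ} (ha : ∀ i j, (a i j).totalDegree ≤ n) (i : ℕ) :
    (a.charpoly.coeff i).totalDegree ≤ Fintype.card ι * n := by
  have hprod : ∀ (s : Finset ι) (f : ι → Polynomial (MvPolynomial (Fin 2) k)),
      (∀ j i, ((f j).coeff i).totalDegree ≤ n) →
      ∀ i, ((∏ j ∈ s, f j).coeff i).totalDegree ≤ s.card * n := by
    intro s f hf
    induction s using Finset.induction_on with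
    | empty =>
      intro i
      rw [prod_empty, Polynomial.coeff_one]
      split_ifs <;> simp
    | insert j s hj ih =>
      intro i
      rw [prod_insert hj, Polynomial.coeff_mul, card_insert_of_notMem hj]
      refine totalDegree_finsetSum_le fun c _ => (totalDegree_mul _ _).trans ?_
      have := hf j c.1
      have := ih c.2
      nlinarith
  rw [Matrix.charpoly, Matrix.det_apply, Polynomial.finsetSum_coeff]
  refine totalDegree_finsetSum_le fun σ _ => ?_
  have h := hprod univ (fun j => a.charmatrix (σ j) j) (fun j i => ?_) i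
  · rcases Int.units_eq_one_or (Equiv.Perm.sign σ) with h1 | h1 <;> rw [h1]
    · simpa using h
    · simpa using h
  · by_cases hj : σ j = j
    · simp only [hj, Matrix.charmatrix_apply_eq, Polynomial.coeff_sub, Polynomial.coeff_X,
        Polynomial.coeff_C]
      refine (totalDegree_sub _ _).trans (max_le ?_ ?_) <;> split_ifs <;> simp [ha]
    · simp only [Matrix.charmatrix_apply_ne _ _ _ hj, Polynomial.coeff_neg, Polynomial.coeff_C]
      split_ifs <;> simp [ha]

/-- Combinations of `T` with polynomial coefficients of degree at most `n`. -/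
def Wd (k : Type) [Field k] [Algebra k F] (x : Fin 2 → F) (T : Finset F) (n : ℕ) :
    Submodule k F where
  carrier := {z | ∃ P : T → MvPolynomial (Fin 2) k, (∀ t, (P t).totalDegree ≤ n) ∧
    z = ∑ t, aeval x (P t) * t}
  add_mem' := by
    rintro _ _ ⟨P, hP, rfl⟩ ⟨Q, hQ, rfl⟩
    exact ⟨P + Q, fun t => (totalDegree_add _ _).trans (max_le (hP t) (hQ t)), by
      simp [add_mul, sum_add_distrib]⟩
  zero_mem' := ⟨0, by simp, by simp⟩
  smul_mem' := by
    rintro c _ ⟨P, hP, rfl⟩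
    exact ⟨c • P, fun t => (totalDegree_smul_le _ _).trans (hP t), by simp [smul_sum]⟩

section

omit [IsUltrametricDist F]

variable {x : Fin 2 → F} {T : Finset F}

lemma Wd_mul {n m : ℕ} {z : F} (hz : z ∈ Wd k x T n) {P : MvPolynomial (Fin 2) k}
    (hP : P.totalDegree ≤ m) : aeval x P * z ∈ Wd k x T (n + m) := by
  obtain ⟨Q, hQ, rfl⟩ := hz
  refine ⟨fun t => P * Q t, fun t => (totalDegree_mul _ _).trans ?_, by simp [mul_sum, mul_assoc]⟩
  have := hQ t
  omega

lemma Wd_mono {n m : ℕ} (h : n ≤ m) {z : F} (hz : z ∈ Wd k x T n) : z ∈ Wd k x T m := by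
  obtain ⟨Q, hQ, rfl⟩ := hz
  exact ⟨Q, fun t => (hQ t).trans h, rfl⟩

lemma Wd_gen (t : T) : (t : F) ∈ Wd k x T 0 := by
  classical
  refine ⟨Pi.single t 1, fun s => ?_, ?_⟩
  · by_cases h : s = t
    · subst h; simp
    · simp [h]
  · rw [sum_eq_single t] <;> simp +contextual

lemma Wd_dim (n : ℕ) : Module.Finite k (Wd k x T n) ∧
    Module.finrank k (Wd k x T n) ≤ T.card * (n + 1) ^ 2 := by
  classical
  let Φ : (T → Fin (n + 1) × Fin (n + 1) → k) →ₗ[k] F :=
    ∑ t : T, (LinearMap.mulRight k (t : F)).comp ((aeval x).toLinearMap.comp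
      ((pol k _ _).comp (LinearMap.proj t)))
  have hle : Wd k x T n ≤ LinearMap.range Φ := by
    rintro _ ⟨P, hP, rfl⟩
    refine ⟨fun t s => coeff (mo s.1 s.2) (P t), ?_⟩
    simp only [Φ, LinearMap.sum_apply, LinearMap.comp_apply, LinearMap.proj_apply,
      LinearMap.mulRight_apply, AlgHom.toLinearMap_apply]
    refine sum_congr rfl fun t _ => ?_
    congr 2
    ext d
    by_cases hd : d 0 < n + 1 ∧ d 1 < n + 1
    · have := pol_coeff (fun s : Fin (n + 1) × Fin (n + 1) => coeff (mo s.1 s.2) (P t))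
        (⟨d 0, hd.1⟩, ⟨d 1, hd.2⟩)
      simpa [mo_eq] using this
    · rw [notMem_support_iff.1 fun h => hd (pol_supp _ h), notMem_support_iff.1]
      intro h
      have h1 := (monomial_le_degreeOf 0 h).trans (degreeOf_le_totalDegree _ 0)
      have h2 := (monomial_le_degreeOf 1 h).trans (degreeOf_le_totalDegree _ 1)
      have := hP t
      omega
  refine ⟨Submodule.finiteDimensional_of_le hle, (Submodule.finrank_mono hle).trans
    ((LinearMap.finrank_range_le Φ).trans (le_of_eq ?_))⟩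
  simp [Module.finrank_pi_fintype, sq]

lemma exT (S : Finset F) (hS : ∀ ξ ∈ S, IsAlgebraic (Algebra.adjoin k (Set.range x)) ξ) :
    ∃ (T : Finset F) (δ : MvPolynomial (Fin 2) k) (c : ℕ), aeval x δ ≠ 0 ∧ 1 ∈ Wd k x T c ∧
      ∀ ξ ∈ insert 1 (S : Set F), ∀ t : T, aeval x δ * ξ * t ∈ Wd k x T c := by
  classical
  set R := Algebra.adjoin k (Set.range x) with hR
  have hR' : ∀ r : R, ∃ P : MvPolynomial (Fin 2) k, aeval x P = r := fun r => by
    have : (r : F) ∈ Algebra.adjoin k (Set.range x) := r.2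
    rw [Algebra.adjoin_range_eq_range_aeval] at this
    exact this
  choose! d hd0 hd using fun ξ (h : ξ ∈ S) => (hS ξ h).exists_integral_multiple
  set δ : R := ∏ ξ ∈ S, d ξ with hδ
  have hδ0 : δ ≠ 0 := prod_ne_zero_iff.2 hd0
  have hint : ∀ ξ ∈ S, IsIntegral R (δ • ξ) := fun ξ h => by
    rw [hδ, ← mul_prod_erase S d h, mul_comm, mul_smul]
    exact (hd ξ h).smul _
  obtain ⟨T, hT⟩ := fg_adjoin_of_finite (R := R) (s := (fun ξ => δ • ξ) '' (S : Set F))
    (S.finite_toSet.image _) (by rintro _ ⟨ξ, h, rfl⟩; exact hint ξ h)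
  set M := Algebra.adjoin R ((fun ξ => δ • ξ) '' (S : Set F)) with hM
  have hW : ∀ z ∈ M, ∃ n, z ∈ Wd k x T n := by
    intro z hz
    have hz' : z ∈ Submodule.span R (T : Set F) := by rw [hT]; exact hz
    refine Submodule.span_induction (p := fun z _ => ∃ n, z ∈ Wd k x T n) ?_ ?_ ?_ ?_ hz'
    · exact fun t ht => ⟨0, Wd_gen ⟨t, ht⟩⟩
    · exact ⟨0, zero_mem _⟩
    · rintro a b _ _ ⟨n, hn⟩ ⟨m, hm⟩
      exact ⟨max n m, add_mem (Wd_mono (le_max_left _ _) hn) (Wd_mono (le_max_right _ _) hm)⟩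
    · rintro r a _ ⟨n, hn⟩
      obtain ⟨P, hP⟩ := hR' r
      exact ⟨_, by rw [Algebra.smul_def]; exact hP ▸ Wd_mul hn (le_refl P.totalDegree)⟩
  have hTM : ∀ t : T, (t : F) ∈ M := fun t => by
    have : (t : F) ∈ Submodule.span R (T : Set F) := Submodule.subset_span t.2
    rw [hT] at this
    exact this
  obtain ⟨P, hP⟩ := hR' δ
  have hγ : ∀ ξ ∈ insert 1 S, ∀ t : T, (δ : F) * ξ * t ∈ M := by
    intro ξ h t
    refine mul_mem ?_ (hTM t)
    rcases mem_insert.1 h with rfl | h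
    · rw [mul_one]; exact M.algebraMap_mem δ
    · exact Algebra.subset_adjoin ⟨ξ, h, rfl⟩
  choose! n hn using hW
  refine ⟨T, P, max (n 1) ((insert 1 S ×ˢ T).sup fun s => n (δ * s.1 * s.2)), ?_,
    Wd_mono (le_max_left _ _) (hn 1 (one_mem _)), fun ξ h t => ?_⟩
  · rw [hP]; exact fun h => hδ0 (Subtype.ext h)
  · have h' : ξ ∈ insert 1 S := by simpa using h
    rw [hP]
    refine Wd_mono (le_trans ?_ (le_max_right _ _)) (hn _ (hγ ξ h' t))
    exact le_sup (f := fun s : F × F => n (δ * s.1 * s.2)) (b := (ξ, t))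
      (mem_product.2 ⟨h', t.2⟩)

end

theorem hgt (hk : ∀ c : k, ‖algebraMap k F c‖ ≤ 1) (x : Fin 2 → F) (h0 : 1 < ‖x 0‖)
    (S : Finset F) (hS : ∀ ξ ∈ S, IsAlgebraic (Algebra.adjoin k (Set.range x)) ξ) :
    Ht (x 0) (Submodule.span k (insert 1 (S : Set F))) := by
  classical
  obtain ⟨T, δ, c, hδ, h1, hγ⟩ := exT S hS
  set U := Submodule.span k (insert 1 (S : Set F)) with hU
  have step : ∀ u ∈ U, ∀ a, ∀ z ∈ Wd k x T a, aeval x δ * u * z ∈ Wd k x T (c + a) := by
    intro u hu a z hz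
    refine Submodule.span_induction (p := fun u _ => aeval x δ * u * z ∈ Wd k x T (c + a))
      ?_ ?_ ?_ ?_ hu
    · intro ξ h
      obtain ⟨P, hP, rfl⟩ := hz
      rw [mul_sum]
      refine sum_mem fun t _ => ?_
      rw [mul_left_comm]
      exact Wd_mul (hγ ξ h t) (hP t)
    · simp
    · intro a b _ _ ha hb
      rw [mul_add, add_mul]; exact add_mem ha hb
    · intro r a _ ha
      rw [mul_smul_comm, smul_mul_assoc]; exact Submodule.smul_mem _ _ ha
  have key : ∀ n, ∀ w ∈ U ^ n, ∀ a, ∀ z ∈ Wd k x T a,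
      aeval x δ ^ n * w * z ∈ Wd k x T (c * n + a) := by
    intro n
    induction n with
    | zero =>
      intro w hw a z hz
      rw [pow_zero, Submodule.mem_one] at hw
      obtain ⟨r, rfl⟩ := hw
      simpa [← Algebra.smul_def] using Submodule.smul_mem _ r hz
    | succ n ih =>
      intro w hw a z hz
      rw [pow_succ] at hw
      refine Submodule.mul_induction_on hw (fun u hu v hv => ?_) fun u v hu hv => ?_
      · have := ih u hu _ _ (step v hv a z hz)
        convert this using 1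
        · congr 1; ring
        · ring
      · rw [mul_add _ u v, add_mul]; exact add_mem hu hv
  have emb : ∀ n, ∃ f : ↥(U ^ n) →ₗ[k] Wd k x T (c * n + c), Function.Injective f := fun n => by
    refine ⟨LinearMap.codRestrict _ ((LinearMap.mulLeft k (aeval x δ ^ n)).comp (U ^ n).subtype)
      fun w => by simpa using key n w w.2 c 1 h1, fun a b h => Subtype.ext ?_⟩
    exact mul_left_cancel₀ (pow_ne_zero n hδ) (congrArg Subtype.val h)
  obtain ⟨g, hg⟩ : ∃ g : ℕ, 1 ≤ g ∧ ‖x 1‖ ≤ ‖x 0‖ ^ g ∧ ∀ ξ ∈ S, ‖ξ‖ ≤ ‖x 0‖ ^ g := by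
    obtain ⟨g, hg⟩ := pow_unbounded_of_one_lt (‖x 1‖ + ∑ ξ ∈ S, ‖ξ‖) h0
    have hs : 0 ≤ ∑ ξ ∈ S, ‖ξ‖ := sum_nonneg fun _ _ => norm_nonneg _
    have h2 : ‖x 0‖ ^ g ≤ ‖x 0‖ ^ (g + 1) := pow_le_pow_right₀ h0.le (by omega)
    refine ⟨g + 1, by omega, by linarith, fun ξ h => ?_⟩
    have := single_le_sum (f := fun ξ : F => ‖ξ‖) (fun _ _ => norm_nonneg _) h
    linarith [norm_nonneg (x 1)]
  have hsm : ∀ (r : k) (a : F), ‖r • a‖ ≤ ‖a‖ := fun r a => by
    rw [Algebra.smul_def, norm_mul]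
    exact mul_le_of_le_one_left (norm_nonneg _) (hk r)
  have hr : 1 < ‖x 0‖ ^ g := one_lt_pow₀ h0 (by omega)
  have hx : ∀ i, ‖x i‖ ≤ ‖x 0‖ ^ g := fun i => by
    fin_cases i
    · exact le_self_pow₀ h0.le (by omega)
    · exact hg.2.1
  refine ⟨Submodule.subset_span (Set.mem_insert _ _), fun n => ?_,
    ⟨T.card * (c + 1) ^ 2, fun n => ?_⟩, ⟨g, fun n => ?_⟩, fun b hb => ?_⟩
  · obtain ⟨f, hf⟩ := emb n
    have := (Wd_dim (k := k) (x := x) (T := T) (c * n + c)).1
    exact Module.Finite.of_injective f hf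
  · obtain ⟨f, hf⟩ := emb n
    have := (Wd_dim (k := k) (x := x) (T := T) (c * n + c)).1
    refine (LinearMap.finrank_le_finrank_of_injective hf).trans ((Wd_dim _).2.trans ?_)
    rw [mul_assoc, ← mul_pow]
    gcongr
    nlinarith
  · induction n with
    | zero =>
      intro w hw
      rw [pow_zero, Submodule.mem_one] at hw
      obtain ⟨r, rfl⟩ := hw
      simpa using hk r
    | succ n ih =>
      intro w hw
      rw [pow_succ] at hw
      refine Submodule.mul_induction_on hw (fun u hu v hv => ?_) fun u v hu hv => ?_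
      · rw [norm_mul, mul_add, pow_add, mul_one]
        refine mul_le_mul (ih u hu) ?_ (norm_nonneg _) (by positivity)
        refine Submodule.span_induction (p := fun v _ => ‖v‖ ≤ ‖x 0‖ ^ g) ?_ ?_ ?_ ?_ hv
        · rintro ξ (rfl | h)
          · simpa using hr.le
          · exact hg.2.2 ξ h
        · simp
        · exact fun a b _ _ ha hb => (IsUltrametricDist.norm_add_le_max _ _).trans (max_le ha hb)
        · exact fun r a _ ha => (hsm r a).trans ha
      · exact (IsUltrametricDist.norm_add_le_max _ _).trans (max_le hu hv)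
  · set c1 := T.card * c + 1 with hc1
    refine ⟨g * (5 * c1 ^ 2 * b + c1 + δ.totalDegree), fun L0 H => ?_⟩
    refine gel hk x h0 hr hx c1 b (by omega) hb L0 fun L hL => ?_
    obtain ⟨w, hw, hw0, hs⟩ := H L hL
    set r := ‖x 0‖ ^ g with hr'
    set n := b ^ L with hn
    have hn2 : n ≤ b ^ (2 * L) := Nat.pow_le_pow_right (by omega) (by omega)
    rw [mul_assoc, pow_mul, ← hr'] at hs
    set w' := aeval x δ ^ n * w with hw'
    have hw'n : ‖w'‖ ≤ r ^ (δ.totalDegree * n) * ‖w‖ := by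
      rw [hw', norm_mul, norm_pow, pow_mul]
      gcongr
      exact ev_le hk x hr.le hx δ le_rfl
    choose a ha1 ha2 using fun t : T => key n w hw 0 t (Wd_gen t)
    have hdet : ((Matrix.of a).charpoly.map (aeval x).toRingHom).eval w' = 0 := by
      rw [← Matrix.charpoly_map, Matrix.eval_charpoly, ← Matrix.exists_mulVec_eq_zero_iff]
      refine ⟨fun t => t, fun h => ?_, funext fun t => ?_⟩
      · obtain ⟨P, _, hP⟩ := h1
        simp [congrFun h] at hP
      · rw [Matrix.sub_mulVec]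
        simpa [Matrix.mulVec, dotProduct, hw', sub_eq_zero] using ha2 t
    have hcd : ∀ i, ((Matrix.of a).charpoly.coeff i).totalDegree ≤ c1 * n := fun i =>
      (char_deg (Matrix.of a) (n := c * n + 0) ha1 i).trans (by simp [hc1]; nlinarith)
    have hle : r ^ (δ.totalDegree * n) * ‖w‖ < 1 := by
      refine lt_of_le_of_lt ?_ hs
      gcongr
      · exact hr.le
      · omega
    obtain ⟨i, hi0, hi⟩ := trail (mul_ne_zero (pow_ne_zero n hδ) hw0) (hw'n.trans hle.le)
      (B := r ^ (c1 * n)) (by positivity) _ _ rfl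
      ((Matrix.charpoly_monic _).map _).ne_zero hdet fun i => by
        rw [Polynomial.coeff_map]; exact ev_le hk x hr.le hx _ (hcd i)
    rw [Polynomial.coeff_map] at hi0 hi
    refine ⟨_, hcd i, hi0, lt_of_le_of_lt ?_ hs⟩
    calc _ ≤ r ^ (5 * c1 ^ 2 * b * b ^ (2 * L)) * (r ^ (c1 * n) *
          (r ^ (δ.totalDegree * n) * ‖w‖)) := by
          gcongr
          exact hi.trans (by gcongr)
      _ = r ^ (5 * c1 ^ 2 * b * b ^ (2 * L) + c1 * n + δ.totalDegree * n) * ‖w‖ := by ring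
      _ ≤ _ := by
          refine mul_le_mul_of_nonneg_right (pow_le_pow_right₀ hr.le ?_) (norm_nonneg _)
          nlinarith [Nat.mul_le_mul_left c1 hn2, Nat.mul_le_mul_left δ.totalDegree hn2]

end Pool.Agent.CSU
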