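import Pool.Agent.Lib.MP_bf776f_nt.SU.ZE0

/-! The structure of the span of the twisted rows. -/

namespace Pool.Agent.CSU

open Polynomial Finset Matrix

variable {k F : Type} [Field k] [Fintype k] [Field F] [Algebra k F] {σ : F →+* F} {θ : F}

section

variable {ι : Type} [Fintype ι] {x : ι → F} {q T : ℕ}

lemma trA_add (R S : Option ι → F[X]) : trA q θ x T (R + S) = trA q θ x T R + trA q θ x T S := by
  funext o
  cases o with
  | none => simp only [trA_none, Pi.add_apply, mul_add, sum_add_distrib]; ring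
  | some i => rfl

lemma trA_smul (a : F[X]) (R : Option ι → F[X]) : trA q θ x T (a • R) = a • trA q θ x T R := by
  funext o
  cases o with
  | none =>
    simp only [trA_none, Pi.smul_apply, smul_eq_mul, mul_sub, mul_sum, mul_left_comm _ a]
  | some i => rfl

/-- Transport as a linear map. -/
noncomputable def trL (q : ℕ) (θ : F) (x : ι → F) (T : ℕ) :
    (Option ι → F[X]) →ₗ[F[X]] (Option ι → F[X]) where
  toFun := trA q θ x T
  map_add' := trA_add
  map_smul' := trA_smul

lemma trN_ne {R : Option ι → F[X]} (h : R ≠ 0) (m s : ℕ) : trN q θ x m R s ≠ 0 := by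
  induction s with
  | zero => exact h
  | succ s ih =>
    intro h0
    have h1 : ∀ i, trN q θ x m R s (some i) = 0 := fun i => congrFun h0 (some i)
    have h2 := congrFun h0 none
    simp only [trN, trA_none, h1, mul_zero, sum_const_zero, sub_zero, Pi.zero_apply] at h2
    refine ih (funext fun o => ?_)
    cases o with
    | none => exact (mul_eq_zero.1 h2).resolve_left (X_sub_C_ne_zero _)
    | some i => exact h1 i

lemma e0_mem [DecidableEq ι] (hσ : ∀ y, σ y = y ^ Fintype.card k)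
    (hNT : NT k (Fintype.card k) θ σ x) {r : ℕ} (ρ : ℕ → Option ι → F[X]) (hr : 0 < r)
    (h0 : ρ 0 ≠ 0) (hρ : ∀ a < r, tw σ (ρ a) = trA (Fintype.card k) θ x T (ρ (a + 1))) {b : F[X]}
    (hb : b ≠ 0) {s : Fin r → F[X]} (hs : b • ρ r = ∑ a, s a • ρ a) :
    ∃ a : F[X], a ≠ 0 ∧ ∃ t : Fin r → F[X],
      a • (Pi.single none 1 : Option ι → F[X]) = ∑ i, t i • ρ i := by
  set S := Submodule.span F[X] (Set.range fun a : Fin r => ρ a) with hS
  have hm : ∀ a < r, ρ a ∈ S := fun a ha => Submodule.subset_span ⟨⟨a, ha⟩, rfl⟩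
  have key : ∀ y ∈ S, ∃ y' ∈ S, b • tw σ y = trA (Fintype.card k) θ x T y' := by
    intro y hy
    induction hy using Submodule.span_induction with
    | mem y hy =>
      obtain ⟨a, rfl⟩ := hy
      refine ⟨b • ρ (a + 1), ?_, by rw [trA_smul, hρ a a.2]⟩
      rcases (Nat.succ_le_of_lt a.2).lt_or_eq with h | h
      · exact S.smul_mem _ (hm _ h)
      · rw [show (a : ℕ) + 1 = r from h, hs]
        exact sum_mem fun i _ => S.smul_mem _ (hm _ i.2)
    | zero =>
      refine ⟨0, zero_mem _, Eq.trans ?_ (trL _ θ x T).map_zero.symm⟩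
      funext o; simp [tw]
    | add y z _ _ h1 h2 =>
      obtain ⟨y', a1, a2⟩ := h1
      obtain ⟨z', b1, b2⟩ := h2
      refine ⟨y' + z', add_mem a1 b1, ?_⟩
      rw [trA_add, ← a2, ← b2, ← smul_add]
      congr 1; funext o; simp [tw]
    | smul c y _ h1 =>
      obtain ⟨y', a1, a2⟩ := h1
      refine ⟨c.map σ • y', S.smul_mem _ a1, ?_⟩
      rw [trA_smul, ← a2, smul_comm]
      congr 1; funext o; simp [tw]
  by_contra hne
  have hz : ∀ y ∈ S, (∀ i, y (some i) = 0) → y none = 0 := fun y hy h => by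
    by_contra hy0
    obtain ⟨t, ht⟩ := (Submodule.mem_span_range_iff_exists_fun _).1 hy
    refine hne ⟨_, hy0, t, Eq.trans (funext fun o => ?_) ht.symm⟩
    cases o <;> simp [h]
  obtain ⟨β, hβ, a, ha, y, hy, hyβ⟩ := artin hσ
    (fun β : ι → F[X] => ∃ a : F[X], a ≠ 0 ∧ ∃ y ∈ S, ∀ i, y (some i) = a * β i)
    (by
      rintro c v ⟨a, ha, y, hy, h⟩
      exact ⟨a, ha, C c • y, S.smul_mem _ hy, fun i => by
        rw [Pi.smul_apply, Pi.smul_apply, h, smul_eq_mul, smul_eq_C_mul, mul_left_comm]⟩)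
    (by
      rintro v v' ⟨a, ha, y, hy, h⟩ ⟨a', ha', y', hy', h'⟩
      exact ⟨a * a', mul_ne_zero ha ha', a' • y - a • y',
        sub_mem (S.smul_mem _ hy) (S.smul_mem _ hy'), fun i => by
          simp only [Pi.sub_apply, Pi.smul_apply, h, h', smul_eq_mul]; ring⟩)
    (by
      rintro v ⟨a, ha, y, hy, h⟩
      obtain ⟨y', a1, a2⟩ := key y hy
      refine ⟨b * a.map σ, mul_ne_zero hb (Polynomial.map_ne_zero ha), y', a1, fun i => ?_⟩
      have := congrFun a2 (some i)
      rw [trA_some, Pi.smul_apply, tw, h, Polynomial.map_mul, smul_eq_mul] at this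
      rw [← this, mul_assoc])
    ⟨fun i => ρ 0 (some i), ⟨1, one_ne_zero, _, hm 0 hr, fun i => (one_mul _).symm⟩, fun h =>
      h0 (funext fun o => by
        cases o with
        | none => exact hz _ (hm 0 hr) (congrFun h)
        | some i => exact congrFun h i)⟩
  obtain ⟨y', a1, a2⟩ := key y hy
  have a3 : ∀ i, y' (some i) = b * a.map σ * (β i).map (algebraMap k F) := fun i => by
    have := congrFun a2 (some i)
    rw [trA_some, Pi.smul_apply, tw, hyβ, Polynomial.map_mul, smul_eq_mul, map_fix hσ] at this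
    rw [← this, mul_assoc]
  have a4 := hz (a • y' - (b * a.map σ) • y) (sub_mem (S.smul_mem _ a1) (S.smul_mem _ hy))
    fun i => by simp only [Pi.sub_apply, Pi.smul_apply, a3, hyβ, smul_eq_mul]; ring
  have a5 := congrFun a2 none
  simp only [Pi.sub_apply, Pi.smul_apply, smul_eq_mul, trA_none, tw, a3,
    mul_left_comm _ (b * a.map σ), ← mul_sum] at a4 a5
  obtain ⟨b', g, hb', hg⟩ := clear hσ (g := y none) (c := θ ^ Fintype.card k ^ T)
    (y := ∑ i, C (x i ^ Fintype.card k ^ T) * (β i).map (algebraMap k F)) ha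
    (mul_left_cancel₀ hb (by linear_combination a * a5 + (X - C (θ ^ Fintype.card k ^ T)) * a4))
  have := hNT T (fun i => b' * β i) g (by
    rw [hg, mul_sum]
    simp only [Polynomial.map_mul, mul_left_comm])
  exact hβ (funext fun i => (mul_eq_zero.1 (congrFun this i)).resolve_left hb')

end

variable {n T : ℕ} {x : Fin n → F}

lemma gam (hσ : ∀ y, σ y = y ^ Fintype.card k) (ρ : ℕ → Option (Fin n) → F[X])
    (hρ : ∀ a < n, tw σ (ρ a) = trA (Fintype.card k) θ x T (ρ (a + 1)))
    (hi : LinearIndependent F[X] fun a : Fin n => ρ a)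
    (hd : ¬ LinearIndependent F[X] fun a : Fin (n + 1) => ρ a) {a : F[X]} (ha : a ≠ 0)
    {t : Fin n → F[X]} (he : a • (Pi.single none 1 : Option (Fin n) → F[X]) = ∑ i, t i • ρ i) :
    ∃ γ : Fin n → k[X], γ ≠ 0 ∧
      ∀ a < n, ∑ i, ρ a (some i) * (γ i).map (algebraMap k F) = 0 := by
  obtain ⟨f, hf⟩ := minor _ hi
  have h1 : LinearIndependent F[X] fun a : Fin n => tw σ (ρ a) := indep_of_det _ f (by
    have := Polynomial.map_ne_zero (f := σ) hf
    rwa [← coe_mapRingHom, RingHom.map_det] at this)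
  have h2 : LinearIndependent F[X] fun a : Fin n => ρ (a + 1) :=
    .of_comp (trL (Fintype.card k) θ x T) (by
      convert h1 using 1
      funext a
      exact (hρ a a.2).symm)
  obtain ⟨c, hc, s, hs⟩ := dep (fun a : Fin (n + 1) => ρ a) 0 h2 hd
  refine artin hσ (fun κ : Fin n → F[X] => ∀ a < n, ∑ i, ρ a (some i) * κ i = 0)
    (fun c v h a ha => ?_) (fun v w h h' a ha => ?_) (fun v h a ha => ?_) ?_
  · simp only [Pi.smul_apply, mul_smul_comm, ← smul_sum, h a ha, smul_zero]
  · simp only [Pi.sub_apply, mul_sub, sum_sub_distrib, h a ha, h' a ha, sub_zero]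
  · have h3 : ∀ a < n, ∑ i, ρ (a + 1) (some i) * (v i).map σ = 0 := fun a ha => by
      have := congrArg (Polynomial.map σ) (h a ha)
      rw [Polynomial.map_sum, Polynomial.map_zero] at this
      rw [← this]
      refine sum_congr rfl fun i _ => ?_
      rw [Polynomial.map_mul]
      exact congrArg (· * _) (congrFun (hρ a ha) (some i)).symm
    cases a with
    | succ a => exact h3 a (by omega)
    | zero =>
      refine (mul_eq_zero.1 ?_).resolve_left hc
      have h4 : ∀ i, c * ρ 0 (some i) = ∑ b : Fin n, s b * ρ (b + 1) (some i) := fun i => by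
        simpa using congrFun hs (some i)
      simp only [mul_sum, ← mul_assoc, h4, sum_mul]
      rw [sum_comm]
      exact sum_eq_zero fun b _ => by simp only [mul_assoc, ← mul_sum, h3 b b.2, mul_zero]
  · obtain ⟨κ, h3, h4⟩ := (exists_mulVec_eq_zero_iff (M := Matrix.of fun a i : Fin n =>
      ρ a (some i))).2 (exists_vecMul_eq_zero_iff.1 ⟨t, fun h => ha (by
        simpa [h] using congrFun he none), funext fun i => by
          simpa [vecMul, dotProduct] using (congrFun he (some i)).symm⟩)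
    exact ⟨κ, fun a ha => congrFun h4 ⟨a, ha⟩, h3⟩

/-- Zeros of the jets pass to `p`. -/
def Pr1 (ρ : ℕ → Option (Fin n) → F[X]) (p : F[X]) : Prop :=
  ∀ (c : F) (v w : Fin n → F) (m : ℕ), (∀ a ≤ n, (X - C c) ^ m ∣ ρ a ⬝ᵥ Y1 c v w) →
    (X - C c) ^ m ∣ p

/-- Triple zeros. -/
def Pr3 (k : Type) [Field k] [Algebra k F] (ρ : ℕ → Option (Fin n) → F[X]) (p : F[X]) : Prop :=
  ∀ (c : F) (v w z : Fin n → F), (∀ γ : k[X], γ ≠ 0 → aeval c γ ≠ 0) → z ≠ 0 →
    (∀ γ : Fin n → k[X], γ ≠ 0 → ∃ a b, aeval c (γ a) * z b ≠ aeval c (γ b) * z a) →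
    (∀ a ≤ n, Cond (ρ a) c v w z) → (X - C c) ^ 3 ∣ p

theorem exP (hσ : ∀ y, σ y = y ^ Fintype.card k) (hNT : NT k (Fintype.card k) θ σ x)
    (ρ : ℕ → Option (Fin n) → F[X]) (h0 : ρ 0 ≠ 0)
    (hρ : ∀ a < n, tw σ (ρ a) = trA (Fintype.card k) θ x T (ρ (a + 1))) {D : ℕ}
    (hD : ∀ a ≤ n, ∀ o, (ρ a o).natDegree ≤ D) :
    (∃ p : F[X], p ≠ 0 ∧ p.natDegree ≤ (n + 1) * D ∧ Pr1 ρ p ∧ Pr3 k ρ p) ∨
    ∃ r ≤ n, (∃ p : F[X], p ≠ 0 ∧ p.natDegree ≤ r * D ∧ Pr1 ρ p) ∧
      (r = n → ∃ p : F[X], p ≠ 0 ∧ p.natDegree ≤ n * D ∧ Pr3 k ρ p) := by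
  classical
  by_cases hall : LinearIndependent F[X] fun a : Fin (n + 1) => ρ a
  · left
    let M : Matrix (Option (Fin n)) (Option (Fin n)) F[X] := fun o => ρ ((finSuccEquiv n).symm o)
    have hle : ∀ o, (((finSuccEquiv n).symm o : Fin (n + 1)) : ℕ) ≤ n := fun o =>
      Nat.le_of_lt_succ (Fin.is_lt _)
    refine ⟨M.det, fun h => ?_, (deg_det M (fun _ => D) fun o => hD _ (hle o)).trans (by simp),
      fun c v w m h => ?_, fun c v w z _ hz _ h => ?_⟩
    · obtain ⟨s, hs, hs0⟩ := exists_vecMul_eq_zero_iff.2 h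
      refine hs (funext (Fintype.linearIndependent_iff.1
        (hall.comp _ (finSuccEquiv n).symm.injective) s (funext fun o => ?_)))
      simpa [vecMul, dotProduct, M] using congrFun hs0 o
    · simpa [Y1] using dvd_det1 M none (Y1 c v w) fun o => h _ (hle o)
    · obtain ⟨l, hl⟩ := Function.ne_iff.1 hz
      have := dvd_det2 M (Option.some_ne_none l).symm (Y1 c v w) (Z1 z) rfl
        (fun o => (h _ (hle o)).dvd_Y1) fun o => (h _ (hle o)).dvd_Z1
      rw [← pow_succ] at this
      exact dvd_cancel (a := C (z l)) (by simpa using hl) (by simpa [Y1, Z1] using this)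
  right
  have hex : ∃ r, ¬ LinearIndependent F[X] fun a : Fin (r + 1) => ρ a := ⟨n, hall⟩
  have hrn : Nat.find hex ≤ n := Nat.find_min' hex hall
  have hd := Nat.find_spec hex
  have hmin := fun m => Nat.find_min hex (m := m)
  generalize Nat.find hex = r at hrn hd hmin
  have hr : 0 < r := Nat.pos_of_ne_zero fun h => hd (by
    subst h
    exact (linearIndependent_unique_iff (R := F[X]) (ι := Fin 1)).2 h0)
  have hi : LinearIndependent F[X] fun a : Fin r => ρ a := by
    obtain ⟨r, rfl⟩ : ∃ r', r = r' + 1 := ⟨r - 1, by omega⟩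
    exact not_not.1 (hmin r (by omega))
  obtain ⟨b, hb, s, hs⟩ := dep (fun a : Fin (r + 1) => ρ a) (Fin.last r) (by simpa using hi) hd
  obtain ⟨a, ha, t, ht⟩ := e0_mem hσ hNT ρ hr h0 (fun a h => hρ a (by omega)) hb (s := s)
    (by simpa using hs)
  refine ⟨r, hrn, ?_, ?_⟩
  · obtain ⟨f, hf⟩ := minor _ hi
    obtain ⟨u, hu⟩ := cramer' _ f ha ht
    refine ⟨_, hf, (deg_det _ (fun _ => D) fun a b => hD _ (by omega) _).trans (by simp),
      fun c v w m h => ?_⟩
    have := congrArg (· ⬝ᵥ Y1 c v w) hu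
    simp only [smul_dotProduct, sum_dotProduct, single_dotProduct, Y1, Option.elim_none, mul_one,
      smul_eq_mul] at this
    rw [this]
    exact dvd_sum fun i _ => (h _ (by omega)).mul_left _
  rintro rfl
  obtain ⟨γ, hγ, hγ0⟩ := gam hσ ρ hρ hi hd ha ht
  obtain ⟨i, hi0⟩ := Function.ne_iff.1 hγ
  let Γ : Option (Fin r) → F[X] := fun o => o.elim 0 fun i => (γ i).map (algebraMap k F)
  let M : Matrix (Option (Fin r)) (Option (Fin r)) F[X] :=
    fun o => o.elim (Pi.single (some i) 1) fun a => ρ a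
  have hΓ : ∀ a : Fin r, ρ a ⬝ᵥ Γ = 0 := fun a => by
    simpa [dotProduct, Γ] using hγ0 a a.2
  have hM : ∀ (G : F[X]) (Y : Option (Fin r) → F[X]), (∀ a : Fin r, G ∣ ρ a ⬝ᵥ Y) →
      ∀ o, G ∣ M o ⬝ᵥ (Γ (some i) • Y - Y (some i) • Γ) := by
    intro G Y h o
    cases o with
    | none => simp [M, mul_comm]
    | some a =>
      simp only [M, Option.elim_some, dotProduct_sub, dotProduct_smul, hΓ, smul_zero, sub_zero]
      exact (h a).mul_left _
  refine ⟨M.det, fun h => ?_, (deg_det M (fun o => o.elim 0 fun _ => D) fun o j => ?_).trans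
    (by simp), fun c v w z hc _ hz h => ?_⟩
  · obtain ⟨s, hs, hs0⟩ := exists_vecMul_eq_zero_iff.2 h
    rw [vecMul_eq_sum, Fintype.sum_option] at hs0
    have h1 := congrArg (· ⬝ᵥ Γ) hs0
    simp only [M, Option.elim_none, Option.elim_some, add_dotProduct, smul_dotProduct,
      sum_dotProduct, hΓ, smul_zero, sum_const_zero, add_zero, single_dotProduct, one_mul,
      zero_dotProduct, smul_eq_mul, mul_zero] at h1
    have h2 : s none = 0 := (mul_eq_zero.1 h1).resolve_right (Polynomial.map_ne_zero hi0)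
    rw [h2, zero_smul, zero_add] at hs0
    refine hs (funext fun o => ?_)
    cases o with
    | none => exact h2
    | some a => exact Fintype.linearIndependent_iff.1 hi _ hs0 a
  · cases o with
    | none =>
      simp only [M, Option.elim_none, Pi.single_apply]
      split_ifs <;> simp
    | some a => exact hD _ a.2.le _
  · obtain ⟨l, hl⟩ : ∃ l, aeval c (γ i) * z l ≠ aeval c (γ l) * z i := by
      by_contra hn
      push Not at hn
      obtain ⟨a, b, hab⟩ := hz γ hγ
      refine hab (mul_left_cancel₀ (hc _ hi0) ?_)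
      linear_combination aeval c (γ a) * hn b - aeval c (γ b) * hn a
    have := dvd_det2 M (Option.some_ne_none l).symm _ _ (by simp [Γ, Z1])
      (hM _ _ fun a => (h _ a.2.le).dvd_Y1) (hM _ _ fun a => (h _ a.2.le).dvd_Z1)
    rw [← pow_succ] at this
    refine dvd_cancel ?_ (dvd_cancel ?_ this)
    · simpa [Γ, Y1, eval_map_algebraMap] using hc _ hi0
    · simpa [Γ, Z1, eval_map_algebraMap, sub_eq_zero, mul_comm] using hl

end Pool.Agent.CSU
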